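import Mathlib

/-!
Leafwise measures: the abstract definition.
-/

namespace Pool.Agent.P.MP_d483fb_an.Z

open MeasureTheory ProbabilityTheory Set
open scoped ENNReal

variable {X : Type*} [MeasurableSpace X]

/-- `om` is a family of leafwise measures of `μ` for the relation `R` with the gauge `N`; all
the pointwise properties hold on the conull `a`-invariant set `X1`. -/
structure IsLeafwise (μ : Measure X) (a : X ≃ᵐ X) (R : X → X → Prop) (N : X → X → ℝ)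
    (om : Kernel X X) (X1 : Set X) : Prop where
  sfin : IsSFiniteKernel om
  meas : MeasurableSet X1
  conull : ∀ᵐ x ∂μ, x ∈ X1
  inv : ∀ x, a x ∈ X1 ↔ x ∈ X1
  carried : ∀ x ∈ X1, ∀ᵐ y ∂om x, y ∈ X1 ∧ R x y
  fin : ∀ x ∈ X1, ∀ r : ℝ, om x {y | N x y < r} ≠ ∞
  pos : ∀ x ∈ X1, ∀ r : ℝ, 0 < r → om x {y | N x y < r} ≠ 0
  norm : ∀ x ∈ X1, om x {y | N x y < 1} = 1
  prop : ∀ x ∈ X1, ∀ y ∈ X1, R x y →
    om x {w | N y w < 1} ≠ 0 ∧ om x {w | N y w < 1} ≠ ∞ ∧ om x = om x {w | N y w < 1} • om y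
  equiv : ∀ x ∈ X1, ∃ c : ℝ≥0∞, c ≠ 0 ∧ c ≠ ∞ ∧ om (a x) = c • (om x).map a
  mtp : ∀ Ψ : X → X → ℝ≥0∞, Measurable (Function.uncurry Ψ) →
    ∫⁻ x, ∫⁻ y, Ψ x y ∂om x ∂μ = ∫⁻ y, ∫⁻ x, Ψ x y * om x {w | N y w < 1} ∂om y ∂μ

/-- The input for the construction of leafwise measures: a label `eta` on the whole space whose
atoms grow under `a⁻¹`, split countably, lie in the classes of `R`, exhaust them and shrink to
points, all this on the conull `a`-invariant set `Y`. -/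
structure Nest {Z : Type*} [MeasurableSpace Z] (μ : Measure X) (a : X ≃ᵐ X) (R : X → X → Prop)
    (N : X → X → ℝ) (eta : X → Z) (e : X → ℕ) (Y : Set X) : Prop where
  pres : MeasurePreserving a μ μ
  measN : Measurable (Function.uncurry N)
  measEta : Measurable eta
  measE : Measurable e
  meas : MeasurableSet Y
  conull : ∀ᵐ x ∂μ, x ∈ Y
  inv : ∀ x, a x ∈ Y ↔ x ∈ Y
  relInv : ∀ x ∈ Y, ∀ y ∈ Y, R x y → R (a x) (a y)
  rel : ∀ x ∈ Y, ∀ y ∈ Y, eta x = eta y → R x y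
  nest : ∀ x ∈ Y, ∀ y ∈ Y, eta (a x) = eta (a y) → eta x = eta y
  cnt : ∀ x ∈ Y, ∀ y ∈ Y, eta x = eta y → e x = e y → eta (a x) = eta (a y)
  exh : ∀ x ∈ Y, ∀ r : ℝ, ∃ s : ℕ, ∀ y ∈ Y, R x y → N x y < r →
    eta (a.symm^[s] y) = eta (a.symm^[s] x)
  shr : ∀ x ∈ Y, ∀ r : ℝ, 0 < r → ∃ s : ℕ, ∀ y ∈ Y, eta (a^[s] y) = eta (a^[s] x) → N x y < r

end Pool.Agent.P.MP_d483fb_an.Z
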