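import Pool.Agent.P.MP_d483fb_an.Z.LSB.LeafCore

/-!
Consequences of the mass transport identity for leafwise measures.
-/

namespace Pool.Agent.P.MP_d483fb_an.Z

open MeasureTheory ProbabilityTheory Set Filter
open scoped ENNReal

variable {X Z : Type*} [MeasurableSpace X] [MeasurableSpace Z] {μ : Measure X} {a : X ≃ᵐ X}
  {R : X → X → Prop} {N : X → X → ℝ} {om : Kernel X X} {X1 : Set X}

namespace IsLeafwise

theorem toMtp (h : IsLeafwise μ a R N om X1) : Mtp μ om fun x y => om x {w | N y w < 1} := h.mtp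

theorem ne_zero (h : IsLeafwise μ a R N om X1) {x : X} (hx : x ∈ X1) : om x ≠ 0 := fun h0 => by
  simpa [h0] using h.norm x hx

/-- Proportionality, with the relation in the other direction. -/
theorem prop_symm (h : IsLeafwise μ a R N om X1) {x y : X} (hx : x ∈ X1) (hy : y ∈ X1)
    (r : R y x) : om x {w | N y w < 1} ≠ 0 ∧ om x {w | N y w < 1} ≠ ∞ ∧
      om x = om x {w | N y w < 1} • om y := by
  obtain ⟨h1, h2, h3⟩ := h.prop y hy x hx r
  generalize om y {w | N x w < 1} = c at h1 h2 h3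
  have h4 : om x = c⁻¹ • om y := by
    rw [h3, smul_smul, ENNReal.inv_mul_cancel h1 h2, one_smul]
  have h5 : om x {w | N y w < 1} = c⁻¹ := by
    rw [h4, Measure.smul_apply, h.norm y hy, smul_eq_mul, mul_one]
  rw [h5]
  exact ⟨ENNReal.inv_ne_zero.2 h2, ENNReal.inv_ne_top.2 h1, h4⟩

/-- W4. -/
theorem ae_null (h : IsLeafwise μ a R N om X1) {B : Set X} (hB : μ B = 0) :
    ∀ᵐ x ∂μ, om x B = 0 := h.toMtp.ae_null hB

/-- W4. -/
theorem ae_ae (h : IsLeafwise μ a R N om X1) {p : X → Prop} (hp : ∀ᵐ x ∂μ, p x) :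
    ∀ᵐ x ∂μ, ∀ᵐ y ∂om x, p y := h.toMtp.ae_ae hp

theorem measurable_ball (h : IsLeafwise μ a R N om X1) (hN : Measurable (Function.uncurry N))
    (r : ℝ) : Measurable fun p : X × X => om p.1 {w | N p.2 w < r} := by
  have := h.sfin
  exact Kernel.measurable_kernel_prodMk_left (κ := Kernel.prodMkRight X om)
    (t := {q : (X × X) × X | N q.1.2 q.2 < r})
    (measurableSet_lt (hN.comp (measurable_fst.snd.prodMk measurable_snd)) measurable_const)

/-- The two orders of choosing a point and a point of its leaf have the same null sets. -/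
theorem ae_swap (h : IsLeafwise μ a R N om X1) (hN : Measurable (Function.uncurry N))
    {P : X → X → Prop} (hP : MeasurableSet {p : X × X | P p.1 p.2})
    (hp : ∀ᵐ x ∂μ, ∀ᵐ y ∂om x, P x y) : ∀ᵐ y ∂μ, ∀ᵐ x ∂om y, P x y := by
  have := h.sfin
  have hm : Measurable (Function.uncurry fun x y =>
      {p : X × X | P p.1 p.2}ᶜ.indicator (1 : X × X → ℝ≥0∞) (x, y)) :=
    measurable_one.indicator hP.compl
  have h1 := h.mtp _ hm
  have h2 : ∫⁻ x, ∫⁻ y, {p : X × X | P p.1 p.2}ᶜ.indicator (1 : X × X → ℝ≥0∞) (x, y) ∂om x ∂μ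
      = 0 := by
    refine (lintegral_congr_ae (g := fun _ => 0) (hp.mono fun x hx => ?_)).trans lintegral_zero
    refine (lintegral_congr_ae (g := fun _ => 0) (hx.mono fun y hy => ?_)).trans lintegral_zero
    exact indicator_of_notMem (s := {p : X × X | P p.1 p.2}ᶜ) (fun h => h hy) _
  have hm2 : Measurable fun q : X × X =>
      {p : X × X | P p.1 p.2}ᶜ.indicator (1 : X × X → ℝ≥0∞) (q.2, q.1) * om q.2 {w | N q.1 w < 1} :=
    (hm.mul (h.measurable_ball hN 1)).comp measurable_swap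
  rw [h2, eq_comm, lintegral_eq_zero_iff (Measurable.lintegral_kernel_prod_right' hm2)] at h1
  filter_upwards [h1, h.conull] with y hy hy1
  filter_upwards [(lintegral_eq_zero_iff (hm2.comp (measurable_prodMk_left (x := y)))).1 hy,
    h.carried y hy1] with x hx hx1
  by_contra hc
  have h3 : (x, y) ∈ {p : X × X | P p.1 p.2}ᶜ := hc
  simp only [Function.comp, indicator_of_mem h3, Pi.one_apply, one_mul, Pi.zero_apply] at hx
  exact (h.prop_symm hx1.1 hy1 hx1.2).1 hx

/-- W5. -/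
theorem ae_of_ae_ae (h : IsLeafwise μ a R N om X1) (hN : Measurable (Function.uncurry N))
    {p : X → Prop} (hm : MeasurableSet {y | p y}) (hp : ∀ᵐ x ∂μ, ∀ᵐ y ∂om x, p y) :
    ∀ᵐ y ∂μ, p y := by
  filter_upwards [h.ae_swap hN (P := fun _ y => p y) (measurable_snd hm) hp, h.conull]
    with y hy hy1
  have : (ae (om y)).NeBot := ae_neBot.2 (h.ne_zero hy1)
  exact hy.exists.choose_spec

/-- The good set can be chosen inside any conull set. -/
theorem shrink (h : IsLeafwise μ a R N om X1) (ha : MeasurePreserving a μ μ) {G : Set X}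
    (hG : ∀ᵐ x ∂μ, x ∈ G) : ∃ X2, X2 ⊆ X1 ∧ X2 ⊆ G ∧ IsLeafwise μ a R N om X2 := by
  obtain ⟨S, h1, h2, h3, h4, h5⟩ := exists_closed_conull ha (k := om) (fun B => h.ae_null)
    (G := X1 ∩ G) (h.conull.and hG)
  have h6 : ∀ x ∈ S, x ∈ X1 := fun x hx => (h2 hx).1
  exact ⟨S, h6, fun x hx => (h2 hx).2, h.sfin, h1, h3, h4,
    fun x hx => (h5 x hx).and ((h.carried x (h6 x hx)).mono fun y hy => hy.2),
    fun x hx => h.fin x (h6 x hx), fun x hx => h.pos x (h6 x hx), fun x hx => h.norm x (h6 x hx),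
    fun x hx y hy => h.prop x (h6 x hx) y (h6 y hy), fun x hx => h.equiv x (h6 x hx), h.mtp⟩

/-- Leafwise measures for `a` are leafwise measures for `a⁻¹`. -/
theorem symm (h : IsLeafwise μ a R N om X1) : IsLeafwise μ a.symm R N om X1 := by
  have hi : ∀ x, a.symm x ∈ X1 ↔ x ∈ X1 := fun x => by
    rw [← h.inv (a.symm x), a.apply_symm_apply]
  refine ⟨h.sfin, h.meas, h.conull, hi, h.carried, h.fin, h.pos, h.norm, h.prop, fun x hx => ?_,
    h.mtp⟩
  obtain ⟨c, h1, h2, h3⟩ := h.equiv _ ((hi x).2 hx)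
  rw [a.apply_symm_apply] at h3
  refine ⟨c⁻¹, ENNReal.inv_ne_zero.2 h2, ENNReal.inv_ne_top.2 h1, ?_⟩
  rw [h3, Measure.map_smul, MeasurableEquiv.map_symm_map, smul_smul, ENNReal.inv_mul_cancel h1 h2,
    one_smul]

theorem iterate_mem (h : IsLeafwise μ a R N om X1) (n : ℕ) (x : X) : a^[n] x ∈ X1 ↔ x ∈ X1 := by
  induction n with
  | zero => rfl
  | succ n ih => rw [Function.iterate_succ_apply', h.inv, ih]

/-- Equivariance under the iterates (use `h.symm` for the negative ones). -/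
theorem equiv_iterate (h : IsLeafwise μ a R N om X1) (n : ℕ) {x : X} (hx : x ∈ X1) :
    ∃ c : ℝ≥0∞, c ≠ 0 ∧ c ≠ ∞ ∧ om (a^[n] x) = c • (om x).map a^[n] := by
  induction n with
  | zero => exact ⟨1, one_ne_zero, ENNReal.one_ne_top, by simp⟩
  | succ n ih =>
    obtain ⟨c, h1, h2, h3⟩ := ih
    obtain ⟨c', h4, h5, h6⟩ := h.equiv _ ((h.iterate_mem n x).2 hx)
    refine ⟨c' * c, mul_ne_zero h4 h1, ENNReal.mul_ne_top h5 h2, ?_⟩
    rw [Function.iterate_succ', Function.comp_apply, h6, h3, Measure.map_smul, smul_smul,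
      Measure.map_map a.measurable (a.measurable.iterate n)]

/-- W6: a map that preserves almost all leafwise measures preserves the measure. -/
theorem map_eq (h : IsLeafwise μ a R N om X1) (hN : Measurable (Function.uncurry N)) {u : X → X}
    (hu : Measurable u) (hinv : ∀ᵐ x ∂μ, (om x).map u = om x) : μ.map u = μ := by
  have := h.sfin
  have hb := h.measurable_ball hN 1
  have hfin : ∀ᵐ y ∂μ, om y {w | N (u y) w < 1} ≠ 0 ∧ om y {w | N (u y) w < 1} ≠ ∞ := by
    have hm : Measurable fun y => om y {w | N (u y) w < 1} := hb.comp (measurable_id.prodMk hu)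
    refine h.ae_of_ae_ae hN ((hm (measurableSet_singleton 0)).compl.inter
      (hm (measurableSet_singleton ∞)).compl) ?_
    filter_upwards [hinv, h.conull] with x hx hx1
    have h1 := h.carried x hx1
    have h2 := h1
    rw [← hx] at h2
    filter_upwards [h1, ae_of_ae_map hu.aemeasurable h2] with y hy hy'
    obtain ⟨b1, b2, b3⟩ := h.prop x hx1 y hy.1 hy.2
    obtain ⟨c1, c2, -⟩ := h.prop x hx1 _ hy'.1 hy'.2
    rw [b3, Measure.smul_apply, smul_eq_mul] at c1 c2
    exact ⟨right_ne_zero_of_mul c1, fun h0 => c2 (by rw [h0, ENNReal.mul_top b1])⟩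
  have key : ∀ v : X → X, Measurable v →
      (∀ᵐ y ∂μ, om y {w | N (v y) w < 1} ≠ 0 ∧ om y {w | N (v y) w < 1} ≠ ∞) →
      ∀ B, MeasurableSet B → ∫⁻ x, ∫⁻ y, {p : X × X | p.2 ∈ B ∧ N p.2 p.1 < 1}.indicator
        (fun p => (om p.1 {w | N p.2 w < 1})⁻¹) (x, v y) ∂om x ∂μ = μ (v ⁻¹' B) := by
    intro v hv hvf B hB
    have hP : MeasurableSet {p : X × X | p.2 ∈ B ∧ N p.2 p.1 < 1} :=
      (measurable_snd hB).inter (measurableSet_lt (hN.comp measurable_swap) measurable_const)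
    rw [h.mtp (fun x y => {p : X × X | p.2 ∈ B ∧ N p.2 p.1 < 1}.indicator
        (fun p => (om p.1 {w | N p.2 w < 1})⁻¹) (x, v y))
      ((hb.inv.indicator hP).comp (measurable_fst.prodMk (hv.comp measurable_snd))),
      ← lintegral_indicator_one (hv hB)]
    refine lintegral_congr_ae ?_
    filter_upwards [hvf, h.conull] with y hy hy1
    by_cases hyB : y ∈ v ⁻¹' B
    · have hS : MeasurableSet {w | N (v y) w < 1} :=
        measurableSet_lt hN.of_uncurry_left measurable_const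
      rw [indicator_of_mem hyB, Pi.one_apply, ← ENNReal.inv_mul_cancel hy.1 hy.2,
        ← setLIntegral_const, ← lintegral_indicator hS]
      refine lintegral_congr_ae ((h.carried y hy1).mono fun x hx => ?_)
      obtain ⟨b1, b2, b3⟩ := h.prop_symm hx.1 hy1 hx.2
      by_cases hx' : x ∈ {w | N (v y) w < 1}
      · have hm : (x, v y) ∈ {p : X × X | p.2 ∈ B ∧ N p.2 p.1 < 1} := ⟨hyB, hx'⟩
        simp only [indicator_of_mem hm, indicator_of_mem hx']
        have e : om x {w | N (v y) w < 1} = om x {w | N y w < 1} * om y {w | N (v y) w < 1} := by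
          conv_lhs => rw [b3]
          rfl
        rw [e, ENNReal.mul_inv (Or.inl b1) (Or.inl b2), mul_right_comm,
          ENNReal.inv_mul_cancel b1 b2, one_mul]
      · simp only [indicator_of_notMem hx']
        rw [indicator_of_notMem (fun h => hx' h.2), zero_mul]
    · rw [indicator_of_notMem hyB]
      refine (lintegral_congr fun x => ?_).trans lintegral_zero
      rw [indicator_of_notMem (fun h => hyB h.1), zero_mul]
  refine Measure.ext fun B hB => ?_
  have hP : MeasurableSet {p : X × X | p.2 ∈ B ∧ N p.2 p.1 < 1} :=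
    (measurable_snd hB).inter (measurableSet_lt (hN.comp measurable_swap) measurable_const)
  have e1 := key id measurable_id (h.conull.mono fun y hy => by simp [h.norm y hy]) B hB
  rw [Measure.map_apply hu hB, ← key u hu hfin B hB, ← preimage_id (s := B), ← e1]
  refine lintegral_congr_ae (hinv.mono fun x hx => ?_)
  have e2 := lintegral_map (μ := om x) ((hb.inv.indicator hP).comp (measurable_prodMk_left (x := x))) hu
  rw [hx] at e2
  exact e2.symm

variable [StandardBorelSpace X] [Nonempty X] [StandardBorelSpace Z]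

/-- W3. -/
theorem condDistrib_eq (h : IsLeafwise μ a R N om X1) {K : Set X} (hK : MeasurableSet K)
    {lab : X → Z} (hl : Measurable lab) {S : Set X} (hS : ∀ᵐ x ∂μ, x ∈ S)
    (h1 : ∀ x ∈ S, x ∈ K → om x {y | y ∈ K ∧ lab y = lab x} ≠ 0 ∧
      om x {y | y ∈ K ∧ lab y = lab x} ≠ ∞)
    (h2 : ∀ x ∈ S, ∀ y ∈ S, x ∈ K → y ∈ K → lab x = lab y → R x y)
    (ν : Measure X) [IsFiniteMeasure ν] {c : ℝ≥0∞} (hν : ν = c • μ.restrict K) :
    ∀ᵐ x ∂ν, condDistrib id lab ν (lab x) = (om x)[|{y | y ∈ K ∧ lab y = lab x}] := by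
  have := h.sfin
  exact h.toMtp.condDistrib_eq hK hl (S := S ∩ X1) (hS.and h.conull) (fun x hx => h1 x hx.1)
    (fun x hx y hy b1 b2 e => (h.prop x hx.2 y hy.2 (h2 x hx.1 y hy.1 b1 b2 e)).2.2) ν hν

omit [StandardBorelSpace X] [Nonempty X] [StandardBorelSpace Z] [MeasurableSpace Z] in
/-- Bounded classes that contain a ball have positive finite leafwise measure. -/
theorem ae_class_pos (h : IsLeafwise μ a R N om X1) {K : Set X} {lab : X → Z} {S : Set X}
    (hS : ∀ᵐ x ∂μ, x ∈ S)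
    (hbd : ∀ x ∈ S, x ∈ K → ∃ r, ∀ y ∈ S, y ∈ K → lab y = lab x → N x y < r)
    (hin : ∀ x ∈ S, x ∈ K → ∃ r, 0 < r ∧ ∀ y ∈ S, R x y → N x y < r → y ∈ K ∧ lab y = lab x) :
    ∀ᵐ x ∂μ, x ∈ K → om x {y | y ∈ K ∧ lab y = lab x} ≠ 0 ∧
      om x {y | y ∈ K ∧ lab y = lab x} ≠ ∞ := by
  filter_upwards [hS, h.conull, h.ae_ae hS] with x hx hx1 hx2 hxK
  obtain ⟨r, hr⟩ := hbd x hx hxK
  obtain ⟨r', h0, hr'⟩ := hin x hx hxK
  refine ⟨fun h3 => h.pos x hx1 r' h0 (le_antisymm ((measure_mono_ae ?_).trans h3.le) zero_le),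
    ne_top_of_le_ne_top (h.fin x hx1 r) (measure_mono_ae ?_)⟩
  · filter_upwards [hx2, h.carried x hx1] with y hy hy' h4
    exact hr' y hy hy'.2 h4
  · filter_upwards [hx2] with y hy h4
    exact hr y hy h4.1 h4.2

/-- W3 for bounded classes that contain a ball. -/
theorem condDistrib_eq' (h : IsLeafwise μ a R N om X1) {K : Set X} (hK : MeasurableSet K)
    {lab : X → Z} (hl : Measurable lab) {S : Set X} (hS : ∀ᵐ x ∂μ, x ∈ S)
    (hrel : ∀ x ∈ S, ∀ y ∈ S, x ∈ K → y ∈ K → lab x = lab y → R x y)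
    (hbd : ∀ x ∈ S, x ∈ K → ∃ r, ∀ y ∈ S, y ∈ K → lab y = lab x → N x y < r)
    (hin : ∀ x ∈ S, x ∈ K → ∃ r, 0 < r ∧ ∀ y ∈ S, R x y → N x y < r → y ∈ K ∧ lab y = lab x)
    (ν : Measure X) [IsFiniteMeasure ν] {c : ℝ≥0∞} (hν : ν = c • μ.restrict K) :
    ∀ᵐ x ∂ν, condDistrib id lab ν (lab x) = (om x)[|{y | y ∈ K ∧ lab y = lab x}] :=
  h.condDistrib_eq hK hl (S := S ∩ {x | x ∈ K → om x {y | y ∈ K ∧ lab y = lab x} ≠ 0 ∧
      om x {y | y ∈ K ∧ lab y = lab x} ≠ ∞}) (hS.and (h.ae_class_pos hS hbd hin))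
    (fun _ hx => hx.2) (fun x hx y hy => hrel x hx.1 y hy.1) ν hν

end IsLeafwise

end Pool.Agent.P.MP_d483fb_an.Z
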