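import Pool.Agent.P.MP_d483fb_an.Z.LSB.LeafBox
import Pool.Agent.P.MP_d483fb_an.Z.LSB.LeafMtp
import Pool.Agent.P.MP_d483fb_an.Z.LS.Basic
import Pool.Agent.P.MP_d483fb_an.Z.Loop.Defs

/-!
Leafwise measures of a leaf structure.
-/

open scoped Matrix Matrix.Norms.Operator Topology ENNReal
open MeasureTheory ProbabilityTheory Filter Set

noncomputable section

namespace Pool.Agent.P.MP_d483fb_an.Z

namespace Pre

variable {X : Type} [MeasurableSpace X] {μ : Measure X} {ι : Type} [Fintype ι] [DecidableEq ι]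
  {S : Pre X μ ι} {J : Set ℝ}

/-- The good set of a family of leafwise measures can be chosen inside any conull set. -/
theorem Leafwise.shrink (o : S.Leafwise J) {G : Set X} (hG : ∀ᵐ x ∂μ, x ∈ G) :
    ∃ o' : S.Leafwise J, o'.om = o.om ∧ o'.X1 ⊆ o.X1 ∧ o'.X1 ⊆ G := by
  obtain ⟨X2, h1, h2, h3⟩ := o.lw.shrink S.ergodic_aE.toMeasurePreserving hG
  exact ⟨⟨o.om, X2, h3, h1.trans o.sub1⟩, rfl, h1, h2⟩

theorem Leafwise.a_mem (o : S.Leafwise J) (i : ℤ) {x : X} (hx : x ∈ o.X1) : S.a i x ∈ o.X1 := by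
  obtain ⟨k, rfl | rfl⟩ := i.eq_nat_or_neg
  · exact S.aE_iterate k x ▸ (o.lw.iterate_mem k x).2 hx
  · exact S.aE_symm_iterate k x ▸ (o.lw.symm.iterate_mem k x).2 hx

/-- Equivariance under all the powers of the expanding transformation. -/
theorem Leafwise.equiv_a (o : S.Leafwise J) (i : ℤ) {x : X} (hx : x ∈ o.X1) :
    ∃ c : ℝ≥0∞, c ≠ 0 ∧ c ≠ ∞ ∧ o.om (S.a i x) = c • (o.om x).map (S.a i) := by
  obtain ⟨k, rfl | rfl⟩ := i.eq_nat_or_neg
  · have := o.lw.equiv_iterate k hx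
    rwa [funext (S.aE_iterate k)] at this
  · have := o.lw.symm.equiv_iterate k hx
    rwa [funext (S.aE_symm_iterate k)] at this

theorem eventually_mul_exp_lt (A c : ℝ) (hc : 0 < c) {δ : ℝ} (hδ : 0 < δ) :
    ∀ᶠ k : ℕ in atTop, A * Real.exp (-(k * c)) < δ := by
  have h := (Real.tendsto_exp_neg_atTop_nhds_zero.comp
    (tendsto_natCast_atTop_atTop.atTop_mul_const hc)).const_mul A
  rw [mul_zero] at h
  exact h.eventually (gt_mem_nhds hδ)

variable {ε : ℝ} {q : X → ℝ}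

/-- Bounded pieces of leaves shrink in the past. -/
theorem Temp.eventually_back (hq : S.Temp ε q) (hε : 0 ≤ ε) (hε' : S.w.C * ε ≤ 1 / 2) (x : X)
    (r : ℝ) {δ : ℝ} (hδ : 0 < δ) : ∀ᶠ k : ℕ in atTop, ∀ y, S.R x y → S.N x y ≤ r →
      S.N (S.a (-k) x) (S.a (-k) y) < δ := by
  filter_upwards [eventually_mul_exp_lt (S.w.C * q x ^ S.w.C * r) (1 / 2) one_half_pos hδ]
    with k hk y h1 h2
  refine (hq.N_back_le hε hε' h1 k).trans_lt (lt_of_le_of_lt ?_ hk)
  have hC := S.w.C_pos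
  have hx := hq.pos x
  rw [mul_right_comm, mul_one_div]
  gcongr

/-- Points that are at bounded distance in the far future are close. -/
theorem Temp.eventually_fwd (hq : S.Temp ε q) (hε : 0 ≤ ε) (hε' : S.w.C * ε ≤ 1 / 4) (x : X)
    (r : ℝ) {δ : ℝ} (hδ : 0 < δ) : ∀ᶠ k : ℕ in atTop, ∀ y, S.R x y →
      S.N (S.a k x) (S.a k y) ≤ r → S.N x y < δ := by
  filter_upwards [eventually_mul_exp_lt (S.w.C * q x ^ S.w.C * r) (1 / 4) (by norm_num) hδ]
    with k hk y h1 h2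
  have h3 := hq.N_back_le hε (by linarith) (R_a h1 k) k
  rw [a_neg_a, a_neg_a] at h3
  refine h3.trans_lt (lt_of_le_of_lt ?_ hk)
  have hC := S.w.C_pos
  have hx := hq.pos x
  have hx' := hq.pos (S.a k x)
  have h4 := hq.slow x (R_mem_left h1) k
  have hN := S.N_nonneg (S.a k x) (S.a k y)
  have hk0 : (0 : ℝ) ≤ k := Nat.cast_nonneg k
  have h5 : q (S.a k x) ^ S.w.C ≤ q x ^ S.w.C * Real.exp (k * (1 / 4)) := by
    refine (Real.rpow_le_rpow hx'.le h4 hC.le).trans ?_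
    rw [Real.mul_rpow hx.le (Real.exp_pos _).le, ← Real.exp_mul, Int.cast_natCast, Nat.abs_cast]
    exact mul_le_mul_of_nonneg_left (Real.exp_le_exp.2 (by nlinarith))
      (Real.rpow_nonneg hx.le _)
  calc _ ≤ S.w.C * (q x ^ S.w.C * Real.exp (k * (1 / 4))) * Real.exp (-(k / 2)) * r := by gcongr
    _ = S.w.C * q x ^ S.w.C * r * (Real.exp (k * (1 / 4)) * Real.exp (-(k / 2))) := by ring
    _ = _ := by
      rw [← Real.exp_add]
      congr 2
      ring

/-- Two points in the unit ball of the same chart are at bounded distance. -/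
theorem N_le_of_ref {z x y : X} (hx : S.R z x) (hy : S.R z y) (h1 : S.N z x ≤ 1)
    (h2 : S.N z y ≤ 1) :
    S.N x y ≤ S.w.C * (1 + ‖S.l x z‖ + ‖S.l z x‖) ^ S.w.C * (S.w.C * S.w.C) := by
  have hC := S.w.one_le_C
  have n1 := norm_nonneg (S.l x z)
  have n2 := norm_nonneg (S.l z x)
  have hi := (n_nil hx).inv ordConnected_univ
  rw [N, n_eq_conj hx (S.R_trans _ _ _ (S.R_symm _ _ hx) hy)]
  refine ((hi.mul ordConnected_univ (n_nil hy)).N_conj_le (S.l_lev _ _) (S.l_lev _ _)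
    (B := 1 + ‖S.l x z‖ + ‖S.l z x‖) (by linarith) (by linarith) (by linarith)).trans ?_
  refine mul_le_mul_of_nonneg_left (hi.N_mul_le (n_nil hy) ((n_nil hx).N_inv_le.trans ?_)
    (h2.trans hC)) (by positivity)
  exact mul_le_of_le_one_right (by linarith) h1

end Pre

variable {X : Type} [MeasurableSpace X] [StandardBorelSpace X] {μ : Measure X}
  [IsProbabilityMeasure μ] {ι : Type} [Fintype ι] [DecidableEq ι]

/-- Leafwise measures from an increasing partition. -/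
theorem LS.leafwise_of_box (S : LS X μ ι) {J : Set ℝ} (hJ : J.OrdConnected) {M : Type*}
    {s al : X → X → M} {K : Set X} {zeta : X → BoxLab X} {d : X → ℕ} {del : X → ℝ} {Y : Set X}
    (hb : Box μ S.aE S.X0 (S.RJ J) S.N s al K zeta d del Y) : Nonempty (S.Leafwise J) := by
  have : Nonempty X := nonempty_of_isProbabilityMeasure μ
  have hC := S.w.C_pos
  obtain ⟨q, hq, -⟩ := S.temp (1 / 4 / S.w.C) (by positivity)
  have h0 : 0 ≤ 1 / 4 / S.w.C := by positivity
  have h1 : S.w.C * (1 / 4 / S.w.C) ≤ 1 / 4 := le_of_eq (by field_simp)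
  have hz : Measurable fun x => (zeta x).1 := measurable_fst.comp hb.measZeta
  have hn : Measurable fun A : Matrix ι ι ℝ => ‖A‖ :=
    (show Continuous fun A : Matrix ι ι ℝ => ‖A‖ from continuous_norm).measurable
  obtain ⟨Y', hY'⟩ := hb.exists_nest S.ergodic_aE S.measurable_N (fun x y => Pre.RJ.symm hJ)
    (fun x y z => Pre.RJ.trans hJ) (fun x y h => h.f _) (fun x y h => h.f _)
    (Bd := fun x => S.w.C * (1 + ‖S.l x (zeta x).1‖ + ‖S.l (zeta x).1 x‖) ^ S.w.C *
      (S.w.C * S.w.C))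
    ((((((hn.comp (Pre.measurable_l_comp measurable_id hz)).const_add 1).add
      (hn.comp (Pre.measurable_l_comp hz measurable_id))).pow_const _).const_mul _).mul_const _)
    (fun x hx y hy e => Pre.N_le_of_ref (hb.ref x hx).2.1.1 (e ▸ (hb.ref y hy).2.1.1)
      (hb.ref x hx).2.2 (e ▸ (hb.ref y hy).2.2))
    (fun x r δ hδ => (hq.eventually_back h0 (by linarith) x r hδ).mono fun k hk y r1 r2 => by
      rw [Pre.aE_symm_iterate, Pre.aE_symm_iterate]
      exact hk y r1.1 r2.le)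
    (fun x r δ hδ => (hq.eventually_fwd h0 h1 x r hδ).mono fun k hk y r1 r2 => by
      rw [Pre.aE_iterate, Pre.aE_iterate] at r2
      exact hk y r1.1 r2)
  obtain ⟨om, X1, -, h⟩ := hY'.exists_leafwise
  obtain ⟨X2, -, h2, h3⟩ := h.shrink S.ergodic_aE.toMeasurePreserving S.ae0
  exact ⟨⟨om, X2, h3, h2⟩⟩

/-- Leafwise measures for all intervals of slopes, from the existence of rectangle partitions. -/
theorem LS.hasLW_of_box (S : LS X μ ι) (hbox : ∀ (J : Set ℝ) (χ : ℝ), J.OrdConnected →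
    Wt.Extreme J χ → ∃ K zeta d del Y, Box μ S.aE S.X0 (S.RJ J) S.N
      (fun w y => S.w.pr χ (S.n w y)) (fun w y => S.w.al χ (S.n w y)) K zeta d del Y) :
    S.HasLW := by
  intro J hJ
  obtain ⟨χ, hχ⟩ := (Finite.bddBelow_range fun p : ι × ι => S.w.slope p.1 p.2)
  have e : S.RJ (J ∩ Ici χ) = S.RJ J := by
    funext x y
    refine propext ⟨fun h => h.mono inter_subset_left, fun h => ⟨h.1, fun i j hij => ?_⟩⟩
    exact ⟨(h.2 i j hij).1, (h.2 i j hij).2, hχ ⟨(i, j), rfl⟩⟩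
  obtain ⟨K, zeta, d, del, Y, hb⟩ := hbox (J ∩ Ici χ) χ (hJ.inter ordConnected_Ici)
    (Or.inl fun σ hσ => hσ.2)
  rw [e] at hb
  exact S.leafwise_of_box hJ hb

end Pool.Agent.P.MP_d483fb_an.Z
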