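import Pool.Agent.P.MP_d483fb_an.Z.Ent.Defs
import Pool.Agent.P.MP_d483fb_an.Z.Ent.Sel

/-!
Three generic facts: a measurable choice for a relation with unique values, generic radii, and
finite entropy of a digit with exponentially many values at an integrable level.
-/

namespace Pool.Agent.P.MP_d483fb_an.Z

open MeasureTheory ProbabilityTheory Set Filter
open scoped ENNReal

variable {X : Type*} [MeasurableSpace X]

theorem exists_meas_unique [StandardBorelSpace X] [Nonempty X] {G : Set (X × X)}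
    (hG : MeasurableSet G) (h : ∀ w z z', (w, z) ∈ G → (w, z') ∈ G → z = z') :
    ∃ zp : X → X, Measurable zp ∧ ∀ w z, (w, z) ∈ G → zp w = z := by
  obtain ⟨φ, hφ, h1⟩ := exists_factor (f := Prod.fst) (g := Prod.snd) measurable_fst
    measurable_snd hG (fun x hx y hy hxy => h x.1 x.2 y.2 hx (by rw [hxy]; exact hy))
  exact ⟨φ, hφ, fun w z hw => (h1 (w, z) hw).symm⟩

theorem lintegral_strip (μ : Measure X) [IsFiniteMeasure μ] {f : X → ℝ} (hf : Measurable f)
    (t : ℝ) : ∫⁻ r : ℝ, μ {x | |f x - r| ≤ t} = ENNReal.ofReal (2 * t) * μ univ := by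
  have hm : MeasurableSet {p : ℝ × X | |f p.2 - p.1| ≤ t} :=
    measurableSet_le (by fun_prop) measurable_const
  have h1 := Measure.prod_apply (μ := (volume : Measure ℝ)) (ν := μ) hm
  have h2 := Measure.prod_apply_symm (μ := (volume : Measure ℝ)) (ν := μ) hm
  have h3 : ∀ x, (volume : Measure ℝ) ((fun r => (r, x)) ⁻¹' {p : ℝ × X | |f p.2 - p.1| ≤ t}) =
      ENNReal.ofReal (2 * t) := fun x => by
    have : (fun r => (r, x)) ⁻¹' {p : ℝ × X | |f p.2 - p.1| ≤ t} = Icc (f x - t) (f x + t) := by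
      ext r
      simp only [mem_preimage, mem_ofPred_eq, mem_Icc, abs_le]
      constructor <;> rintro ⟨h1, h2⟩ <;> constructor <;> linarith
    rw [this, Real.volume_Icc]
    congr 1
    ring
  simp only [h3, lintegral_const] at h2
  rw [← h2, h1]
  rfl

theorem exists_radius (μ : Measure X) [IsFiniteMeasure μ] {f₁ f₂ : X → ℝ} (h₁ : Measurable f₁)
    (h₂ : Measurable f₂) {D σ r0 : ℝ} (hD : 0 ≤ D) (hσ0 : 0 ≤ σ) (hσ1 : σ < 1) (hr : 0 < r0) :
    ∃ r, r0 < r ∧ r < 2 * r0 ∧ ∑' k : ℕ, ((k : ℝ≥0∞) + 1) *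
      μ {x | |f₁ x - r| ≤ D * σ ^ k ∨ |f₂ x - r| ≤ D * σ ^ k} ≠ ∞ := by
  have hm : ∀ {f : X → ℝ}, Measurable f → ∀ t : ℝ,
      Measurable fun r : ℝ => μ {x | |f x - r| ≤ t} := fun {f} hf t =>
    measurable_measure_prodMk_left (ν := μ) (s := {p : ℝ × X | |f p.2 - p.1| ≤ t})
      (measurableSet_le (by fun_prop) measurable_const)
  set G : ℝ → ℝ≥0∞ := fun r => ∑' k : ℕ, ((k : ℝ≥0∞) + 1) *
    (μ {x | |f₁ x - r| ≤ D * σ ^ k} + μ {x | |f₂ x - r| ≤ D * σ ^ k}) with hG
  have hmk : ∀ k : ℕ, Measurable fun r : ℝ => ((k : ℝ≥0∞) + 1) *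
      (μ {x | |f₁ x - r| ≤ D * σ ^ k} + μ {x | |f₂ x - r| ≤ D * σ ^ k}) := fun k =>
    ((hm h₁ _).add (hm h₂ _)).const_mul _
  have hs : Summable fun k : ℕ => ((k : ℝ) + 1) * (2 * (D * σ ^ k)) := by
    have a1 := summable_pow_mul_geometric_of_norm_lt_one (R := ℝ) 1
      (r := σ) (by rwa [Real.norm_eq_abs, abs_of_nonneg hσ0])
    have a2 := summable_geometric_of_lt_one hσ0 hσ1
    refine ((a1.add a2).mul_left (2 * D)).congr fun k => ?_
    ring
  have hI : ∫⁻ r, G r ≠ ∞ := by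
    rw [hG, lintegral_tsum fun k => (hmk k).aemeasurable]
    have e : ∀ k : ℕ, ∫⁻ r : ℝ, ((k : ℝ≥0∞) + 1) *
        (μ {x | |f₁ x - r| ≤ D * σ ^ k} + μ {x | |f₂ x - r| ≤ D * σ ^ k}) =
        ENNReal.ofReal (((k : ℝ) + 1) * (2 * (D * σ ^ k))) * (2 * μ univ) := fun k => by
      rw [lintegral_const_mul (f := fun r : ℝ => μ {x | |f₁ x - r| ≤ D * σ ^ k} +
        μ {x | |f₂ x - r| ≤ D * σ ^ k}) _ ((hm h₁ _).add (hm h₂ _)), lintegral_add_left (hm h₁ _),
        lintegral_strip μ h₁, lintegral_strip μ h₂,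
        ENNReal.ofReal_mul (p := (k : ℝ) + 1) (by positivity),
        ENNReal.ofReal_add (by positivity) zero_le_one, ENNReal.ofReal_natCast, ENNReal.ofReal_one]
      ring
    simp only [e]
    rw [ENNReal.tsum_mul_right, ← ENNReal.ofReal_tsum_of_nonneg (fun k => by positivity) hs]
    exact ENNReal.mul_ne_top ENNReal.ofReal_ne_top
      (ENNReal.mul_ne_top ENNReal.ofNat_ne_top (measure_ne_top _ _))
  have hae := ae_lt_top (Measurable.tsum hmk) hI
  have h0 : (volume : Measure ℝ) (Ioo r0 (2 * r0)) ≠ 0 := by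
    rw [Real.volume_Ioo]
    exact (ENNReal.ofReal_pos.2 (by linarith)).ne'
  obtain ⟨r, hr1, hr2⟩ := Measure.exists_mem_of_measure_ne_zero_of_ae h0 (ae_restrict_of_ae hae)
  refine ⟨r, hr1.1, hr1.2, ne_top_of_le_ne_top hr2.ne (ENNReal.tsum_le_tsum fun k => ?_)⟩
  gcongr
  exact measure_union_le (μ := μ) {x | |f₁ x - r| ≤ D * σ ^ k} {x | |f₂ x - r| ≤ D * σ ^ k}

theorem lintegral_inv_atom (ν : Measure X) [IsFiniteMeasure ν] {d : X → ℕ} (hd : Measurable d)
    (W : Finset ℕ) :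
    ∫⁻ x, {x | d x ∈ W}.indicator (fun x => (ν {y | d y = d x})⁻¹) x ∂ν ≤ W.card := by
  have e : ∀ x, {x | d x ∈ W}.indicator (fun x => (ν {y | d y = d x})⁻¹) x =
      ∑ i ∈ W, (d ⁻¹' {i}).indicator (fun _ => (ν (d ⁻¹' {i}))⁻¹) x := fun x => by
    by_cases hx : d x ∈ W
    · rw [indicator_of_mem (show x ∈ {x | d x ∈ W} from hx), Finset.sum_eq_single (d x)
        (fun i _ hi => indicator_of_notMem (s := d ⁻¹' {i}) (fun h => hi (Eq.symm h)) _)
        (fun h => absurd hx h),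
        indicator_of_mem (show x ∈ d ⁻¹' {d x} from rfl)]
      rfl
    · rw [indicator_of_notMem (show x ∉ {x | d x ∈ W} from hx), Finset.sum_eq_zero]
      exact fun i hi => indicator_of_notMem (fun h => hx (by rw [show d x = i from h]; exact hi)) _
  simp only [e]
  rw [lintegral_finsetSum _ fun i _ =>
    measurable_const.indicator (hd (measurableSet_singleton i)), Finset.card_eq_sum_ones]
  push_cast
  refine Finset.sum_le_sum fun i _ => ?_
  rw [lintegral_indicator_const (hd (measurableSet_singleton i))]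
  exact ENNReal.inv_mul_le_one _

/-- A digit with at most `exp (C (n + 1))` values at level `n` has finite entropy when the level
is integrable. -/
theorem finEnt_of_level (ν : Measure X) [IsProbabilityMeasure ν] {d lv : X → ℕ} (hd : Measurable d)
    (hlv : Measurable lv) (hI : ∫⁻ x, (lv x : ℝ≥0∞) ∂ν ≠ ∞) {W : ℕ → Finset ℕ} {C : ℝ}
    (hW : ∀ᵐ x ∂ν, d x ∈ W (lv x)) (hC : ∀ n, ((W n).card : ℝ) ≤ Real.exp (C * (n + 1))) :
    Ent.FinEnt ν d := by
  have hm : Measurable (Ent.I0 ν d) :=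
    (measurable_from_top (f := fun i : ℕ => -Real.log (ν.real {y | d y = i}))).comp hd
  have h0 : ∀ x, 0 ≤ Ent.I0 ν d x := fun x =>
    neg_nonneg.2 (Real.log_nonpos measureReal_nonneg measureReal_le_one)
  refine ⟨hm.aestronglyMeasurable, ?_⟩
  rw [hasFiniteIntegral_iff_ofReal (ae_of_all _ h0)]
  set g : ℕ → X → ℝ≥0∞ := fun n x => ENNReal.ofReal (Real.exp (-((|C| + 1) * (n + 1)))) *
    {x | d x ∈ W n}.indicator (fun x => (ν {y | d y = d x})⁻¹) x with hg
  have hmi : ∀ n, Measurable fun x =>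
      {x | d x ∈ W n}.indicator (fun x => (ν {y | d y = d x})⁻¹) x := fun n =>
    ((measurable_from_top (f := fun i : ℕ => (ν {y | d y = i})⁻¹)).comp hd).indicator
      (hd (MeasurableSet.of_discrete (s := {i | i ∈ W n})))
  have h1 : ∀ᵐ x ∂ν, ENNReal.ofReal (Ent.I0 ν d x) ≤
      ENNReal.ofReal (|C| + 1) * ((lv x : ℝ≥0∞) + 1) + ∑' n, g n x := by
    filter_upwards [hW] with x hx
    refine le_trans ?_ (add_le_add_right (ENNReal.le_tsum (lv x)) _)
    by_cases hp : ν {y | d y = d x} = 0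
    · simp [Ent.I0, Measure.real, hp]
    have hp' : 0 < ν.real {y | d y = d x} := ENNReal.toReal_pos hp (measure_ne_top _ _)
    have e1 : g (lv x) x = ENNReal.ofReal (Real.exp (-((|C| + 1) * (lv x + 1))) *
        (ν.real {y | d y = d x})⁻¹) := by
      rw [hg]
      dsimp only
      rw [indicator_of_mem (show x ∈ {y | d y ∈ W (lv x)} from hx),
        ENNReal.ofReal_mul (Real.exp_pos _).le, ENNReal.ofReal_inv_of_pos hp', ofReal_measureReal]
    have e2 : ENNReal.ofReal (|C| + 1) * ((lv x : ℝ≥0∞) + 1) =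
        ENNReal.ofReal ((|C| + 1) * (lv x + 1)) := by
      rw [ENNReal.ofReal_mul (by positivity), ENNReal.ofReal_add (p := (lv x : ℝ)) (by positivity)
        zero_le_one, ENNReal.ofReal_natCast, ENNReal.ofReal_one]
    rw [e1, e2, ← ENNReal.ofReal_add (by positivity) (by positivity)]
    refine ENNReal.ofReal_le_ofReal ?_
    have h2 := Real.log_le_sub_one_of_pos (mul_pos (Real.exp_pos (-((|C| + 1) * (lv x + 1))))
      (inv_pos.2 hp'))
    rw [Real.log_mul (Real.exp_pos _).ne' (inv_pos.2 hp').ne', Real.log_exp, Real.log_inv] at h2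
    unfold Ent.I0
    linarith
  refine (lintegral_mono_ae h1).trans_lt ?_
  have hml : Measurable fun x => (lv x : ℝ≥0∞) :=
    (measurable_from_top (f := fun i : ℕ => (i : ℝ≥0∞))).comp hlv
  rw [lintegral_add_left ((hml.add_const _).const_mul _), lintegral_const_mul _ (hml.add_const _),
    lintegral_add_left hml, lintegral_tsum fun n => ((hmi n).const_mul _).aemeasurable]
  refine ENNReal.add_lt_top.2 ⟨ENNReal.mul_lt_top ENNReal.ofReal_lt_top
    (ENNReal.add_lt_top.2 ⟨hI.lt_top, by simp⟩), ?_⟩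
  have hs : Summable fun n : ℕ => Real.exp (-1) ^ n :=
    summable_geometric_of_lt_one (Real.exp_pos _).le (Real.exp_lt_one_iff.2 (by norm_num))
  refine lt_of_le_of_lt (ENNReal.tsum_le_tsum (g := fun n => ENNReal.ofReal (Real.exp (-1) ^ n))
    fun n => ?_) ?_
  · rw [lintegral_const_mul _ (hmi n)]
    refine (mul_le_mul_right (lintegral_inv_atom ν hd (W n)) _).trans ?_
    rw [← ENNReal.ofReal_natCast, ← ENNReal.ofReal_mul (Real.exp_pos _).le]
    refine ENNReal.ofReal_le_ofReal ((mul_le_mul_of_nonneg_left (hC n) (Real.exp_pos _).le).trans ?_)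
    rw [← Real.exp_add, ← Real.exp_nat_mul]
    refine Real.exp_le_exp.2 ?_
    have : C * (n + 1) ≤ |C| * (n + 1) := by gcongr; exact le_abs_self C
    nlinarith
  · rw [← ENNReal.ofReal_tsum_of_nonneg (fun n => by positivity) hs]
    exact ENNReal.ofReal_lt_top

end Pool.Agent.P.MP_d483fb_an.Z
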