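import Pool.Agent.P.MP_d483fb_an.Z.Erg.Kac
import Pool.Agent.P.MP_d483fb_an.Z.Ent.Defs

/-!
The increasing rectangle partition (`Box`) and the abstract input of its construction (`BoxPre`).
-/

namespace Pool.Agent.P.MP_d483fb_an.Z

open MeasureTheory ProbabilityTheory Set
open scoped ENNReal

variable {X M : Type*} [MeasurableSpace X]

/-- The values of the label of the rectangle partition: a reference point and bits. -/
abbrev BoxLab (X : Type*) : Type _ := X × (ℕ → Bool × Bool)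

/-- An increasing rectangle partition of `K` for the first return map of `a` to `K`.  The label is
`zeta`, the reference point of `x` is `(zeta x).1`, the digit is `d`, the inner radius is `del`;
`s w y` and `al w y` are the two coordinates of the point `y` in the chart at `w`.  The pointwise
properties hold on the measurable set `Y`, which is almost all of `K`. -/
structure Box (μ : Measure X) (a : X ≃ᵐ X) (X0 : Set X) (R : X → X → Prop) (N : X → X → ℝ)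
    (s al : X → X → M) (K : Set X) (zeta : X → BoxLab X) (d : X → ℕ) (del : X → ℝ) (Y : Set X) :
    Prop where
  measK : MeasurableSet K
  posK : μ K ≠ 0
  measZeta : Measurable zeta
  measD : Measurable d
  measDel : Measurable del
  measY : MeasurableSet Y
  subK : Y ⊆ K
  sub0 : K ⊆ X0
  aeY : ∀ᵐ x ∂μ, x ∈ K → x ∈ Y
  fwd : ∀ x ∈ Y, 0 < retTime a K x ∧ firstRet a K x ∈ Y
  bwd : ∀ x ∈ Y, 0 < retTime a.symm K x ∧ firstRet a.symm K x ∈ Y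
  ent : Ent.FinEnt (μ[|K]) d
  tau : ∀ x y, d x = d y → retTime a K x = retTime a K y
  inc : ∀ x ∈ Y, ∀ y ∈ Y,
    zeta (firstRet a K x) = zeta (firstRet a K y) ↔ zeta x = zeta y ∧ d x = d y
  back : ∀ x ∈ K, ∀ y ∈ K, zeta x = zeta y → ∀ j : ℕ, a.symm^[j] x ∈ K →
    a.symm^[j] y ∈ K ∧ zeta (a.symm^[j] x) = zeta (a.symm^[j] y)
  ref : ∀ x ∈ K, (zeta x).1 ∈ X0 ∧ R (zeta x).1 x ∧ N (zeta x).1 x ≤ 1
  rect : ∀ n : ℕ, ∀ y₁ ∈ Y, ∀ y₂ ∈ Y, ∀ y₁' ∈ Y, ∀ y₂' ∈ Y, zeta y₁ = zeta y₂ → zeta y₁ = zeta y₁' →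
    zeta y₁ = zeta y₂' →
    Ent.names (firstRet a K) d n y₁ = Ent.names (firstRet a K) d n y₂ →
    Ent.names (firstRet a K) d n y₁' = Ent.names (firstRet a K) d n y₂' →
    s (zeta y₁).1 y₁ = s (zeta y₁').1 y₁' → al (zeta y₂).1 y₂ = al (zeta y₂').1 y₂' →
    Ent.names (firstRet a K) d n y₁ = Ent.names (firstRet a K) d n y₁'
  inner : ∀ x ∈ Y, 0 < del x ∧ ∀ y, R x y → N x y < del x → y ∈ K ∧ zeta y = zeta x

/-- The input of the construction of a `Box`.  `Z0` is the set of reference points, `F1`, `F2` are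
the sizes of the two coordinates, `E1`, `E2` say that two points have the same coordinate. -/
structure BoxPre (μ : Measure X) (a : X ≃ᵐ X) (X0 : Set X) (R : X → X → Prop) (N F1 F2 : X → X → ℝ)
    (s al : X → X → M) (E1 E2 : X → X → Prop) (Z0 : Set X) (ρ c r0 η σ : ℝ) : Prop where
  erg : Ergodic a μ
  measR : MeasurableSet {p : X × X | R p.1 p.2}
  measN : Measurable fun p : X × X => N p.1 p.2
  measF1 : Measurable fun p : X × X => F1 p.1 p.2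
  measF2 : Measurable fun p : X × X => F2 p.1 p.2
  measZ : MeasurableSet Z0
  mem0 : ∀ x y, R x y → x ∈ X0 ∧ y ∈ X0
  refl : ∀ x ∈ X0, R x x
  symm : ∀ x y, R x y → R y x
  trans : ∀ x y z, R x y → R y z → R x z
  relA : ∀ x y, R x y → R (a x) (a y)
  relB : ∀ x y, R x y → R (a.symm x) (a.symm y)
  hr0 : 0 < r0
  hc0 : 0 < c
  hc : c ≤ ρ / 4
  hρ : ρ ≤ 1
  hσ0 : 0 < σ
  hσ1 : σ < 1
  hη0 : 0 ≤ η
  hη : η ≤ ρ / 4 * (1 - σ)
  self : ∀ x ∈ X0, N x x = 0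
  uniq : ∀ z ∈ Z0, ∀ z' ∈ Z0, ∀ w, R z w → R z' w → N z w < ρ → N z' w < ρ → z = z'
  ball : ∀ z w, R z w → F1 z w < 2 * r0 → F2 z w < 2 * r0 → N z w < c
  far : ∀ z ∈ Z0, ∀ z' ∈ Z0, ∀ (j : ℕ) (y₁ y₂ : X), R z (a.symm^[j] z') → R z' y₁ → R z' y₂ →
    F1 z' y₁ < 2 * r0 → F2 z' y₁ < 2 * r0 → F1 z' y₂ < 2 * r0 → F2 z' y₂ < 2 * r0 →
    F1 z (a.symm^[j] y₁) < 2 * r0 → F2 z (a.symm^[j] y₂) < 2 * r0 → N z (a.symm^[j] z') < c
  pert : ∀ z' ∈ Z0, ∀ z ∈ Z0, ∀ (k : ℕ) (y : X), R z' (a.symm^[k] z) → N z' (a.symm^[k] z) < ρ →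
    R z y → N z y < c →
    |N z' (a.symm^[k] y) - N z' (a.symm^[k] z)| ≤ η * σ ^ k ∧
    |F1 z' (a.symm^[k] y) - F1 z' (a.symm^[k] z)| ≤ η * σ ^ k ∧
    |F2 z' (a.symm^[k] y) - F2 z' (a.symm^[k] z)| ≤ η * σ ^ k
  inn : ∃ δ : ℕ → X → ℝ, (∀ j, Measurable (δ j)) ∧ (∀ j, ∀ x ∈ X0, 0 < δ j x) ∧
    ∀ z' ∈ Z0, ∀ z ∈ Z0, ∀ (j k : ℕ) (x y : X), R z' (a.symm^[k] z) → N z' (a.symm^[k] z) < ρ →
      R z x → N z' (a.symm^[k] x) < ρ → N z x < ρ → R x y → N x y < δ j x →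
      |F1 z' (a.symm^[k] y) - F1 z' (a.symm^[k] x)| ≤ σ ^ k / (j + 1) ∧
      |F2 z' (a.symm^[k] y) - F2 z' (a.symm^[k] x)| ≤ σ ^ k / (j + 1)
  e1s : ∀ z y y', R z y → R z y' → s z y = s z y' → E1 y y'
  e2s : ∀ z y y', R z y → R z y' → al z y = al z y' → E2 y y'
  e1A : ∀ y y', E1 y y' → E1 (a y) (a y')
  e2A : ∀ y y', E2 y y' → E2 (a y) (a y')
  e1B : ∀ y y', E1 y y' → E1 (a.symm y) (a.symm y')
  e2B : ∀ y y', E2 y y' → E2 (a.symm y) (a.symm y')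
  e1F : ∀ y y', E1 y y' → R y y' ∧ ∀ w, R w y → F1 w y = F1 w y'
  e2F : ∀ y y', E2 y y' → R y y' ∧ ∀ w, R w y → F2 w y = F2 w y'
  cel : ∃ (cel : ℕ → X → X → ℕ) (S : ℕ → Finset ℕ) (C : ℝ),
    (∀ t, Measurable fun p : X × X => cel t p.1 p.2) ∧
    (∀ t, ((S t).card : ℝ) ≤ Real.exp (C * (t + 1))) ∧
    (∀ t z z', R z (a.symm^[t] z') → N z (a.symm^[t] z') < ρ → cel t z z' ∈ S t) ∧
    ∀ t, ∀ z ∈ Z0, ∀ z' ∈ Z0, ∀ z'' ∈ Z0, R z (a.symm^[t] z') → N z (a.symm^[t] z') < ρ →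
      R z (a.symm^[t] z'') → N z (a.symm^[t] z'') < ρ → cel t z z' = cel t z z'' → z' = z''
  pos : μ {y | ∃ z ∈ Z0, R z y ∧ F1 z y < r0 ∧ F2 z y < r0} ≠ 0

end Pool.Agent.P.MP_d483fb_an.Z
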