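import Pool.Agent.P.MP_d483fb_an.Z.LSB.BoxMain

/-!
Existence of the increasing rectangle partition.
-/

namespace Pool.Agent.P.MP_d483fb_an.Z

open MeasureTheory ProbabilityTheory Set Filter
open scoped ENNReal

variable {X M : Type*} [MeasurableSpace X]

namespace BD.Good

variable {D : BD X} {μ : Measure X} {X0 : Set X} {s al : X → X → M} {E1 E2 : X → X → Prop}
  {c r0 : ℝ} (h : D.Good μ X0 s al E1 E2 c r0)
include h

theorem rect_names {d : X → ℕ} {Y : Set X} (hY : Y ⊆ D.K)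
    (hf : ∀ x ∈ Y, 0 < retTime D.a D.K x ∧ firstRet D.a D.K x ∈ Y)
    (hi : ∀ x ∈ Y, ∀ y ∈ Y, D.zeta (firstRet D.a D.K x) = D.zeta (firstRet D.a D.K y) ↔
      D.zeta x = D.zeta y ∧ d x = d y) (n : ℕ) :
    ∀ y₁ ∈ Y, ∀ y₂ ∈ Y, ∀ u₁ ∈ Y, ∀ u₂ ∈ Y, D.zeta y₁ = D.zeta y₂ → D.zeta u₁ = D.zeta u₂ →
      (∀ i < n, d ((firstRet D.a D.K)^[i] y₁) = d ((firstRet D.a D.K)^[i] y₂)) →
      (∀ i < n, d ((firstRet D.a D.K)^[i] u₁) = d ((firstRet D.a D.K)^[i] u₂)) →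
      E1 y₁ u₁ → E2 y₂ u₂ →
      ∀ i < n, d ((firstRet D.a D.K)^[i] y₁) = d ((firstRet D.a D.K)^[i] u₁) := by
  induction n with
  | zero => exact fun _ _ _ _ _ _ _ _ _ _ _ _ _ _ i hi => absurd hi (Nat.not_lt_zero i)
  | succ n ih =>
    intro y₁ h₁ y₂ h₂ u₁ k₁ u₂ k₂ e e' a a' g₁ g₂ i hi'
    have b := (hi _ h₁ _ h₂).2 ⟨e, a 0 n.succ_pos⟩
    have b' := (hi _ k₁ _ k₂).2 ⟨e', a' 0 n.succ_pos⟩
    obtain ⟨c1, c2, c3⟩ := h.rect_one (hY h₁) (hY h₂) (hY k₁) (hY k₂) (hf _ h₁).1 (hf _ h₂).1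
      (hf _ k₁).1 (hf _ k₂).1 b b' g₁ g₂
    cases i with
    | zero => exact ((hi _ h₁ _ k₁).1 c1).2
    | succ i =>
      exact ih _ (hf _ h₁).2 _ (hf _ h₂).2 _ (hf _ k₁).2 _ (hf _ k₂).2 b b'
        (fun j hj => a (j + 1) (by omega)) (fun j hj => a' (j + 1) (by omega)) c2 c3 i (by omega)

theorem box [IsProbabilityMeasure μ]
    (hs : ∑' k : ℕ, ((k : ℝ≥0∞) + 1) * μ (D.Bad ((2 * D.η + 1) * D.σ ^ k)) ≠ ∞) :
    ∃ d del Y, Box μ D.a X0 D.R D.N s al D.K D.zeta d del Y := by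
  obtain ⟨δ, hδ1, hδ2, hδ3⟩ := h.inn
  obtain ⟨cel, S, C, hc1, hc2, hc3, hc4⟩ := h.cel
  have ha := h.erg.toMeasurePreserving
  have hb : MeasurePreserving D.a.symm μ μ := ha.symm D.a
  have hK := h.measK
  have hK0 : μ D.K ≠ 0 := fun h0 => h.pos (measure_mono_null
    (fun y ⟨z, h1, h2, h3, h4⟩ => (h.memK h1 h2 (h3.trans h.hr1) (h4.trans h.hr1)).1) h0)
  have hM : ∫⁻ x in D.K, D.Mz (D.zp x) ∂μ ≠ ∞ := ne_top_of_le_ne_top hs h.lintegral_Mz
  have mM : Measurable fun x => D.Mz (D.zp x) := h.measMz.comp h.measZp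
  have mG : MeasurableSet {x | (∃ j, x ∈ D.Away j) ∧ (x ∈ D.K → D.Mz (D.zp x) ≠ ∞ ∧
      0 < retTime D.a D.K x ∧ 0 < retTime D.a.symm D.K x)} := by
    refine measurableSet_setOfPred.2 (Measurable.and
      (Measurable.exists fun j => measurableSet_setOfPred.1 (h.measAway j))
      (Measurable.imp (measurableSet_setOfPred.1 hK) (Measurable.and ?_ (Measurable.and ?_ ?_))))
    · exact measurableSet_setOfPred.1 (mM (measurableSet_singleton ∞).compl)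
    · exact measurableSet_setOfPred.1
        (measurableSet_lt measurable_const (measurable_retTime ha.measurable hK))
    · exact measurableSet_setOfPred.1
        (measurableSet_lt measurable_const (measurable_retTime hb.measurable hK))
  obtain ⟨V, hV1, hV2, hV3, hV4⟩ := exists_box_conull ha mG (by
    filter_upwards [h.ae_away hs, (ae_restrict_iff' hK).1 (ae_lt_top mM hM),
      (ae_restrict_iff' hK).1 (ae_retTime_pos ha hK),
      (ae_restrict_iff' hK).1 (ae_retTime_pos hb hK)] with x h1 h2 h3 h4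
    exact ⟨h1, fun hx => ⟨(h2 hx).ne, h3 hx, h4 hx⟩⟩)
  have hf : ∀ x ∈ D.K ∩ V, 0 < retTime D.a D.K x ∧ firstRet D.a D.K x ∈ D.K ∩ V := fun x hx =>
    have h1 := ((hV3 hx.2).2 hx.1).2.1
    ⟨h1, firstRet_mem h1, (hV4 x hx.2 _).1⟩
  have hi : ∀ x ∈ D.K ∩ V, ∀ y ∈ D.K ∩ V,
      D.zeta (firstRet D.a D.K x) = D.zeta (firstRet D.a D.K y) ↔
        D.zeta x = D.zeta y ∧ D.dig cel x = D.dig cel y := fun x hx y hy =>
    h.inc hc4 hx.1 hy.1 (hf x hx).1 (hf y hy).1 ((hV3 (hf x hx).2.2).2 (hf x hx).2.1).1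
  have haeY : ∀ᵐ x ∂μ, x ∈ D.K → x ∈ D.K ∩ V := by
    filter_upwards [hV2] with x h1 h2 using ⟨h2, h1⟩
  have hbd : ∀ x, BddAbove (range fun j => (D.Away j).indicator (fun x => min (δ j x) 1) x) :=
    fun x => ⟨1, forall_mem_range.2 fun j =>
      indicator_apply_le' (fun _ => min_le_right _ _) fun _ => zero_le_one⟩
  refine ⟨D.dig cel, fun x => ⨆ j, (D.Away j).indicator (fun x => min (δ j x) 1) x, D.K ∩ V,
    hK, hK0, h.measZeta, h.measDig hc1,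
    Measurable.iSup fun j => ((hδ1 j).min measurable_const).indicator (h.measAway j),
    hK.inter hV1, inter_subset_left, fun x hx => (h.mem0 _ _ hx.2.1).2, haeY, hf,
    fun x hx => ?_, ?_, fun x y e => (Nat.pair_eq_pair.1 e).1, hi, fun x hx y hy e j hj =>
      h.back hx hy e j hj, fun x hx => ⟨(h.mem0 _ _ hx.2.1).1, hx.2.1, ?_⟩,
    fun n y₁ h₁ y₂ h₂ u₁ k₁ u₂ k₂ e₁ e₂ e₃ a a' g₁ g₂ => ?_, fun x hx => ⟨?_, fun y hR hN => ?_⟩⟩
  · have h1 := ((hV3 hx.2).2 hx.1).2.2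
    exact ⟨h1, firstRet_mem h1, (hV4 x hx.2 _).2⟩
  · have := cond_isProbabilityMeasure (μ := μ) hK0
    have hT := measurePreserving_firstRet ha hK
    have mm : Measurable fun x => D.mm (D.zp x) := h.measMm.comp h.measZp
    have mc : Measurable fun i : ℕ => (i : ℝ≥0∞) := Measurable.of_discrete
    have mt := measurable_retTime ha.measurable hK
    refine finEnt_of_level _ (h.measDig hc1)
      (lv := fun x => retTime D.a D.K x + D.mm (D.zp (firstRet D.a D.K x)))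
      (mt.add (mm.comp hT.measurable)) ?_ ?_ (card_level hc2)
    · rw [ProbabilityTheory.cond, lintegral_smul_measure]
      refine ENNReal.mul_ne_top (ENNReal.inv_ne_top.2 hK0) ?_
      push_cast
      rw [lintegral_add_left (f := fun x => (retTime D.a D.K x : ℝ≥0∞)) (mc.comp mt),
        lintegral_retTime ha hK (ae_visit_of_ergodic h.erg hK hK0),
        hT.lintegral_comp (f := fun x => (D.mm (D.zp x) : ℝ≥0∞)) (mc.comp mm)]
      refine ENNReal.add_ne_top.2 ⟨measure_ne_top _ _, ne_top_of_le_ne_top ?_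
        (lintegral_mono fun x => D.mm_le (D.zp x))⟩
      rw [lintegral_add_left mM]
      exact ENNReal.add_ne_top.2 ⟨hM, by simp⟩
    · refine Measure.ae_smul_measure ?_ _
      filter_upwards [ae_restrict_of_ae haeY, ae_restrict_mem hK] with x h1 h2
      have h3 := h.ref_near h2 (hf x (h1 h2)).1
      refine Finset.mem_image.2 ⟨(retTime D.a D.K x, _, _), ?_, rfl⟩
      simp only [Finset.mem_product, Finset.mem_range, Finset.mem_biUnion]
      exact ⟨by omega, ⟨_, by omega, hc3 _ _ _ h3.1 h3.2⟩, (bitCode_lt _ _).trans_le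
        (Nat.pow_le_pow_right (by norm_num) (by omega))⟩
  · exact (h.N_lt hx).le.trans (by linarith [h.hc, h.hρ, h.ρ_pos])
  · have z₁ : D.zp u₁ = D.zp y₁ := (D.zeta_eq_iff.1 e₂).1.symm
    have z₂ : D.zp u₂ = D.zp y₂ := (D.zeta_eq_iff.1 (e₃.symm.trans e₁)).1
    change s (D.zp y₁) y₁ = s (D.zp u₁) u₁ at g₁
    change al (D.zp y₂) y₂ = al (D.zp u₂) u₂ at g₂
    rw [z₁] at g₁
    rw [z₂] at g₂
    funext i
    exact h.rect_names inter_subset_left hf hi n y₁ h₁ y₂ h₂ u₁ k₁ u₂ k₂ e₁ (e₂.symm.trans e₃)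
      (fun i hi => congrFun a ⟨i, hi⟩) (fun i hi => congrFun a' ⟨i, hi⟩)
      (h.e1s _ _ _ h₁.1.2.1 (z₁ ▸ k₁.1.2.1) g₁) (h.e2s _ _ _ h₂.1.2.1 (z₂ ▸ k₂.1.2.1) g₂) i i.2
  · obtain ⟨j, hj⟩ := (hV3 hx.2).1
    refine lt_of_lt_of_le ?_ (le_ciSup (hbd x) j)
    rw [indicator_of_mem hj]
    exact lt_min (hδ2 j x (h.mem0 _ _ hx.1.2.1).2) one_pos
  · obtain ⟨j, hj1, hj2⟩ : ∃ j, x ∈ D.Away j ∧ D.N x y < δ j x := by
      obtain ⟨j, hj⟩ := exists_lt_of_lt_ciSup hN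
      by_cases h1 : x ∈ D.Away j
      · rw [indicator_of_mem h1] at hj
        exact ⟨j, h1, hj.trans_le (min_le_left _ _)⟩
      · rw [indicator_of_notMem h1] at hj
        obtain ⟨j', hj'⟩ := (hV3 hx.2).1
        exact ⟨j', hj', hj.trans (hδ2 j' x (h.mem0 _ _ hx.1.2.1).2)⟩
    exact h.inner_of hx.1 hR hj1 fun z' hz k a1 a2 a3 => hδ3 z' hz _ hx.1.1 j k x y a1 a2 hx.1.2.1
      a3 (by linarith [h.N_lt hx.1, h.hc, h.ρ_pos]) hR hj2

end BD.Good

/-- The increasing rectangle partition exists. -/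
theorem BoxPre.exists_box [StandardBorelSpace X] {μ : Measure X} [IsProbabilityMeasure μ]
    {a : X ≃ᵐ X} {X0 : Set X} {R : X → X → Prop} {N F1 F2 : X → X → ℝ} {s al : X → X → M}
    {E1 E2 : X → X → Prop} {Z0 : Set X} {ρ c r0 η σ : ℝ}
    (h : BoxPre μ a X0 R N F1 F2 s al E1 E2 Z0 ρ c r0 η σ) :
    ∃ K zeta d del Y, Box μ a X0 R N s al K zeta d del Y := by
  have : Nonempty X := nonempty_of_isProbabilityMeasure μ
  have m : Measurable fun p : X × X => (p.2, p.1) := measurable_swap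
  obtain ⟨zp, h1, h2⟩ := exists_meas_unique
    (G := {p : X × X | p.2 ∈ Z0 ∧ R p.2 p.1 ∧ N p.2 p.1 < ρ})
    ((measurable_snd h.measZ).inter ((m h.measR).inter
      (measurableSet_lt (h.measN.comp m) measurable_const)))
    fun w z z' a1 a2 => h.uniq z a1.1 z' a2.1 w a1.2.1 a2.2.1 a1.2.2 a2.2.2
  have m' : Measurable fun w => (zp w, w) := h1.prodMk measurable_id
  obtain ⟨r, h3, h4, h5⟩ := exists_radius μ (h.measF1.comp m') (h.measF2.comp m')
    (D := 2 * η + 1) (by linarith [h.hη0]) h.hσ0.le h.hσ1 h.hr0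
  have hG : BD.Good ⟨a, R, N, F1, F2, Z0, ρ, η, σ, r, zp⟩ μ X0 s al E1 E2 c r0 :=
    ⟨h, h1, fun w z a1 a2 a3 => h2 w z ⟨a1, a2, a3⟩, h3, h4⟩
  exact ⟨_, _, hG.box h5⟩

end Pool.Agent.P.MP_d483fb_an.Z
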