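import Pool.Agent.P.MP_d483fb_an.Z.LSB.BoxVis
import Pool.Agent.P.MP_d483fb_an.Z.LSB.BoxAux
import Pool.Agent.P.MP_d483fb_an.Z.Erg.Return

/-!
The rectangle partition: measurability, the digit, and the construction.
-/

namespace Pool.Agent.P.MP_d483fb_an.Z

open MeasureTheory ProbabilityTheory Set Filter
open scoped ENNReal

/-- The first `m` pairs of bits as a number. -/
def bitCode : ℕ → (ℕ → Bool × Bool) → ℕ
  | 0, _ => 0
  | m + 1, β => 4 * bitCode m β + (2 * (β m).1.toNat + (β m).2.toNat)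

theorem bitCode_lt (m : ℕ) (β : ℕ → Bool × Bool) : bitCode m β < 4 ^ m := by
  induction m with
  | zero => simp [bitCode]
  | succ m ih =>
    have := Bool.toNat_le (β m).1
    have := Bool.toNat_le (β m).2
    rw [bitCode, pow_succ]
    omega

theorem bitCode_inj {m : ℕ} {β β' : ℕ → Bool × Bool} (h : bitCode m β = bitCode m β') :
    ∀ k < m, β k = β' k := by
  induction m with
  | zero => exact fun k hk => absurd hk (Nat.not_lt_zero k)
  | succ m ih =>
    have a1 := Bool.toNat_le (β m).1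
    have a2 := Bool.toNat_le (β m).2
    have a3 := Bool.toNat_le (β' m).1
    have a4 := Bool.toNat_le (β' m).2
    rw [bitCode, bitCode] at h
    have hb : ∀ u v : Bool, u.toNat = v.toNat → u = v := by decide
    intro k hk
    rcases (Nat.lt_succ_iff.1 hk).lt_or_eq with h1 | rfl
    · exact ih (by omega) k h1
    · exact Prod.ext (hb _ _ (by omega)) (hb _ _ (by omega))

theorem measurable_bitCode (m : ℕ) : Measurable (bitCode m) := by
  induction m with
  | zero => exact measurable_const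
  | succ m ih =>
    exact (ih.const_mul 4).add ((Measurable.of_discrete
      (f := fun p : Bool × Bool => 2 * p.1.toNat + p.2.toNat)).comp (measurable_pi_apply m))

theorem card_level {S : ℕ → Finset ℕ} {C : ℝ}
    (hS : ∀ t, ((S t).card : ℝ) ≤ Real.exp (C * (t + 1))) (n : ℕ) :
    (((Finset.range (n + 1) ×ˢ ((Finset.range (n + 1)).biUnion S ×ˢ Finset.range (4 ^ n))).image
      fun p => Nat.pair p.1 (Nat.pair p.2.1 p.2.2)).card : ℝ) ≤ Real.exp ((|C| + 4) * (n + 1)) := by
  have h1 : (((Finset.range (n + 1)).biUnion S).card : ℝ) ≤ (n + 1) * Real.exp (|C| * (n + 1)) := by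
    refine (Nat.cast_le.2 Finset.card_biUnion_le).trans ?_
    push_cast
    refine (Finset.sum_le_card_nsmul _ _ (Real.exp (|C| * (n + 1))) fun t ht => ?_).trans ?_
    · refine (hS t).trans (Real.exp_le_exp.2 ?_)
      have : (t : ℝ) ≤ n := Nat.cast_le.2 (Nat.lt_succ_iff.1 (Finset.mem_range.1 ht))
      exact mul_le_mul (le_abs_self C) (by linarith) (by positivity) (abs_nonneg C)
    · simp
  have h2 : (n : ℝ) + 1 ≤ Real.exp (n + 1) := by linarith [Real.add_one_le_exp ((n : ℝ) + 1)]
  have h3 : (4 : ℝ) ^ n ≤ Real.exp (2 * (n + 1)) := by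
    have a1 : (2 : ℝ) ≤ Real.exp 1 := by linarith [Real.add_one_le_exp (1 : ℝ)]
    calc (4 : ℝ) ^ n = 2 ^ (2 * n) := by rw [pow_mul]; norm_num
      _ ≤ Real.exp 1 ^ (2 * n) := by gcongr
      _ = Real.exp (2 * n) := by rw [← Real.exp_nat_mul]; simp
      _ ≤ _ := Real.exp_le_exp.2 (by linarith)
  refine (Nat.cast_le.2 Finset.card_image_le).trans ?_
  rw [Finset.card_product, Finset.card_product, Finset.card_range, Finset.card_range]
  push_cast
  calc ((n : ℝ) + 1) * (((Finset.range (n + 1)).biUnion S).card * 4 ^ n)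
      ≤ Real.exp (n + 1) * (Real.exp (n + 1) * Real.exp (|C| * (n + 1)) * Real.exp (2 * (n + 1))) := by
        gcongr
        exact h1.trans (by gcongr)
    _ = _ := by
        simp only [← Real.exp_add]
        congr 1
        ring

variable {X M : Type*} [MeasurableSpace X]

theorem exists_box_conull {μ : Measure X} {a : X ≃ᵐ X} (ha : MeasurePreserving a μ μ) {G : Set X}
    (hG : MeasurableSet G) (h : ∀ᵐ x ∂μ, x ∈ G) : ∃ V : Set X, MeasurableSet V ∧
      (∀ᵐ x ∂μ, x ∈ V) ∧ V ⊆ G ∧ ∀ x ∈ V, ∀ n, a^[n] x ∈ V ∧ a.symm^[n] x ∈ V := by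
  have hb : MeasurePreserving a.symm μ μ := ha.symm a
  have key : ∀ x, (∀ n, a^[n] x ∈ G ∧ a.symm^[n] x ∈ G) →
      (∀ n, a^[n] (a x) ∈ G ∧ a.symm^[n] (a x) ∈ G) ∧
      ∀ n, a^[n] (a.symm x) ∈ G ∧ a.symm^[n] (a.symm x) ∈ G := fun x hx => by
    refine ⟨fun n => ⟨(hx (n + 1)).1, ?_⟩, fun n => ⟨?_, (hx (n + 1)).2⟩⟩
    · cases n with
      | zero => exact (hx 1).1
      | succ n => simpa using (hx n).2
    · cases n with
      | zero => exact (hx 1).2
      | succ n => simpa using (hx n).1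
  refine ⟨{x | ∀ n, a^[n] x ∈ G ∧ a.symm^[n] x ∈ G}, ?_, ?_, fun x hx => (hx 0).1, fun x hx n => ?_⟩
  · rw [ofPred_forall]
    exact .iInter fun n => (a.measurable.iterate n hG).inter (a.symm.measurable.iterate n hG)
  · exact ae_all_iff.2 fun n => ((ha.iterate n).quasiMeasurePreserving.ae h).and
      ((hb.iterate n).quasiMeasurePreserving.ae h)
  · induction n with
    | zero => exact ⟨hx, hx⟩
    | succ n ih =>
      rw [Function.iterate_succ_apply', Function.iterate_succ_apply']
      exact ⟨(key _ ih.1).1, (key _ ih.2).2⟩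

namespace BD

variable (D : BD X)

/-- A majorant of the last time at which the rectangle of `z` may be cut. -/
noncomputable def Mz (z : X) : ℝ≥0∞ :=
  ∑' k : ℕ, {z | D.cut k z}.indicator (fun _ => (k : ℝ≥0∞) + 1) z

/-- The number of bits in the digit. -/
noncomputable def mm (z : X) : ℕ := ⌈(D.Mz z).toReal⌉₊

theorem mm_le (z : X) : (D.mm z : ℝ≥0∞) ≤ D.Mz z + 1 := by
  rw [← ENNReal.ofReal_natCast]
  refine (ENNReal.ofReal_le_ofReal (Nat.ceil_lt_add_one ENNReal.toReal_nonneg).le).trans ?_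
  rw [ENNReal.ofReal_add ENNReal.toReal_nonneg zero_le_one, ENNReal.ofReal_one]
  exact add_le_add_left ENNReal.ofReal_toReal_le _

theorem lt_mm {z : X} {k : ℕ} (h0 : D.Mz z ≠ ∞) (hk : D.cut k z) : k < D.mm z := by
  have h1 : (k : ℝ≥0∞) + 1 ≤ D.Mz z := by
    refine le_trans ?_ (ENNReal.le_tsum k)
    rw [indicator_of_mem (show z ∈ {z | D.cut k z} from hk)]
  have h2 := ENNReal.toReal_mono h0 h1
  rw [ENNReal.toReal_add (ENNReal.natCast_ne_top k) ENNReal.one_ne_top, ENNReal.toReal_natCast,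
    ENNReal.toReal_one] at h2
  exact Nat.lt_ceil.2 (by linarith)

/-- The digit. -/
noncomputable def dig (cel : ℕ → X → X → ℕ) (x : X) : ℕ :=
  Nat.pair (retTime D.a D.K x) (Nat.pair
    (cel (retTime D.a D.K x) (D.zp x) (D.zp (firstRet D.a D.K x)))
    (bitCode (D.mm (D.zp (firstRet D.a D.K x))) (D.zeta (firstRet D.a D.K x)).2))

/-- The past orbit of `x` keeps away from the boundaries. -/
def Away (j : ℕ) : Set X := {x | ∀ k, D.a.symm^[k] x ∉ D.Bad (D.σ ^ k / (j + 1))}

namespace Good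

variable {D} {μ : Measure X} {X0 : Set X} {s al : X → X → M} {E1 E2 : X → X → Prop} {c r0 : ℝ}
  (h : D.Good μ X0 s al E1 E2 c r0)
include h

theorem measK : MeasurableSet D.K := by
  have m : Measurable fun w => (D.zp w, w) := h.measZp.prodMk measurable_id
  exact (h.measZp h.measZ).inter ((m h.measR).inter
    ((measurableSet_lt (h.measF1.comp m) measurable_const).inter
      (measurableSet_lt (h.measF2.comp m) measurable_const)))

theorem measNear (k : ℕ) : Measurable (D.near k) := h.measZp.comp (D.a.symm.measurable.iterate k)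

theorem measAct (k : ℕ) : MeasurableSet {z | D.act k z} := by
  have m : Measurable fun z => (D.near k z, D.a.symm^[k] z) :=
    (h.measNear k).prodMk (D.a.symm.measurable.iterate k)
  exact (h.measNear k h.measZ).inter ((m h.measR).inter
    (measurableSet_lt (h.measN.comp m) measurable_const))

theorem measZeta : Measurable D.zeta := by
  refine h.measZp.prodMk (measurable_pi_lambda _ fun k => ?_)
  have m : Measurable fun y => (D.near k (D.zp y), D.a.symm^[k] y) :=
    ((h.measNear k).comp h.measZp).prodMk (D.a.symm.measurable.iterate k)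
  unfold bit
  refine Measurable.ite (h.measZp (h.measAct k)) (Measurable.prodMk ?_ ?_) measurable_const
  · refine measurable_to_bool ?_
    simpa [preimage] using measurableSet_lt (h.measF1.comp m) (measurable_const (a := D.r))
  · refine measurable_to_bool ?_
    simpa [preimage] using measurableSet_lt (h.measF2.comp m) (measurable_const (a := D.r))

theorem measCut (k : ℕ) : MeasurableSet {z | D.cut k z} := by
  have m : Measurable fun z => (D.near k z, D.a.symm^[k] z) :=
    (h.measNear k).prodMk (D.a.symm.measurable.iterate k)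
  exact (h.measAct k).inter
    ((measurableSet_le ((h.measF1.comp m).sub_const _).abs measurable_const).union
      (measurableSet_le ((h.measF2.comp m).sub_const _).abs measurable_const))

theorem measBad (t : ℝ) : MeasurableSet (D.Bad t) := by
  have m : Measurable fun w => (D.zp w, w) := h.measZp.prodMk measurable_id
  exact (measurableSet_le ((h.measF1.comp m).sub_const _).abs measurable_const).union
    (measurableSet_le ((h.measF2.comp m).sub_const _).abs measurable_const)

theorem measMz : Measurable D.Mz :=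
  Measurable.tsum fun k => measurable_const.indicator (h.measCut k)

theorem measMm : Measurable D.mm := h.measMz.ennreal_toReal.nat_ceil

theorem measAway (j : ℕ) : MeasurableSet (D.Away j) := by
  rw [Away, ofPred_forall]
  exact .iInter fun k => (D.a.symm.measurable.iterate k (h.measBad _)).compl

theorem measDig {cel : ℕ → X → X → ℕ} (hc : ∀ t, Measurable fun p : X × X => cel t p.1 p.2) :
    Measurable (D.dig cel) := by
  have hT := measurable_firstRet D.a.measurable h.measK
  have hp : Measurable fun p : ℕ × ℕ => Nat.pair p.1 p.2 := Measurable.of_discrete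
  have h1 : Measurable fun x => cel (retTime D.a D.K x) (D.zp x) (D.zp (firstRet D.a D.K x)) :=
    measurable_comp_retTime (g := fun t x => cel t (D.zp x) (D.zp (firstRet D.a D.K x)))
      D.a.measurable h.measK fun t => (hc t).comp (h.measZp.prodMk (h.measZp.comp hT))
  have h2 : Measurable fun x =>
      bitCode (D.mm (D.zp (firstRet D.a D.K x))) (D.zeta (firstRet D.a D.K x)).2 :=
    (measurable_from_prod_countable_left (f := fun p : (ℕ → Bool × Bool) × ℕ => bitCode p.2 p.1)
      measurable_bitCode).comp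
      ((h.measZeta.comp hT).snd.prodMk ((h.measMm.comp h.measZp).comp hT))
  exact hp.comp ((measurable_retTime D.a.measurable h.measK).prodMk (hp.comp (h1.prodMk h2)))

theorem lintegral_Mz : ∫⁻ x in D.K, D.Mz (D.zp x) ∂μ ≤
    ∑' k : ℕ, ((k : ℝ≥0∞) + 1) * μ (D.Bad ((2 * D.η + 1) * D.σ ^ k)) := by
  have hb : MeasurePreserving D.a.symm μ μ := h.erg.toMeasurePreserving.symm D.a
  unfold Mz
  rw [lintegral_tsum (f := fun (k : ℕ) x =>
    {z | D.cut k z}.indicator (fun _ => (k : ℝ≥0∞) + 1) (D.zp x)) fun k =>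
    ((measurable_const.indicator (h.measCut k)).comp h.measZp).aemeasurable]
  refine ENNReal.tsum_le_tsum fun k => ?_
  rw [← (hb.iterate k).measure_preimage (h.measBad _).nullMeasurableSet,
    ← lintegral_indicator_const (D.a.symm.measurable.iterate k (h.measBad _)),
    ← lintegral_indicator h.measK]
  refine lintegral_mono fun x => ?_
  by_cases hx : x ∈ D.K
  · by_cases hc : D.cut k (D.zp x)
    · rw [indicator_of_mem hx, indicator_of_mem
        (s := D.a.symm^[k] ⁻¹' D.Bad ((2 * D.η + 1) * D.σ ^ k)) (h.cut_bad hx hc)]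
      exact indicator_le_self _ _ (D.zp x)
    · rw [indicator_of_mem hx, indicator_of_notMem (show D.zp x ∉ {z | D.cut k z} from hc)]
      exact zero_le
  · rw [indicator_of_notMem hx]
    exact zero_le

theorem ae_away (hs : ∑' k : ℕ, ((k : ℝ≥0∞) + 1) * μ (D.Bad ((2 * D.η + 1) * D.σ ^ k)) ≠ ∞) :
    ∀ᵐ x ∂μ, ∃ j, x ∈ D.Away j := by
  have hb : MeasurePreserving D.a.symm μ μ := h.erg.toMeasurePreserving.symm D.a
  have mono : ∀ {t t' : ℝ}, t ≤ t' → D.Bad t ⊆ D.Bad t' := fun ht w hw =>
    hw.imp (fun h1 => le_trans h1 ht) fun h1 => le_trans h1 ht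
  have hs' : ∑' k : ℕ, μ (D.Bad (D.σ ^ k)) ≠ ∞ := by
    refine ne_top_of_le_ne_top hs (ENNReal.tsum_le_tsum fun k => ?_)
    refine le_trans (measure_mono (mono ?_)) (le_mul_of_one_le_left' le_add_self)
    nlinarith [pow_pos h.hσ0 k, h.hη0]
  have h1 : ∀ᵐ x ∂μ, ∀ᶠ k in atTop, x ∉ D.a.symm^[k] ⁻¹' D.Bad (D.σ ^ k) :=
    ae_eventually_notMem (by
      simpa only [(hb.iterate _).measure_preimage (h.measBad _).nullMeasurableSet] using hs')
  have h2 : ∀ᵐ x ∂μ, x ∉ D.Bad 0 := by
    filter_upwards [ae_eventually_notMem hs'] with x hx h0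
    obtain ⟨k, hk⟩ := hx.exists
    exact hk (mono (pow_pos h.hσ0 k).le h0)
  filter_upwards [h1, ae_all_iff.2 fun k => (hb.iterate k).quasiMeasurePreserving.ae h2]
    with x hx hx2
  obtain ⟨k0, hk0⟩ := eventually_atTop.1 hx
  have h3 : ∀ k, ∀ᶠ j : ℕ in atTop, D.a.symm^[k] x ∉ D.Bad (D.σ ^ k / (j + 1)) := fun k => by
    have a1 := hx2 k
    rw [Bad, mem_ofPred_eq, not_or, not_le, not_le] at a1
    have a2 : Tendsto (fun j : ℕ => D.σ ^ k / (j + 1)) atTop (nhds 0) :=
      tendsto_const_nhds.div_atTop (tendsto_natCast_atTop_atTop.atTop_add tendsto_const_nhds)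
    filter_upwards [a2.eventually (gt_mem_nhds a1.1), a2.eventually (gt_mem_nhds a1.2)]
      with j b1 b2 b3
    exact b3.elim (not_le.2 b1) (not_le.2 b2)
  obtain ⟨j, hj⟩ := ((Finset.range k0).eventually_all.2 fun k _ => h3 k).exists
  refine ⟨j, fun k => ?_⟩
  rcases lt_or_ge k k0 with h4 | h4
  · exact hj k (Finset.mem_range.2 h4)
  · exact fun h5 => hk0 k h4 (mono (div_le_self (pow_pos h.hσ0 k).le (by simp)) h5)

theorem ref_near {x : X} (hx : x ∈ D.K) (tx : 0 < retTime D.a D.K x) :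
    D.R (D.zp x) (D.a.symm^[retTime D.a D.K x] (D.zp (firstRet D.a D.K x))) ∧
    D.N (D.zp x) (D.a.symm^[retTime D.a D.K x] (D.zp (firstRet D.a D.K x))) < D.ρ := by
  have e : D.a.symm^[retTime D.a D.K x] (firstRet D.a D.K x) = x := D.symm_iter' _ _
  obtain ⟨a1, a2, a3⟩ := h.vis (j := retTime D.a D.K x) (firstRet_mem tx) (firstRet_mem tx) rfl hx.1
    (by rw [e]; exact hx.2.1) (by rw [e]; exact hx.2.2.1) (by rw [e]; exact hx.2.2.2)
  exact ⟨a2 ▸ a1.2.1, by linarith [h.hc, h.ρ_pos]⟩

theorem inc {cel : ℕ → X → X → ℕ}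
    (hc : ∀ t, ∀ z ∈ D.Z0, ∀ z' ∈ D.Z0, ∀ z'' ∈ D.Z0, D.R z (D.a.symm^[t] z') →
      D.N z (D.a.symm^[t] z') < D.ρ → D.R z (D.a.symm^[t] z'') → D.N z (D.a.symm^[t] z'') < D.ρ →
      cel t z z' = cel t z z'' → z' = z'')
    {x y : X} (hx : x ∈ D.K) (hy : y ∈ D.K) (tx : 0 < retTime D.a D.K x)
    (ty : 0 < retTime D.a D.K y) (hM : D.Mz (D.zp (firstRet D.a D.K x)) ≠ ∞) :
    D.zeta (firstRet D.a D.K x) = D.zeta (firstRet D.a D.K y) ↔
      D.zeta x = D.zeta y ∧ D.dig cel x = D.dig cel y := by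
  constructor
  · intro e
    obtain ⟨e1, e2⟩ := h.tau_eq hx hy tx ty e
    refine ⟨e2, ?_⟩
    rw [dig, dig, e1, (D.zeta_eq_iff.1 e2).1, (D.zeta_eq_iff.1 e).1, e]
  · rintro ⟨e, e'⟩
    simp only [dig, Nat.pair_eq_pair] at e'
    obtain ⟨e1, e2, e3⟩ := e'
    have a1 := h.ref_near hx tx
    have a2 := h.ref_near hy ty
    rw [← e1, ← (D.zeta_eq_iff.1 e).1] at a2 e2
    have e4 := hc _ _ hx.1 _ (firstRet_mem tx).1 _ (firstRet_mem ty).1 a1.1 a1.2 a2.1 a2.2 e2
    rw [← e4] at e3
    refine D.zeta_eq_iff.2 ⟨e4, fun k hk => ?_⟩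
    by_cases hcut : D.cut k (D.zp (firstRet D.a D.K x))
    · have e5 : D.bit k _ _ = D.bit k _ _ := bitCode_inj e3 k (D.lt_mm hM hcut)
      rw [← e4] at e5
      exact D.bit_eq_iff.1 e5 hk
    · exact h.same_of_not_cut (firstRet_mem tx) (firstRet_mem ty) e4 hcut hk

end Good

end BD

end Pool.Agent.P.MP_d483fb_an.Z
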