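import Pool.Agent.P.MP_d483fb_an.Z.LSB.BoxDefs

/-!
The rectangle partition: definitions and the pointwise properties of the label.
-/

namespace Pool.Agent.P.MP_d483fb_an.Z

open MeasureTheory Set
open scoped ENNReal

/-- The data from which the rectangle partition is built. -/
structure BD (X : Type*) [MeasurableSpace X] where
  a : X ≃ᵐ X
  R : X → X → Prop
  N : X → X → ℝ
  F1 : X → X → ℝ
  F2 : X → X → ℝ
  Z0 : Set X
  ρ : ℝ
  η : ℝ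
  σ : ℝ
  r : ℝ
  zp : X → X

namespace BD

variable {X M : Type*} [MeasurableSpace X] (D : BD X)

/-- The union of the rectangles around the reference points. -/
def K : Set X :=
  {w | D.zp w ∈ D.Z0 ∧ D.R (D.zp w) w ∧ D.F1 (D.zp w) w < D.r ∧ D.F2 (D.zp w) w < D.r}

/-- The radius used at time `-k`. -/
noncomputable def rad (k : ℕ) : ℝ := D.ρ / 2 - D.ρ / 4 * D.σ ^ k

/-- The reference point near the `k`-th preimage of `z`. -/
def near (k : ℕ) (z : X) : X := D.zp (D.a.symm^[k] z)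

/-- The `k`-th preimage of `z` is near a reference point. -/
def act (k : ℕ) (z : X) : Prop :=
  D.near k z ∈ D.Z0 ∧ D.R (D.near k z) (D.a.symm^[k] z) ∧
    D.N (D.near k z) (D.a.symm^[k] z) < D.rad k

open Classical in
/-- The two bits of `y` at time `-k`. -/
noncomputable def bit (k : ℕ) (z y : X) : Bool × Bool :=
  if D.act k z then (decide (D.F1 (D.near k z) (D.a.symm^[k] y) < D.r),
    decide (D.F2 (D.near k z) (D.a.symm^[k] y) < D.r)) else (false, false)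

/-- The label. -/
noncomputable def zeta (y : X) : BoxLab X := (D.zp y, fun k => D.bit k (D.zp y) y)

/-- The points `x` and `y` are on the same sides of the two boundaries at time `-k`. -/
def Same (k : ℕ) (z x y : X) : Prop :=
  (D.F1 (D.near k z) (D.a.symm^[k] x) < D.r ↔ D.F1 (D.near k z) (D.a.symm^[k] y) < D.r) ∧
  (D.F2 (D.near k z) (D.a.symm^[k] x) < D.r ↔ D.F2 (D.near k z) (D.a.symm^[k] y) < D.r)

/-- The rectangle of `z` may be cut at time `-k`. -/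
def cut (k : ℕ) (z : X) : Prop :=
  D.act k z ∧ (|D.F1 (D.near k z) (D.a.symm^[k] z) - D.r| ≤ D.η * D.σ ^ k ∨
    |D.F2 (D.near k z) (D.a.symm^[k] z) - D.r| ≤ D.η * D.σ ^ k)

/-- The point `w` is within `t` of one of the two boundaries. -/
def Bad (t : ℝ) : Set X := {w | |D.F1 (D.zp w) w - D.r| ≤ t ∨ |D.F2 (D.zp w) w - D.r| ≤ t}

theorem bit_eq_iff {k : ℕ} {z x y : X} :
    D.bit k z x = D.bit k z y ↔ (D.act k z → D.Same k z x y) := by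
  unfold bit Same
  by_cases h : D.act k z
  · simp only [h, if_true, Prod.mk.injEq, decide_eq_decide, true_imp_iff]
  · simp only [h, if_false, false_imp_iff]

theorem zeta_eq_iff {x y : X} : D.zeta x = D.zeta y ↔
    D.zp x = D.zp y ∧ ∀ k, D.act k (D.zp x) → D.Same k (D.zp x) x y := by
  unfold zeta
  rw [Prod.mk.injEq]
  refine and_congr_right fun h => ?_
  rw [← h, funext_iff]
  exact forall_congr' fun k => D.bit_eq_iff

theorem symm_iter (i j : ℕ) (y : X) : D.a.symm^[j] (D.a^[j + i] y) = D.a^[i] y := by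
  rw [Function.iterate_add_apply]
  exact (Function.LeftInverse.iterate D.a.symm_apply_apply j) _

theorem symm_iter' (j : ℕ) (y : X) : D.a.symm^[j] (D.a^[j] y) = y := D.symm_iter 0 j y

theorem same_side {u v e r : ℝ} (h1 : |u - v| ≤ e) (h2 : e < |v - r|) : u < r ↔ v < r := by
  have h3 := abs_le.1 h1
  rcases lt_abs.1 h2 with h | h <;> constructor <;> intro <;> linarith

/-- The hypotheses on the data. -/
structure Good (μ : Measure X) (X0 : Set X) (s al : X → X → M) (E1 E2 : X → X → Prop) (c r0 : ℝ) :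
    Prop extends BoxPre μ D.a X0 D.R D.N D.F1 D.F2 s al E1 E2 D.Z0 D.ρ c r0 D.η D.σ where
  measZp : Measurable D.zp
  hz : ∀ w, ∀ z ∈ D.Z0, D.R z w → D.N z w < D.ρ → D.zp w = z
  hr1 : r0 < D.r
  hr2 : D.r < 2 * r0

namespace Good

variable {D} {μ : Measure X} {X0 : Set X} {s al : X → X → M} {E1 E2 : X → X → Prop} {c r0 : ℝ}
  (h : D.Good μ X0 s al E1 E2 c r0)
include h

theorem relB' {x y : X} (hR : D.R x y) (k : ℕ) : D.R (D.a.symm^[k] x) (D.a.symm^[k] y) := by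
  induction k with
  | zero => exact hR
  | succ k ih => simpa only [Function.iterate_succ_apply'] using h.relB _ _ ih

theorem e1A' {x y : X} (hR : E1 x y) (k : ℕ) : E1 (D.a^[k] x) (D.a^[k] y) := by
  induction k with
  | zero => exact hR
  | succ k ih => simpa only [Function.iterate_succ_apply'] using h.e1A _ _ ih

theorem e2A' {x y : X} (hR : E2 x y) (k : ℕ) : E2 (D.a^[k] x) (D.a^[k] y) := by
  induction k with
  | zero => exact hR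
  | succ k ih => simpa only [Function.iterate_succ_apply'] using h.e2A _ _ ih

theorem e1B' {x y : X} (hR : E1 x y) (k : ℕ) : E1 (D.a.symm^[k] x) (D.a.symm^[k] y) := by
  induction k with
  | zero => exact hR
  | succ k ih => simpa only [Function.iterate_succ_apply'] using h.e1B _ _ ih

theorem e2B' {x y : X} (hR : E2 x y) (k : ℕ) : E2 (D.a.symm^[k] x) (D.a.symm^[k] y) := by
  induction k with
  | zero => exact hR
  | succ k ih => simpa only [Function.iterate_succ_apply'] using h.e2B _ _ ih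

theorem ρ_pos : 0 < D.ρ := by linarith [h.hc0, h.hc]

theorem pow_le (k : ℕ) : D.σ ^ k ≤ 1 := pow_le_one₀ h.hσ0.le h.hσ1.le

theorem le_rad (k : ℕ) : D.ρ / 4 ≤ D.rad k := by
  have := h.pow_le k
  have := h.ρ_pos
  unfold rad
  nlinarith

theorem rad_le (k : ℕ) : D.rad k ≤ D.ρ / 2 := by
  have := pow_pos h.hσ0 k
  have := h.ρ_pos
  unfold rad
  nlinarith

theorem rad_step (k j : ℕ) : D.rad k + D.η * D.σ ^ k ≤ D.rad (k + (j + 1)) := by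
  have h1 := pow_pos h.hσ0 k
  have h2 := h.ρ_pos
  have h3 : D.σ ^ (k + (j + 1)) ≤ D.σ ^ k * D.σ := by
    rw [← pow_succ]
    exact pow_le_pow_of_le_one h.hσ0.le h.hσ1.le (by omega)
  have h4 := mul_le_mul_of_nonneg_right h.hη h1.le
  unfold rad
  nlinarith

theorem eta_le (k : ℕ) : D.η * D.σ ^ k ≤ D.ρ / 4 := by
  have h1 := mul_le_mul_of_nonneg_left (h.pow_le k) h.hη0
  have h2 := h.hη
  have h3 := mul_pos h.ρ_pos h.hσ0
  linarith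

theorem N_lt {w : X} (hw : w ∈ D.K) : D.N (D.zp w) w < c :=
  h.ball _ _ hw.2.1 (hw.2.2.1.trans h.hr2) (hw.2.2.2.trans h.hr2)

theorem memK {z w : X} (hz : z ∈ D.Z0) (hR : D.R z w) (h1 : D.F1 z w < D.r) (h2 : D.F2 z w < D.r) :
    w ∈ D.K ∧ D.zp w = z := by
  have e : D.zp w = z := h.hz w z hz hR (by
    linarith [h.ball _ _ hR (h1.trans h.hr2) (h2.trans h.hr2), h.hc, h.ρ_pos])
  refine ⟨?_, e⟩
  rw [← e] at hz hR h1 h2
  exact ⟨hz, hR, h1, h2⟩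

theorem act_of {k : ℕ} {z z' : X} (hz : z' ∈ D.Z0) (hR : D.R z' (D.a.symm^[k] z))
    (hN : D.N z' (D.a.symm^[k] z) < D.rad k) : D.act k z ∧ D.near k z = z' := by
  have e : D.near k z = z' := h.hz _ z' hz hR (by linarith [h.rad_le k, h.ρ_pos])
  refine ⟨?_, e⟩
  rw [← e] at hz hR hN
  exact ⟨hz, hR, hN⟩

theorem act_zero {w : X} (hw : w ∈ D.K) : D.act 0 (D.zp w) ∧ D.near 0 (D.zp w) = D.zp w := by
  have h0 := (h.mem0 _ _ hw.2.1).1
  refine h.act_of hw.1 (h.refl _ h0) ?_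
  rw [Function.iterate_zero_apply, h.self _ h0]
  linarith [h.le_rad 0, h.ρ_pos]

theorem vis {x₁ x₂ z : X} {j : ℕ} (h₁ : x₁ ∈ D.K) (h₂ : x₂ ∈ D.K) (e : D.zp x₁ = D.zp x₂)
    (hz : z ∈ D.Z0) (hR : D.R z (D.a.symm^[j] x₁)) (f₁ : D.F1 z (D.a.symm^[j] x₁) < D.r)
    (f₂ : D.F2 z (D.a.symm^[j] x₂) < D.r) :
    D.act j (D.zp x₁) ∧ D.near j (D.zp x₁) = z ∧ D.N z (D.a.symm^[j] (D.zp x₁)) < c := by
  have hR' := h.trans _ _ _ hR (h.symm _ _ (h.relB' h₁.2.1 j))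
  have hN : D.N z (D.a.symm^[j] (D.zp x₁)) < c :=
    h.far z hz _ h₁.1 j x₁ x₂ hR' h₁.2.1 (e ▸ h₂.2.1) (h₁.2.2.1.trans h.hr2) (h₁.2.2.2.trans h.hr2)
      (e ▸ h₂.2.2.1.trans h.hr2) (e ▸ h₂.2.2.2.trans h.hr2) (f₁.trans h.hr2) (f₂.trans h.hr2)
  have h3 := h.act_of hz hR' (by linarith [h.le_rad j, h.hc])
  exact ⟨h3.1, h3.2, hN⟩

theorem nest {x : X} {j k : ℕ} (hx : x ∈ D.K) (hj : D.a.symm^[j] x ∈ D.K)
    (hk : D.act k (D.zp (D.a.symm^[j] x))) :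
    D.act (k + j) (D.zp x) ∧ D.near (k + j) (D.zp x) = D.near k (D.zp (D.a.symm^[j] x)) := by
  cases j with
  | zero => exact ⟨hk, rfl⟩
  | succ j =>
    have h1 := (h.vis hx hx rfl hj.1 hj.2.1 hj.2.2.1 hj.2.2.2).2.2
    have hR := h.trans _ _ _ hj.2.1 (h.symm _ _ (h.relB' hx.2.1 (j + 1)))
    have h2 := (h.pert _ hk.1 _ hj.1 k _ hk.2.1
      (by linarith [hk.2.2, h.rad_le k, h.ρ_pos]) hR h1).1
    refine h.act_of hk.1 ?_ ?_
    · rw [Function.iterate_add_apply _ k]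
      exact h.trans _ _ _ hk.2.1 (h.relB' hR k)
    · rw [Function.iterate_add_apply _ k]
      linarith [(abs_le.1 h2).2, hk.2.2, h.rad_step k j]

theorem back {x y : X} (hx : x ∈ D.K) (hy : y ∈ D.K) (e : D.zeta x = D.zeta y) (j : ℕ)
    (hj : D.a.symm^[j] x ∈ D.K) :
    D.a.symm^[j] y ∈ D.K ∧ D.zeta (D.a.symm^[j] x) = D.zeta (D.a.symm^[j] y) := by
  obtain ⟨e1, e2⟩ := D.zeta_eq_iff.1 e
  obtain ⟨a1, a2, -⟩ := h.vis hx hx rfl hj.1 hj.2.1 hj.2.2.1 hj.2.2.2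
  have a3 := e2 j a1
  rw [Same, a2] at a3
  have hxy : D.R x y := h.trans _ _ _ (h.symm _ _ hx.2.1) (e1 ▸ hy.2.1)
  obtain ⟨b1, b2⟩ := h.memK hj.1 (h.trans _ _ _ hj.2.1 (h.relB' hxy j)) (a3.1.1 hj.2.2.1)
    (a3.2.1 hj.2.2.2)
  refine ⟨b1, D.zeta_eq_iff.2 ⟨b2.symm, fun k hk => ?_⟩⟩
  obtain ⟨c1, c2⟩ := h.nest hx hj hk
  have c3 := e2 _ c1
  rw [Same, c2, Function.iterate_add_apply, Function.iterate_add_apply] at c3
  exact c3

theorem tau_eq {x y : X} (hx : x ∈ D.K) (hy : y ∈ D.K) (tx : 0 < retTime D.a D.K x)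
    (ty : 0 < retTime D.a D.K y) (e : D.zeta (firstRet D.a D.K x) = D.zeta (firstRet D.a D.K y)) :
    retTime D.a D.K x = retTime D.a D.K y ∧ D.zeta x = D.zeta y := by
  have key : ∀ {x y : X}, x ∈ D.K → 0 < retTime D.a D.K x → 0 < retTime D.a D.K y →
      D.zeta (firstRet D.a D.K x) = D.zeta (firstRet D.a D.K y) →
      retTime D.a D.K y ≤ retTime D.a D.K x := fun {x y} hx tx ty e => by
    by_contra hlt
    obtain ⟨i, hi⟩ := Nat.exists_eq_add_of_lt (not_le.1 hlt)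
    have h1 := (h.back (firstRet_mem tx) (firstRet_mem ty) e (retTime D.a D.K x)
      (by rw [firstRet, D.symm_iter']; exact hx)).1
    rw [firstRet, hi, add_assoc, D.symm_iter] at h1
    exact notMem_of_lt_retTime (Nat.succ_pos i) (by omega) h1
  have e1 := le_antisymm (key hy ty tx e.symm) (key hx tx ty e)
  refine ⟨e1, ?_⟩
  have h1 := (h.back (firstRet_mem tx) (firstRet_mem ty) e (retTime D.a D.K x)
    (by rw [firstRet, D.symm_iter']; exact hx)).2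
  rwa [firstRet, firstRet, ← e1, D.symm_iter', D.symm_iter'] at h1

theorem rect_time {x₁ x₂ u₁ u₂ : X} {j : ℕ} (h₁ : x₁ ∈ D.K) (h₂ : x₂ ∈ D.K)
    (e : D.zeta x₁ = D.zeta x₂) (k₁ : u₁ ∈ D.K) (k₂ : u₂ ∈ D.K) (e' : D.zp u₁ = D.zp u₂)
    (hR : D.R u₁ (D.a.symm^[j] x₁))
    (f₁ : D.F1 (D.zp u₁) u₁ = D.F1 (D.zp u₁) (D.a.symm^[j] x₁))
    (f₂ : D.F2 (D.zp u₂) u₂ = D.F2 (D.zp u₂) (D.a.symm^[j] x₂)) :
    D.a.symm^[j] x₁ ∈ D.K ∧ D.near j (D.zp x₁) = D.zp u₁ := by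
  obtain ⟨e1, e2⟩ := D.zeta_eq_iff.1 e
  have hR' := h.trans _ _ _ k₁.2.1 hR
  have g₂ : D.F2 (D.zp u₁) (D.a.symm^[j] x₂) < D.r := by
    rw [e', ← f₂]
    exact k₂.2.2.2
  obtain ⟨a1, a2, -⟩ := h.vis h₁ h₂ e1 k₁.1 hR' (f₁ ▸ k₁.2.2.1) g₂
  have a3 := e2 j a1
  rw [Same, a2] at a3
  exact ⟨(h.memK k₁.1 hR' (f₁ ▸ k₁.2.2.1) (a3.2.2 g₂)).1, a2⟩

theorem rect_same {x₁ x₂ u₁ u₂ : X} (h₁ : x₁ ∈ D.K) (h₂ : x₂ ∈ D.K) (e : D.zeta x₁ = D.zeta x₂)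
    (k₁ : u₁ ∈ D.K) (k₂ : u₂ ∈ D.K) (e' : D.zeta u₁ = D.zeta u₂) (g₁ : E1 u₁ x₁) (g₂ : E2 u₂ x₂) :
    D.zeta u₁ = D.zeta x₁ := by
  obtain ⟨e1, e2⟩ := D.zeta_eq_iff.1 e
  obtain ⟨e3, e4⟩ := D.zeta_eq_iff.1 e'
  have a1 := (h.rect_time (j := 0) h₁ h₂ e k₁ k₂ e3 (h.e1F _ _ g₁).1
    ((h.e1F _ _ g₁).2 _ k₁.2.1) ((h.e2F _ _ g₂).2 _ k₂.2.1)).2
  rw [(h.act_zero h₁).2] at a1
  refine D.zeta_eq_iff.2 ⟨a1.symm, fun k hk => ?_⟩
  have b1 := (h.e1F _ _ (h.e1B' g₁ k)).2 _ (h.trans _ _ _ hk.2.1 (h.relB' k₁.2.1 k))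
  have b2 := (h.e2F _ _ (h.e2B' g₂ k)).2 _ (h.trans _ _ _ hk.2.1 (h.relB' (e3 ▸ k₂.2.1) k))
  have b3 := (e4 k hk).2
  have b4 := (e2 k (a1 ▸ hk)).2
  rw [a1] at b4
  exact ⟨by rw [b1], b3.trans (by rw [b2, b4])⟩

theorem rect_one {y₁ y₂ u₁ u₂ : X} (h₁ : y₁ ∈ D.K) (h₂ : y₂ ∈ D.K) (k₁ : u₁ ∈ D.K) (k₂ : u₂ ∈ D.K)
    (t₁ : 0 < retTime D.a D.K y₁) (t₂ : 0 < retTime D.a D.K y₂) (s₁ : 0 < retTime D.a D.K u₁)
    (s₂ : 0 < retTime D.a D.K u₂)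
    (e : D.zeta (firstRet D.a D.K y₁) = D.zeta (firstRet D.a D.K y₂))
    (e' : D.zeta (firstRet D.a D.K u₁) = D.zeta (firstRet D.a D.K u₂))
    (g₁ : E1 y₁ u₁) (g₂ : E2 y₂ u₂) :
    D.zeta (firstRet D.a D.K y₁) = D.zeta (firstRet D.a D.K u₁) ∧
      E1 (firstRet D.a D.K y₁) (firstRet D.a D.K u₁) ∧
      E2 (firstRet D.a D.K y₂) (firstRet D.a D.K u₂) := by
  have a1 := (h.tau_eq h₁ h₂ t₁ t₂ e).1
  have a2 := (h.tau_eq k₁ k₂ s₁ s₂ e').1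
  have p₁ := firstRet_mem t₁
  have p₂ := firstRet_mem t₂
  have q₁ := firstRet_mem s₁
  have q₂ := firstRet_mem s₂
  have a3 : retTime D.a D.K y₁ = retTime D.a D.K u₁ := by
    rcases lt_trichotomy (retTime D.a D.K y₁) (retTime D.a D.K u₁) with hlt | heq | hlt
    · obtain ⟨i, hi⟩ := Nat.exists_eq_add_of_lt hlt
      have c1 : D.a.symm^[i + 1] (firstRet D.a D.K u₁) = D.a^[retTime D.a D.K y₁] u₁ := by
        rw [firstRet, hi, add_assoc, add_comm _ (i + 1), D.symm_iter]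
      have c2 : D.a.symm^[i + 1] (firstRet D.a D.K u₂) = D.a^[retTime D.a D.K y₂] u₂ := by
        rw [firstRet, ← a2, hi, a1, add_assoc, add_comm _ (i + 1), D.symm_iter]
      have d1 := h.e1F _ _ (h.e1A' g₁ (retTime D.a D.K y₁))
      have d2 := h.e2F _ _ (h.e2A' g₂ (retTime D.a D.K y₂))
      have := (h.rect_time (j := i + 1) q₁ q₂ e' p₁ p₂ (D.zeta_eq_iff.1 e).1 (c1 ▸ d1.1)
        (c1 ▸ d1.2 _ p₁.2.1) (c2 ▸ d2.2 _ p₂.2.1)).1
      rw [c1] at this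
      exact absurd this (notMem_of_lt_retTime t₁ hlt)
    · exact heq
    · obtain ⟨i, hi⟩ := Nat.exists_eq_add_of_lt hlt
      have c1 : D.a.symm^[i + 1] (firstRet D.a D.K y₁) = D.a^[retTime D.a D.K u₁] y₁ := by
        rw [firstRet, hi, add_assoc, add_comm _ (i + 1), D.symm_iter]
      have c2 : D.a.symm^[i + 1] (firstRet D.a D.K y₂) = D.a^[retTime D.a D.K u₂] y₂ := by
        rw [firstRet, ← a1, hi, a2, add_assoc, add_comm _ (i + 1), D.symm_iter]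
      have d1 := h.e1F _ _ (h.e1A' g₁ (retTime D.a D.K u₁))
      have d2 := h.e2F _ _ (h.e2A' g₂ (retTime D.a D.K u₂))
      have := (h.rect_time (j := i + 1) p₁ p₂ e q₁ q₂ (D.zeta_eq_iff.1 e').1
        (c1 ▸ h.symm _ _ d1.1)
        (c1 ▸ (d1.2 _ (h.trans _ _ _ q₁.2.1 (h.symm _ _ d1.1))).symm)
        (c2 ▸ (d2.2 _ (h.trans _ _ _ q₂.2.1 (h.symm _ _ d2.1))).symm)).1
      rw [c1] at this
      exact absurd this (notMem_of_lt_retTime s₁ hlt)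
  have f₁ : E1 (firstRet D.a D.K y₁) (firstRet D.a D.K u₁) := by
    rw [firstRet, firstRet, ← a3]
    exact h.e1A' g₁ _
  have f₂ : E2 (firstRet D.a D.K y₂) (firstRet D.a D.K u₂) := by
    rw [firstRet, firstRet, ← a2, ← a3, a1]
    exact h.e2A' g₂ _
  exact ⟨h.rect_same q₁ q₂ e' p₁ p₂ e f₁ f₂, f₁, f₂⟩

theorem near_pt {y : X} {k : ℕ} (hy : y ∈ D.K) (hk : D.act k (D.zp y)) :
    D.zp (D.a.symm^[k] y) = D.near k (D.zp y) ∧ D.N (D.near k (D.zp y)) (D.a.symm^[k] y) < D.ρ ∧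
    |D.F1 (D.near k (D.zp y)) (D.a.symm^[k] y) -
      D.F1 (D.near k (D.zp y)) (D.a.symm^[k] (D.zp y))| ≤ D.η * D.σ ^ k ∧
    |D.F2 (D.near k (D.zp y)) (D.a.symm^[k] y) -
      D.F2 (D.near k (D.zp y)) (D.a.symm^[k] (D.zp y))| ≤ D.η * D.σ ^ k := by
  obtain ⟨a1, a2, a3⟩ := h.pert _ hk.1 _ hy.1 k y hk.2.1
    (by linarith [hk.2.2, h.rad_le k, h.ρ_pos]) hy.2.1 (h.N_lt hy)
  have a4 : D.N (D.near k (D.zp y)) (D.a.symm^[k] y) < D.ρ := by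
    linarith [(abs_le.1 a1).2, hk.2.2, h.rad_le k, h.eta_le k, h.ρ_pos]
  exact ⟨h.hz _ _ hk.1 (h.trans _ _ _ hk.2.1 (h.relB' hy.2.1 k)) a4, a4, a2, a3⟩

theorem same_of_not_cut {u v : X} {k : ℕ} (hu : u ∈ D.K) (hv : v ∈ D.K) (e : D.zp u = D.zp v)
    (hc : ¬D.cut k (D.zp u)) (hk : D.act k (D.zp u)) : D.Same k (D.zp u) u v := by
  obtain ⟨-, -, a1, a2⟩ := h.near_pt hu hk
  obtain ⟨-, -, b1, b2⟩ := h.near_pt hv (e ▸ hk)
  rw [← e] at b1 b2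
  have c1 := not_le.1 fun h1 => hc ⟨hk, Or.inl h1⟩
  have c2 := not_le.1 fun h1 => hc ⟨hk, Or.inr h1⟩
  exact ⟨(same_side a1 c1).trans (same_side b1 c1).symm,
    (same_side a2 c2).trans (same_side b2 c2).symm⟩

theorem cut_bad {y : X} {k : ℕ} (hy : y ∈ D.K) (hc : D.cut k (D.zp y)) :
    D.a.symm^[k] y ∈ D.Bad ((2 * D.η + 1) * D.σ ^ k) := by
  obtain ⟨a0, -, a1, a2⟩ := h.near_pt hy hc.1
  have a3 := pow_pos h.hσ0 k
  unfold Bad
  rw [mem_ofPred_eq, a0]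
  rcases hc.2 with h1 | h1
  · left
    rw [abs_le] at a1 h1 ⊢
    constructor <;> linarith [a1.1, a1.2, h1.1, h1.2]
  · right
    rw [abs_le] at a2 h1 ⊢
    constructor <;> linarith [a2.1, a2.2, h1.1, h1.2]

theorem inner_of {x y : X} {e : ℕ → ℝ} (hx : x ∈ D.K) (hR : D.R x y)
    (hP : ∀ k, D.a.symm^[k] x ∉ D.Bad (e k))
    (hd : ∀ z' ∈ D.Z0, ∀ k : ℕ, D.R z' (D.a.symm^[k] (D.zp x)) →
      D.N z' (D.a.symm^[k] (D.zp x)) < D.ρ → D.N z' (D.a.symm^[k] x) < D.ρ →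
      |D.F1 z' (D.a.symm^[k] y) - D.F1 z' (D.a.symm^[k] x)| ≤ e k ∧
      |D.F2 z' (D.a.symm^[k] y) - D.F2 z' (D.a.symm^[k] x)| ≤ e k) :
    y ∈ D.K ∧ D.zeta y = D.zeta x := by
  have key : ∀ k, D.act k (D.zp x) → D.Same k (D.zp x) x y := fun k hk => by
    obtain ⟨a0, a1, -⟩ := h.near_pt hx hk
    obtain ⟨b1, b2⟩ := hd _ hk.1 k hk.2.1 (by linarith [hk.2.2, h.rad_le k, h.ρ_pos]) a1
    have c0 := hP k
    unfold Bad at c0
    rw [mem_ofPred_eq, a0, not_or, not_le, not_le] at c0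
    exact ⟨(same_side b1 c0.1).symm, (same_side b2 c0.2).symm⟩
  have a1 := key 0 (h.act_zero hx).1
  rw [Same, (h.act_zero hx).2] at a1
  obtain ⟨b1, b2⟩ := h.memK hx.1 (h.trans _ _ _ hx.2.1 hR) (a1.1.1 hx.2.2.1) (a1.2.1 hx.2.2.2)
  exact ⟨b1, (D.zeta_eq_iff.2 ⟨b2.symm, key⟩).symm⟩

end Good

end BD

end Pool.Agent.P.MP_d483fb_an.Z
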