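import Pool.Agent.P.MP_d483fb_an.Z.LSB.BridgeA
import Pool.Agent.P.MP_d483fb_an.Z.LSB.BoxDefs

/-!
A leaf structure provides the input of the construction of the rectangle partition.
-/

open scoped Matrix Matrix.Norms.Operator Topology
open MeasureTheory Filter Set

noncomputable section

namespace Pool.Agent.P.MP_d483fb_an.Z

namespace Pre

variable {X : Type} [MeasurableSpace X] {μ : Measure X} {ι : Type} [Fintype ι] [DecidableEq ι]
  {S : Pre X μ ι} {J : Set ℝ} {χ : ℝ}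

theorem Temp.exists_level [IsProbabilityMeasure μ] {ε : ℝ} {q : X → ℝ} (_hq : S.Temp ε q) :
    ∃ q0 : ℝ, 1 ≤ q0 ∧ μ {x | q x ≤ q0} ≠ 0 := by
  by_contra hc
  push Not at hc
  have h0 : μ (⋃ k : ℕ, {x | q x ≤ (k : ℝ) + 1}) = 0 :=
    measure_iUnion_null fun k => hc _ (le_add_of_nonneg_left (Nat.cast_nonneg k))
  have hu : (⋃ k : ℕ, {x | q x ≤ (k : ℝ) + 1}) = univ := by
    refine eq_univ_of_forall fun x => mem_iUnion.2 ⟨⌈q x⌉₊, ?_⟩
    exact (Nat.le_ceil (q x)).trans (le_add_of_nonneg_right zero_le_one)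
  rw [hu, measure_univ] at h0
  exact one_ne_zero h0

theorem rpow_back {x y t : ℝ} (hx : 0 ≤ x) (hy : 0 ≤ y) (ht : 0 ≤ t) (k : ℕ)
    (h : x ≤ y * Real.exp (-(k / 2))) : x ^ t ≤ y ^ t * Real.exp (-(t / 2)) ^ k := by
  refine (Real.rpow_le_rpow hx h ht).trans (le_of_eq ?_)
  rw [Real.mul_rpow hy (Real.exp_pos _).le, ← Real.exp_mul, ← Real.exp_nat_mul]
  congr 2
  ring

theorem exp_back_le_one (k : ℕ) : Real.exp (-((k : ℝ) / 2)) ≤ 1 :=
  Real.exp_le_one_iff.2 (by have : (0 : ℝ) ≤ k := Nat.cast_nonneg k; linarith)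

theorem exists_card_bound (a b : ℝ) (ha : 1 ≤ a) (hb : 0 ≤ b) (D : ℕ) :
    ∃ C : ℝ, ∀ t : ℕ, a * (1 + b * Real.exp (2 * t)) ^ D ≤ Real.exp (C * (t + 1)) := by
  have h1 : 1 ≤ a * (1 + b) ^ D := one_le_mul_of_one_le_of_one_le ha (one_le_pow₀ (by linarith))
  refine ⟨Real.log (a * (1 + b) ^ D) + 2 * D, fun t => ?_⟩
  have t0 : (0 : ℝ) ≤ t := Nat.cast_nonneg t
  have D0 : (0 : ℝ) ≤ D := Nat.cast_nonneg D
  have e1 : 1 ≤ Real.exp (2 * t) := Real.one_le_exp (by linarith)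
  have hl := Real.log_nonneg h1
  calc a * (1 + b * Real.exp (2 * t)) ^ D ≤ a * ((1 + b) * Real.exp (2 * t)) ^ D := by
        gcongr
        nlinarith
    _ = Real.exp (Real.log (a * (1 + b) ^ D) + D * (2 * t)) := by
        rw [Real.exp_add, Real.exp_log (by linarith), Real.exp_nat_mul, mul_pow, mul_assoc]
    _ ≤ _ := Real.exp_le_exp.2 (by nlinarith)

end Pre

open Pre Wt

variable {X : Type} [MeasurableSpace X] [StandardBorelSpace X] {μ : Measure X}
  [IsProbabilityMeasure μ] {ι : Type} [Fintype ι] [DecidableEq ι]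

theorem LS.exists_boxPre (S : LS X μ ι) {J : Set ℝ} {χ : ℝ} (hJ : J.OrdConnected)
    (hχ : Wt.Extreme J χ) : ∃ (Z0 : Set X) (ρ c r0 η σ : ℝ),
      BoxPre μ S.toPre.aE S.X0 (S.toPre.RJ J) S.toPre.N
        (fun x y => S.w.N (S.w.pr χ (S.toPre.n x y))) (fun x y => S.w.N (S.w.al χ (S.toPre.n x y)))
        (fun x y => S.w.pr χ (S.toPre.n x y)) (fun x y => S.w.al χ (S.toPre.n x y))
        (S.toPre.RJ (J \ {χ})) (S.toPre.RJ (J ∩ {χ})) Z0 ρ c r0 η σ := by
  obtain ⟨P, htemp⟩ := S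
  simp only
  have hC := P.w.one_le_C
  have C0 := P.w.C_pos
  obtain ⟨q, hq, hb, hbox⟩ := htemp (12 * P.w.C)⁻¹ (by positivity)
  obtain ⟨q0, q1, hq0⟩ := hq.exists_level
  obtain ⟨A0, A01, hCE⟩ := hq.exists_CE hb rfl q0
  obtain ⟨A, hA⟩ : ∃ A, A = A0 * q0 ^ (3 * P.w.C) := ⟨_, rfl⟩
  have A1 : 1 ≤ A := hA ▸ one_le_mul_of_one_le_of_one_le A01 (Real.one_le_rpow q1 (by positivity))
  have hAq : ∀ z, q z ≤ q0 → A0 * q z ^ (3 * P.w.C) ≤ A := fun z hz => by
    have := hq.pos z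
    rw [hA]
    gcongr
  obtain ⟨K, K1, hK⟩ := P.w.exists_pert hχ
  obtain ⟨t, ht⟩ : ∃ t, t = P.w.th * P.w.th := ⟨_, rfl⟩
  rw [← ht] at hK
  have t0 : 0 < t := ht ▸ mul_pos P.w.th_pos P.w.th_pos
  obtain ⟨σ, hσ⟩ : ∃ σ, σ = Real.exp (-(t / 2)) := ⟨_, rfl⟩
  have σ0 : 0 < σ := hσ ▸ Real.exp_pos _
  have σ1 : σ < 1 := hσ ▸ Real.exp_lt_one_iff.2 (by linarith)
  have C2 : 1 ≤ P.w.C ^ 2 := one_le_pow₀ hC
  have C5 : 1 ≤ P.w.C ^ 5 := one_le_pow₀ hC
  obtain ⟨ρ, hρ⟩ : ∃ ρ, ρ = (2 * (P.w.C ^ 2 * A))⁻¹ := ⟨_, rfl⟩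
  have CA : 1 ≤ P.w.C ^ 2 * A := one_le_mul_of_one_le_of_one_le C2 A1
  have ρ0 : 0 < ρ := by rw [hρ]; positivity
  have ρ1 : ρ ≤ 1 := hρ ▸ inv_le_one_of_one_le₀ (by linarith)
  have ρe : P.w.C ^ 2 * A * ρ = 1 / 2 := by rw [hρ]; field_simp
  obtain ⟨η, hη⟩ : ∃ η, η = ρ / 4 * (1 - σ) := ⟨_, rfl⟩
  have η0 : 0 < η := hη ▸ mul_pos (by linarith) (by linarith)
  have η1 : η ≤ 1 := by rw [hη]; nlinarith
  obtain ⟨m, hm⟩ : ∃ m, m = (η / K) ^ t⁻¹ := ⟨_, rfl⟩
  have m0 : 0 < m := by rw [hm]; positivity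
  have m1 : m ≤ 1 := hm ▸ Real.rpow_le_one (by positivity)
    ((div_le_one (by linarith)).2 (by linarith)) (by positivity)
  have me : K * m ^ t = η := by
    rw [hm, Real.rpow_inv_rpow (by positivity) t0.ne']
    field_simp
  obtain ⟨c, c0, c1, c2⟩ : ∃ c, 0 < c ∧ c ≤ ρ / 4 ∧ 2 * A * c ≤ m := by
    refine ⟨min (ρ / 4) (m / (2 * A)), by positivity, min_le_left _ _, ?_⟩
    rw [← le_div_iff₀' (by positivity)]
    exact min_le_right _ _
  obtain ⟨r0, hr0⟩ : ∃ r0, r0 = c / (8 * (A * P.w.C ^ 5)) := ⟨_, rfl⟩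
  have r00 : 0 < r0 := by rw [hr0]; positivity
  have r0e : A * P.w.C ^ 5 * r0 = c / 8 := by rw [hr0]; field_simp
  have r0C : P.w.C * (2 * r0) ≤ c / 4 := by
    have : P.w.C ≤ A * P.w.C ^ 5 := (le_self_pow₀ hC (by norm_num)).trans
      (le_mul_of_one_le_left (by positivity) A1)
    nlinarith
  obtain ⟨K0, lab, mK0, pK0, mlab, hK0, hlab⟩ := hbox q0 hq0 (r0 / (2 * P.w.C ^ 2)) (by positivity) 1
  obtain ⟨Z0, mZ0, sZ0, sep0, aeZ⟩ := P.exists_ref hJ mK0 mlab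
    fun y hy y' hy' e => ((hlab y hy y' hy').1 e).1
  have qZ : ∀ z ∈ Z0, q z ≤ q0 := fun z hz => (hK0 z (sZ0 hz)).2
  have sep : ∀ z ∈ Z0, ∀ z' ∈ Z0, P.RJ J z z' → P.N z z' ≤ 1 → z = z' := fun z hz z' hz' r h =>
    sep0 z hz z' hz' ((hlab z (sZ0 hz) z' (sZ0 hz')).2 r.1 h) r
  have ball : ∀ z y, P.RJ J z y → P.w.N (P.w.pr χ (P.n z y)) < 2 * r0 →
      P.w.N (P.w.al χ (P.n z y)) < 2 * r0 → P.N z y ≤ P.w.C * (2 * r0) :=
    fun z y r h1 h2 => r.2.N_le_of_pr_al h2.le h1.le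
  have gJ : ∀ {z z' y : X} {j : ℕ}, P.R z (P.a (-j) z') → P.RJ J z' y →
      P.w.Nil J (P.Lq z z' j * P.n z' y * (P.Lq z z' j)⁻¹) :=
    fun r r' => r'.2.conj_inv (Lq_lev r) (isUnit_Lq r)
  have CE1 : ∀ z ∈ Z0, ∀ z' ∈ Z0, ∀ (j : ℕ) (y : X), P.R z (P.a (-j) z') → P.R z' y →
      P.w.N (P.Lq z z' j * P.n z' y * (P.Lq z z' j)⁻¹) ≤
        A * (1 + P.N z (P.a (-j) z')) * (Real.exp (-(j / 2)) * P.N z' y) := by
    intro z hz z' hz' j y r r'
    have := P.N_nonneg z (P.a (-j) z')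
    have := P.N_nonneg z' y
    have := hAq z' (qZ z' hz')
    refine (hCE z z' j (qZ z hz) r _ (n_nil r')).1.trans ?_
    change _ * (_ * P.N z' y) ≤ _
    gcongr
  refine ⟨Z0, ρ, c, r0, η, σ,
    { erg := P.ergodic_aE
      measR := P.measurableSet_RJ J
      measN := P.measurable_N
      measF1 := P.w.measurable_N.comp (measurable_pr.comp P.measurable_n)
      measF2 := P.w.measurable_N.comp (measurable_al.comp P.measurable_n)
      measZ := mZ0
      mem0 := fun x y r => ⟨R_mem_left r.1, R_mem_right r.1⟩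
      refl := fun x hx => RJ.refl hx
      symm := fun x y r => r.symm hJ
      trans := fun x y z r r' => r.trans hJ r'
      relA := fun x y r => r.f (1, 0)
      relB := fun x y r => r.f (-1, 0)
      hr0 := r00
      hc0 := c0
      hc := c1
      hρ := ρ1
      hσ0 := σ0
      hσ1 := σ1
      hη0 := η0.le
      hη := hη.le
      self := fun x hx => N_self hx
      uniq := ?_
      ball := fun z y r h1 h2 => (ball z y r h1 h2).trans_lt (by linarith)
      far := ?_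
      pert := ?_
      inn := ?_
      e1s := ?_
      e2s := ?_
      e1A := fun x y r => r.f (1, 0)
      e2A := fun x y r => r.f (1, 0)
      e1B := fun x y r => r.f (-1, 0)
      e2B := fun x y r => r.f (-1, 0)
      e1F := ?_
      e2F := ?_
      cel := ?_
      pos := ?_ }⟩
  · intro z hz z' hz' y r r' h h'
    have rz : P.RJ J z z' := r.trans hJ (r'.symm hJ)
    have e0 : P.a (-((0 : ℕ) : ℤ)) z' = z' := by simp [a_zero]
    have r0' : P.R z (P.a (-((0 : ℕ) : ℤ)) z') := by rw [e0]; exact rz.1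
    have e1 := n_back r0' r'.1
    have b1 := CE1 z hz z' hz' 0 y r0' r'.1
    have hg := gJ r0' r'
    have e2 : P.a (-((0 : ℕ) : ℤ)) y = y := by simp [a_zero]
    rw [e0, e2] at e1
    rw [e0, Nat.cast_zero, zero_div, neg_zero, Real.exp_zero, one_mul] at b1
    generalize P.Lq z z' 0 * P.n z' y * (P.Lq z z' 0)⁻¹ = g at e1 b1 hg
    have e3 : P.n z z' = P.n z y * g⁻¹ := by rw [e1, mul_assoc, hg.mul_inv, mul_one]
    have hN := P.N_nonneg z z'
    have b2 : P.w.N g ≤ A * (1 + P.N z z') * ρ := b1.trans (by gcongr)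
    have b3 : ρ ≤ A * (1 + P.N z z') * ρ :=
      le_mul_of_one_le_left ρ0.le (one_le_mul_of_one_le_of_one_le A1 (by linarith))
    have b4 : P.N z z' ≤ P.w.C * (P.w.C * (A * (1 + P.N z z') * ρ)) := by
      conv_lhs => rw [Pre.N, e3]
      exact r.2.N_mul_le (hg.inv hJ)
        (h.le.trans (b3.trans (le_mul_of_one_le_left (ρ0.le.trans b3) hC)))
        (hg.N_inv_le.trans (mul_le_mul_of_nonneg_left b2 C0.le))
    refine sep z hz z' hz' rz ?_
    have : P.w.C * (P.w.C * (A * (1 + P.N z z') * ρ)) = P.w.C ^ 2 * A * ρ * (1 + P.N z z') := by ring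
    rw [this, ρe] at b4
    linarith
  · intro z hz z' hz' j y₁ y₂ r r1 r2 f1 f2 f3 f4 f5 f6
    simp only [aE_symm_iterate] at r f5 f6 ⊢
    rw [n_back r.1 r1.1] at f5
    rw [n_back r.1 r2.1] at f6
    have hN := P.N_nonneg z (P.a (-j) z')
    have ex := exp_back_le_one j
    have bd : ∀ y, P.RJ J z' y → P.N z' y ≤ P.w.C * (2 * r0) →
        P.w.N (P.Lq z z' j * P.n z' y * (P.Lq z z' j)⁻¹) ≤
          A * (1 + P.N z (P.a (-j) z')) * (P.w.C * (2 * r0)) := fun y ry hy => by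
      refine (CE1 z hz z' hz' j y r.1 ry.1).trans (mul_le_mul_of_nonneg_left ?_ (by positivity))
      exact (mul_le_of_le_one_left (P.N_nonneg _ _) ex).trans hy
    have b0 : 2 * r0 ≤ A * (1 + P.N z (P.a (-j) z')) * (P.w.C * (2 * r0)) :=
      (le_mul_of_one_le_left (by linarith) hC).trans (le_mul_of_one_le_left (by positivity)
        (one_le_mul_of_one_le_of_one_le A1 (by linarith)))
    have b1 : P.N z (P.a (-j) z') ≤ _ := N_le_of_far hJ hχ r.2 (gJ r.1 r1) (gJ r.1 r2)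
      (f5.le.trans b0) (bd y₁ r1 (ball _ _ r1 f1 f2)) (f6.le.trans b0) (bd y₂ r2 (ball _ _ r2 f3 f4))
    have : P.w.C ^ 4 * (A * (1 + P.N z (P.a (-j) z')) * (P.w.C * (2 * r0))) =
        2 * (A * P.w.C ^ 5 * r0) * (1 + P.N z (P.a (-j) z')) := by ring
    rw [this, r0e] at b1
    nlinarith
  · intro z' hz' z hz k y r h ry hy
    simp only [aE_symm_iterate] at r h ⊢
    have hN := P.N_nonneg z' (P.a (-k) z)
    have b1 : P.w.N (P.Lq z' z k * P.n z y * (P.Lq z' z k)⁻¹) ≤ m * Real.exp (-(k / 2)) := by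
      refine (CE1 z' hz' z hz k y r.1 ry.1).trans ?_
      have := P.N_nonneg z y
      calc _ ≤ A * 2 * (Real.exp (-(k / 2)) * c) := by gcongr; linarith
        _ = 2 * A * c * Real.exp (-(k / 2)) := by ring
        _ ≤ _ := by gcongr
    have b2 := rpow_back (P.w.N_nonneg _) m0.le t0.le k b1
    have b3 : K * P.w.N (P.Lq z' z k * P.n z y * (P.Lq z' z k)⁻¹) ^ t ≤ η * σ ^ k := by
      rw [← me, hσ, mul_assoc K]
      exact mul_le_mul_of_nonneg_left b2 (by linarith)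
    obtain ⟨p1, p2, p3⟩ := hK _ _ r.2 (gJ r.1 ry) (h.le.trans ρ1)
      (b1.trans (mul_le_one₀ m1 (Real.exp_pos _).le (exp_back_le_one k)))
    rw [← n_back r.1 ry.1] at p1 p2 p3
    exact ⟨p1.trans b3, p2.trans b3, p3.trans b3⟩
  · refine ⟨fun j x => (K * (j + 1))⁻¹ ^ t⁻¹ / (2 * (A0 * q x ^ (3 * P.w.C))), fun j => ?_,
      fun j x _ => ?_, ?_⟩
    · exact measurable_const.div (measurable_const.mul (measurable_const.mul
        (hq.meas.pow_const _)))
    · have := hq.pos x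
      positivity
    intro z' hz' z hz j k x y r1 _ r0' h _ ry hy
    simp only [aE_symm_iterate] at r1 h hy ⊢
    have r : P.RJ J z' (P.a (-k) x) := r1.trans hJ (r0'.a _)
    have hN := P.N_nonneg z' (P.a (-k) x)
    have px := hq.pos x
    obtain ⟨d, hd⟩ : ∃ d : ℝ, d = (K * (j + 1))⁻¹ ^ t⁻¹ := ⟨_, rfl⟩
    have j1 : (1 : ℝ) ≤ j + 1 := le_add_of_nonneg_left (Nat.cast_nonneg j)
    have d0 : 0 < d := by rw [hd]; positivity
    have d1 : d ≤ 1 := hd ▸ Real.rpow_le_one (by positivity)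
      (inv_le_one_of_one_le₀ (one_le_mul_of_one_le_of_one_le K1 j1)) (by positivity)
    have de : K * d ^ t = ((j : ℝ) + 1)⁻¹ := by
      rw [hd, Real.rpow_inv_rpow (by positivity) t0.ne']
      field_simp
    rw [← hd, lt_div_iff₀ (by positivity)] at hy
    have b1 : P.w.N (P.Lq z' x k * P.n x y * (P.Lq z' x k)⁻¹) ≤ d * Real.exp (-(k / 2)) := by
      refine (hCE z' x k (qZ z' hz') r.1 _ (n_nil ry.1)).1.trans ?_
      have := P.N_nonneg x y
      calc _ ≤ A0 * q x ^ (3 * P.w.C) * 2 * (Real.exp (-(k / 2)) * P.N x y) := by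
            change _ * (_ * P.N x y) ≤ _
            gcongr
            linarith
        _ = P.N x y * (2 * (A0 * q x ^ (3 * P.w.C))) * Real.exp (-(k / 2)) := by ring
        _ ≤ _ := by gcongr
    have b2 := rpow_back (P.w.N_nonneg _) d0.le t0.le k b1
    have b3 : K * P.w.N (P.Lq z' x k * P.n x y * (P.Lq z' x k)⁻¹) ^ t ≤ σ ^ k / (j + 1) := by
      rw [div_eq_inv_mul, ← de, hσ, mul_assoc K]
      exact mul_le_mul_of_nonneg_left b2 (by linarith)
    obtain ⟨-, p2, p3⟩ := hK _ _ r.2 (gJ r.1 ry) (h.le.trans ρ1)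
      (b1.trans (mul_le_one₀ d1 (Real.exp_pos _).le (exp_back_le_one k)))
    rw [← n_back r.1 ry.1] at p2 p3
    exact ⟨p2.trans b3, p3.trans b3⟩
  · intro z y y' r r' e
    exact (RJ_iff_chart r.1 r'.1).2 ((pr_eq_iff hχ hJ r.2 r'.2).1 e)
  · intro z y y' r r' e
    exact (RJ_iff_chart r.1 r'.1).2
      (((r.2.inv hJ).mul hJ r'.2).inter ((al_eq_iff hχ r.2 r'.2).1 e))
  · intro y y' r
    refine ⟨r.mono diff_subset, fun x rx => ?_⟩
    have r' := rx.trans hJ (r.mono diff_subset)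
    exact congrArg P.w.N ((pr_eq_iff hχ hJ rx.2 r'.2).2 ((RJ_iff_chart rx.1 r'.1).1 r))
  · intro y y' r
    refine ⟨r.mono inter_subset_left, fun x rx => ?_⟩
    have r' := rx.trans hJ (r.mono inter_subset_left)
    exact congrArg P.w.N ((al_eq_iff hχ rx.2 r'.2).2
      (((RJ_iff_chart rx.1 r'.1).1 r).mono inter_subset_right))
  · have hc := fun t : ℕ => exists_cell (w := P.w) (H := {h | P.w.Nil univ h}) (fun _ h => h)
      (δ := (2 * A * Real.exp (2 * t))⁻¹) (by positivity)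
    choose cell mc hsame hcount using hc
    choose Sf hcard hmem using fun t => hcount t 1 1 Nil.one zero_le_one
    obtain ⟨C', hC'⟩ := exists_card_bound P.w.nC (2 * A) P.w.one_le_nC (by linarith) P.w.pD
    refine ⟨fun t z z' => cell t (P.n z (P.a (-t) z')), Sf, C', fun t => (mc t).comp
      (measurable_n_comp measurable_fst ((P.measurable_a _).comp measurable_snd)), fun t => ?_,
      fun t z z' r h => ?_, fun t z hz z' hz' z'' hz'' r h r' h' e => ?_⟩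
    · have := hcard t
      rw [one_div, inv_inv] at this
      exact this.trans (hC' t)
    · simp only [aE_symm_iterate] at r h
      refine hmem t _ (n_nil r.1) ?_
      rw [inv_one, one_mul]
      exact h.le.trans ρ1
    · simp only [aE_symm_iterate] at r h r' h'
      have rz : P.RJ J z' z'' := (RJ_f_iff _).1 ((r.symm hJ).trans hJ r')
      have b1 := hsame t _ (n_nil r.1) _ (n_nil r'.1) e
      rw [n_back r.1 rz.1, ← mul_assoc, (n_nil r.1).inv_mul, one_mul] at b1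
      refine sep z' hz' z'' hz'' rz ((hCE z z' t (qZ z hz) r.1 _ (n_nil rz.1)).2.trans ?_)
      have := P.N_nonneg z (P.a (-t) z')
      have := hAq z' (qZ z' hz')
      have := P.w.N_nonneg (P.Lq z z' t * P.n z' z'' * (P.Lq z z' t)⁻¹)
      calc _ ≤ A * 2 * (Real.exp (2 * t) * (2 * A * Real.exp (2 * t))⁻¹) := by gcongr; linarith
        _ = 1 := by field_simp
  · refine fun h0 => pK0 (measure_mono_null_ae ?_ h0)
    filter_upwards [aeZ] with y hy hK
    obtain ⟨z, hz, e, r⟩ := hy hK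
    have b1 : P.w.N (P.n z y) ≤ r0 / (2 * P.w.C ^ 2) := ((hlab z (sZ0 hz) y hK).1 e).2
    have b2 : P.w.C ^ 2 * (r0 / (2 * P.w.C ^ 2)) = r0 / 2 := by field_simp
    have b3 : P.w.C ^ 2 * P.w.N (P.n z y) ≤ r0 / 2 := b2 ▸ mul_le_mul_of_nonneg_left b1 (sq_nonneg _)
    have b4 := le_mul_of_one_le_left (P.w.N_nonneg (P.n z y)) C2
    exact ⟨z, hz, r, (N_pr_le _).trans_lt (by linarith), r.2.N_al_le.trans_lt (by linarith)⟩

end Pool.Agent.P.MP_d483fb_an.Z
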