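import Pool.Agent.P.MP_d483fb_an.Z.LS.Basic
import Pool.Agent.P.MP_d483fb_an.Z.Ent.Sel

/-!
Estimates for the construction of the rectangle partition of a leaf structure: codes of cosets,
reference points, perturbation of the sizes, and the change of charts along the past.
-/

open scoped Matrix Matrix.Norms.Operator Topology
open MeasureTheory Filter Set

noncomputable section

namespace Pool.Agent.P.MP_d483fb_an.Z

namespace Wt

variable {ι : Type} [Fintype ι] [DecidableEq ι] {w : Wt ι} {J : Set ℝ} {χ : ℝ}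
  {n g g' h l : Matrix ι ι ℝ}

variable (w) in
/-- A measurable code for the left cosets of `Nil J`. -/
theorem exists_code (hJ : J.OrdConnected) : ∃ code : Matrix ι ι ℝ → Matrix ι ι ℝ × Matrix ι ι ℝ,
    Measurable code ∧ ∀ n n', w.Nil univ n → w.Nil univ n' →
      (code n = code n' ↔ w.Nil J (n⁻¹ * n')) := by
  set U : Set ℝ := {σ | ∀ τ ∈ J, τ < σ} with hUd
  set V : Set ℝ := {σ | ∀ τ ∈ J, σ < τ} with hVd
  have hU : Cut U := Or.inl fun a b hab ha τ hτ => (ha τ hτ).trans_le hab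
  have hV : Cut V := Or.inr fun a b hab ha τ hτ => lt_of_le_of_lt hab (ha τ hτ)
  have hJU : J ⊆ Uᶜ := fun σ hσ h => lt_irrefl _ (h σ hσ)
  have hJV : J ⊆ Vᶜ := fun σ hσ h => lt_irrefl _ (h σ hσ)
  have hUV : Uᶜ \ V ⊆ J := by
    intro σ hσ
    obtain ⟨h1, h2⟩ := hσ
    simp only [hUd, hVd, mem_compl_iff, mem_ofPred_eq, not_forall, not_lt] at h1 h2
    obtain ⟨τ, hτ, h1⟩ := h1
    obtain ⟨τ', hτ', h2⟩ := h2
    exact hJ.out hτ' hτ ⟨h2, h1⟩
  refine ⟨fun n => (w.facL U n, w.facL V (w.facR U n)),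
    (measurable_facL hU).prodMk ((measurable_facL hV).comp (measurable_facR hU)),
    fun n n' hn hn' => ⟨fun e => ?_, fun e => ?_⟩⟩
  · obtain ⟨e1, e2⟩ := Prod.ext_iff.1 e
    simp only at e1 e2
    have d : ∀ m, w.Nil univ m → m = w.facL U m * w.facL V (w.facR U m) * w.facR V (w.facR U m) :=
      fun m hm => by rw [mul_assoc, (hm.facR hU).facL_mul_facR hV, hm.facL_mul_facR hU]
    have k : ∀ m, w.Nil univ m → w.Nil J (w.facR V (w.facR U m)) := fun m hm =>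
      ((hm.facR hU).facR_diff hV hU.compl.ordConnected).mono hUV
    have p : w.Nil univ (w.facL U n * w.facL V (w.facR U n)) :=
      (hn.facL hU).univ.mul ordConnected_univ ((hn.facR hU).facL hV).univ
    have e3 : n⁻¹ * n' = (w.facR V (w.facR U n))⁻¹ * w.facR V (w.facR U n') := by
      conv_lhs => rw [d n hn, d n' hn', ← e1, ← e2]
      rw [Matrix.mul_inv_rev, mul_assoc, ← mul_assoc _ (_ * _), p.inv_mul, one_mul]
    rw [e3]
    exact ((k n hn).inv hJ).mul hJ (k n' hn')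
  · have e3 : n' = n * (n⁻¹ * n') := by rw [← mul_assoc, hn.mul_inv, one_mul]
    rw [e3]
    simp only
    rw [facL_mul_right hU hn (e.mono hJU), facR_mul_right hU hn (e.mono hJU),
      facL_mul_right hV (hn.facR hU) (e.mono hJV)]

theorem N_le_of_far (hJ : J.OrdConnected) (hχ : Extreme J χ) (hn : w.Nil J n) (hg : w.Nil J g)
    (hg' : w.Nil J g') {t : ℝ} (h1 : w.N (w.pr χ (n * g)) ≤ t) (h2 : w.N g ≤ t)
    (h3 : w.N (w.al χ (n * g')) ≤ t) (h4 : w.N g' ≤ t) : w.N n ≤ w.C ^ 4 * t := by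
  have hC := w.one_le_C
  have ht : 0 ≤ t := (w.N_nonneg _).trans h2
  have c1 : t ≤ w.C * t := le_mul_of_one_le_left ht hC
  have e1 : w.pr χ n = w.pr χ (n * g) * (w.pr χ g)⁻¹ := by
    rw [pr_mul hχ hn hg, mul_assoc, hg.pr_same.mul_inv, mul_one]
  have b1 : w.N (w.pr χ n) ≤ w.C * (w.C * t) := by
    rw [e1]
    exact (hn.mul hJ hg).pr_same.N_mul_le (hg.pr_same.inv hJ) (h1.trans c1)
      (hg.pr_same.N_inv_le.trans (mul_le_mul_of_nonneg_left ((N_pr_le g).trans h2) w.C_pos.le))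
  have e2 : n = w.al χ (n * g') * w.pr χ n * (w.al χ g')⁻¹ := by
    rw [al_mul hχ hn hg', mul_assoc _ _ (w.pr χ n), hn.pr_same.inv_mul, mul_one, mul_assoc,
      (hg'.al_same hJ).mul_inv, mul_one]
  have b2 : w.N (w.al χ (n * g') * w.pr χ n) ≤ w.C * (w.C * (w.C * t)) :=
    ((hn.mul hJ hg').al_same hJ).N_mul_le hn.pr_same
      (h3.trans (c1.trans (le_mul_of_one_le_left (ht.trans c1) hC))) b1
  have b3 : w.N (w.al χ g')⁻¹ ≤ w.C * (w.C * (w.C * t)) := by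
    refine (hg'.al_same hJ).N_inv_le.trans (mul_le_mul_of_nonneg_left ?_ w.C_pos.le)
    refine hg'.N_al_le.trans ?_
    rw [← mul_assoc, ← sq]
    exact mul_le_mul_of_nonneg_left h4 (sq_nonneg _)
  rw [e2]
  refine ((((hn.mul hJ hg').al_same hJ).mul hJ hn.pr_same).N_mul_le ((hg'.al_same hJ).inv hJ)
    b2 b3).trans (le_of_eq (by ring))

variable (w) in
theorem exists_pert (hχ : Extreme J χ) : ∃ K, 1 ≤ K ∧
    ∀ n g : Matrix ι ι ℝ, w.Nil J n → w.Nil J g → w.N n ≤ 1 → w.N g ≤ 1 →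
      |w.N (n * g) - w.N n| ≤ K * w.N g ^ (w.th * w.th) ∧
      |w.N (w.pr χ (n * g)) - w.N (w.pr χ n)| ≤ K * w.N g ^ (w.th * w.th) ∧
      |w.N (w.al χ (n * g)) - w.N (w.al χ n)| ≤ K * w.N g ^ (w.th * w.th) := by
  have hC : 1 ≤ w.C ^ 2 := one_le_pow₀ w.one_le_C
  have t0 := w.th_pos
  obtain ⟨K', hK', hc⟩ := w.exists_N_conj (w.C ^ 2)
  obtain ⟨D, hD⟩ : ∃ D, D = K' * (w.C ^ 2) ^ w.th := ⟨_, rfl⟩
  have D0 : 0 ≤ D := hD ▸ mul_nonneg hK' (Real.rpow_nonneg (sq_nonneg _) _)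
  obtain ⟨K5, hK5, h5⟩ := w.exists_N_holder (w.C ^ 2 + D)
  have P0 : 0 ≤ K5 * D ^ w.th := mul_nonneg hK5 (Real.rpow_nonneg D0 _)
  refine ⟨1 + K5 + K5 * D ^ w.th, by linarith, fun n g hn hg h1 h2 => ?_⟩
  have g0 := w.N_nonneg g
  have p0 : 0 ≤ w.N g ^ (w.th * w.th) := Real.rpow_nonneg g0 _
  have p1 : w.N g ^ w.th ≤ w.N g ^ (w.th * w.th) :=
    Real.rpow_le_rpow_of_exponent_ge' g0 h2 (by positivity)
      (mul_le_of_le_one_right t0.le w.th_le_one)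
  have p2 : K5 * w.N g ^ w.th ≤ (1 + K5 + K5 * D ^ w.th) * w.N g ^ (w.th * w.th) :=
    mul_le_mul (by linarith) p1 (Real.rpow_nonneg g0 _) (by linarith)
  refine ⟨(h5 n g hn.univ hg.univ (by linarith) (by linarith)).1.trans p2, ?_, ?_⟩
  · rw [pr_mul hχ hn hg]
    have q1 := N_pr_le (w := w) (χ := χ) n
    have q2 := N_pr_le (w := w) (χ := χ) g
    refine (h5 _ _ hn.pr_same.univ hg.pr_same.univ (by linarith) (by linarith)).1.trans
      (le_trans (mul_le_mul_of_nonneg_left ?_ hK5) p2)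
    exact Real.rpow_le_rpow (w.N_nonneg _) q2 t0.le
  · have e : w.al χ (n * g) = w.al χ n * (w.pr χ n * w.al χ g * (w.pr χ n)⁻¹) := by
      rw [al_mul hχ hn hg, ← mul_assoc, ← mul_assoc, hn.al_mul_pr]
    have q1 : w.N (w.al χ n) ≤ w.C ^ 2 := hn.N_al_le.trans (mul_le_of_le_one_right (sq_nonneg _) h1)
    have q2 : w.N (w.al χ g) ≤ w.C ^ 2 := hg.N_al_le.trans (mul_le_of_le_one_right (sq_nonneg _) h2)
    have q3 : w.N (w.pr χ n * w.al χ g * (w.pr χ n)⁻¹) ≤ D * w.N g ^ w.th := by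
      refine (hc _ _ hn.pr_same.univ hg.al_univ (((N_pr_le n).trans h1).trans hC) q2).trans ?_
      rw [hD, mul_assoc, ← Real.mul_rpow (sq_nonneg _) g0]
      exact mul_le_mul_of_nonneg_left (Real.rpow_le_rpow (w.N_nonneg _) hg.N_al_le t0.le) hK'
    have q4 : D * w.N g ^ w.th ≤ D := mul_le_of_le_one_right D0 (Real.rpow_le_one g0 h2 t0.le)
    have hn2 : w.Nil univ (w.pr χ n * w.al χ g * (w.pr χ n)⁻¹) :=
      (hn.pr_same.univ.mul ordConnected_univ hg.al_univ).mul ordConnected_univ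
        (hn.pr_same.univ.inv ordConnected_univ)
    rw [e]
    refine (h5 _ _ hn.al_univ hn2 (by linarith) (by linarith)).1.trans ?_
    refine (mul_le_mul_of_nonneg_left (Real.rpow_le_rpow (w.N_nonneg _) q3 t0.le) hK5).trans ?_
    rw [Real.mul_rpow D0 (Real.rpow_nonneg g0 _), ← Real.rpow_mul g0, ← mul_assoc]
    exact mul_le_mul_of_nonneg_right (by linarith) p0

/-- Two sided estimate for the conjugation by a block diagonal matrix close to a dilation. -/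
theorem N_conj_two (hl : w.Lev l) (hu : IsUnit l.det) {s B : ℝ} (hB : 1 ≤ B)
    (h1 : ‖l * w.dil (-s) 0‖ ≤ B) (h2 : ‖w.dil s 0 * l⁻¹‖ ≤ B) (hh : w.Nil J h) :
    w.N (l * h * l⁻¹) ≤ w.C * B ^ w.C * (Real.exp s * w.N h) ∧
      Real.exp s * w.N h ≤ w.C * B ^ w.C * w.N (l * h * l⁻¹) := by
  have e0 : w.dil (-s) 0 * w.dil s 0 = 1 := by simpa using w.dil_neg_mul s 0
  have e0' : w.dil s 0 * w.dil (-s) 0 = 1 := by simpa using w.dil_mul_neg s 0
  have l1 := hl.mul (w.dil_lev (-s) 0)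
  have l2 := (w.dil_lev s 0).mul hl.inv
  have hd : w.Nil J (w.dil s 0 * h * w.dil (-s) 0) := hh.conj (w.dil_lev _ _) (w.dil_lev _ _) e0'
  rw [← N_dil]
  constructor
  · have e : l * h * l⁻¹ = l * w.dil (-s) 0 * (w.dil s 0 * h * w.dil (-s) 0) * (w.dil s 0 * l⁻¹) := by
      simp only [mul_assoc]
      rw [← mul_assoc (w.dil (-s) 0) (w.dil s 0) l⁻¹, e0, one_mul, ← mul_assoc (w.dil (-s) 0), e0,
        one_mul]
    rw [e]
    exact hd.N_conj_le l1 l2 hB h1 h2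
  · have e : w.dil s 0 * h * w.dil (-s) 0 = w.dil s 0 * l⁻¹ * (l * h * l⁻¹) * (l * w.dil (-s) 0) := by
      simp only [mul_assoc]
      rw [← mul_assoc l⁻¹ l (w.dil _ _), Matrix.nonsing_inv_mul _ hu, one_mul, ← mul_assoc l⁻¹,
        Matrix.nonsing_inv_mul _ hu, one_mul]
    rw [e]
    exact (hh.conj_inv hl hu).N_conj_le l2 l1 hB h2 h1

end Wt

namespace Pre

variable {X : Type} [MeasurableSpace X] {μ : Measure X} {ι : Type} [Fintype ι] [DecidableEq ι]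
  {S : Pre X μ ι} {x y z z' : X} {J : Set ℝ}

variable (S) in
/-- Reference points: one point in almost every plaque of the subrelation. -/
theorem exists_ref [StandardBorelSpace X] [IsProbabilityMeasure μ] (hJ : J.OrdConnected)
    {K0 : Set X} {lab : X → ℕ → ℝ} (hK : MeasurableSet K0) (hl : Measurable lab)
    (hR : ∀ y ∈ K0, ∀ y' ∈ K0, lab y = lab y' → S.R y y') :
    ∃ Z0 : Set X, MeasurableSet Z0 ∧ Z0 ⊆ K0 ∧
      (∀ z ∈ Z0, ∀ z' ∈ Z0, lab z = lab z' → S.RJ J z z' → z = z') ∧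
      ∀ᵐ y ∂μ, y ∈ K0 → ∃ z ∈ Z0, lab z = lab y ∧ S.RJ J z y := by
  have : Nonempty X := nonempty_of_isProbabilityMeasure μ
  obtain ⟨code, hcm, hcode⟩ := S.w.exists_code hJ
  obtain ⟨w0, hw0, h0⟩ := exists_sel μ hl hK (X' := univ) (by simp)
  set K1 : Set X := {y | y ∈ K0 ∧ lab (w0 (lab y)) = lab y ∧ w0 (lab y) ∈ K0} with hK1
  have mK1 : MeasurableSet K1 :=
    hK.inter ((measurableSet_eq_fun (hl.comp (hw0.comp hl)) hl).inter ((hw0.comp hl) hK))
  set lb : X → (ℕ → ℝ) × Matrix ι ι ℝ × Matrix ι ι ℝ :=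
    fun y => (lab y, code (S.n (w0 (lab y)) y)) with hlb
  have mlb : Measurable lb :=
    hl.prodMk (hcm.comp (measurable_n_comp (hw0.comp hl) measurable_id))
  have key : ∀ y ∈ K1, ∀ y' ∈ K1, lb y = lb y' ↔ lab y = lab y' ∧ S.RJ J y y' := by
    intro y hy y' hy'
    simp only [hlb, Prod.ext_iff (x := (lab y, _))]
    refine and_congr_right fun e => ?_
    have r1 := hR _ hy.2.2 _ hy.1 hy.2.1
    have r2 := hR _ hy'.2.2 _ hy'.1 hy'.2.1
    rw [← e] at r2 ⊢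
    rw [hcode _ _ (n_nil r1) (n_nil r2), RJ_iff_chart r1 r2]
  obtain ⟨w1, hw1, h1⟩ := exists_sel μ mlb mK1 (X' := univ) (by simp)
  refine ⟨{z | z ∈ K1 ∧ w1 (lb z) = z},
    mK1.inter (measurableSet_eq_fun (hw1.comp mlb) measurable_id), fun z hz => hz.1.1,
    fun z hz z' hz' e r => ?_, ?_⟩
  · rw [← hz.2, ← hz'.2, (key z hz.1 z' hz'.1).2 ⟨e, r⟩]
  · filter_upwards [h0, h1] with y a0 a1 hy
    have hy1 : y ∈ K1 := ⟨hy, (a0 hy).1, (a0 hy).2.1⟩
    obtain ⟨b1, b2, -⟩ := a1 hy1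
    exact ⟨w1 (lb y), ⟨b2, by rw [b1]⟩, (key _ b2 _ hy1).1 b1⟩

variable (S) in
/-- The block diagonal part of the change from the chart at `z'` to the chart at `z`, after `j`
steps in the past. -/
def Lq (z z' : X) (j : ℕ) : Matrix ι ι ℝ := S.l z (S.a (-j) z') * S.La (-j) z'

theorem Lq_lev {j : ℕ} (h : S.R z (S.a (-j) z')) : S.w.Lev (S.Lq z z' j) :=
  (S.l_lev _ _).mul (La_lev ((S.f_mem_iff _ _).1 (R_mem_right h)) _)

theorem isUnit_Lq {j : ℕ} (h : S.R z (S.a (-j) z')) : IsUnit (S.Lq z z' j).det := by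
  rw [Lq, Matrix.det_mul]
  exact (isUnit_l h).mul (isUnit_La ((S.f_mem_iff _ _).1 (R_mem_right h)) _)

theorem n_back {j : ℕ} (h : S.R z (S.a (-j) z')) (h' : S.R z' y) :
    S.n z (S.a (-j) y) = S.n z (S.a (-j) z') * (S.Lq z z' j * S.n z' y * (S.Lq z z' j)⁻¹) := by
  rw [n_trans h (R_a h' _), n_a h', Lq, Matrix.mul_inv_rev]
  simp only [mul_assoc]

/-- The main estimate. -/
theorem Temp.exists_CE {ε : ℝ} {q : X → ℝ} (hq : S.Temp ε q) (hb : S.Bd q)
    (hε : ε = (12 * S.w.C)⁻¹) (q0 : ℝ) : ∃ A, 1 ≤ A ∧ ∀ (z z' : X) (j : ℕ), q z ≤ q0 →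
      S.R z (S.a (-j) z') → ∀ h, S.w.Nil univ h →
      S.w.N (S.Lq z z' j * h * (S.Lq z z' j)⁻¹) ≤
          A * q z' ^ (3 * S.w.C) * (1 + S.N z (S.a (-j) z')) * (Real.exp (-(j / 2)) * S.w.N h) ∧
        S.w.N h ≤ A * q z' ^ (3 * S.w.C) * (1 + S.N z (S.a (-j) z')) *
          (Real.exp (2 * j) * S.w.N (S.Lq z z' j * h * (S.Lq z z' j)⁻¹)) := by
  have hC := S.w.one_le_C
  have C0 := S.w.C_pos
  have ε0 : 0 < ε := by rw [hε]; positivity
  have εC : ε * S.w.C = 1 / 12 := by rw [hε]; field_simp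
  obtain ⟨Q, hQ1, hQ⟩ : ∃ Q, 1 ≤ Q ∧ q0 ≤ Q := ⟨max 1 q0, le_max_left _ _, le_max_right _ _⟩
  obtain ⟨K1, hK1⟩ : ∃ K1, K1 = Q ^ 2 * (Real.exp (6 * ε) * (S.w.C * Q ^ S.w.C) ^ (12 * ε)) :=
    ⟨_, rfl⟩
  have hQC : 1 ≤ S.w.C * Q ^ S.w.C :=
    one_le_mul_of_one_le_of_one_le hC (Real.one_le_rpow hQ1 C0.le)
  have K11 : 1 ≤ K1 := hK1 ▸ one_le_mul_of_one_le_of_one_le (one_le_pow₀ hQ1)
    (one_le_mul_of_one_le_of_one_le (Real.one_le_exp (by positivity))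
      (Real.one_le_rpow hQC (by positivity)))
  refine ⟨S.w.C * K1 ^ S.w.C, one_le_mul_of_one_le_of_one_le hC (Real.one_le_rpow K11 C0.le),
    fun z z' j hz hR h hh => ?_⟩
  have hz' : z' ∈ S.X0 := (S.f_mem_iff _ _).1 (R_mem_right hR)
  set u := S.a (-j) z' with hu
  have hN := S.N_nonneg z u
  have j0 : (0 : ℝ) ≤ j := Nat.cast_nonneg j
  have hj : |(((-j : ℤ)) : ℝ)| = j := by simp
  set E := Real.exp (ε * j) with hE
  have E1 : 1 ≤ E := Real.one_le_exp (by positivity)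
  have pz := hq.pos z
  have pz' := hq.one_le z'
  have pu := hq.pos u
  have qu : q u ≤ q z' * E := by
    have := hq.slow z' hz' (-j)
    rwa [hj] at this
  obtain ⟨g1, g2⟩ := hq.grow z' hz' (((-j : ℤ) : ℝ), 0)
  rw [norm_int_prod, hj] at g1 g2
  simp only [neg_zero] at g1 g2
  obtain ⟨b1, b2⟩ := hq.norm_l_le hb ε0.le (by linarith [mul_comm ε S.w.C]) hR
  obtain ⟨P, hP⟩ : ∃ P, P = (1 + S.N z u) ^ (12 * ε) := ⟨_, rfl⟩
  have P1 : 1 ≤ P := hP ▸ Real.one_le_rpow (by linarith) (by positivity)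
  have b0 : (q z * q u) ^ 2 * (Real.exp (6 * ε) *
      (S.w.C * q z ^ S.w.C * (1 + S.N z u)) ^ (12 * ε)) ≤ K1 * P * (q z' * E) ^ 2 := by
    have hzQ := hz.trans hQ
    calc _ ≤ (Q * (q z' * E)) ^ 2 * (Real.exp (6 * ε) *
          (S.w.C * Q ^ S.w.C * (1 + S.N z u)) ^ (12 * ε)) := by gcongr
      _ = _ := by
        rw [Real.mul_rpow (by linarith) (by linarith), hK1, hP]
        ring
  have qE : 1 ≤ q z' * E := one_le_mul_of_one_le_of_one_le pz' E1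
  have KP : 1 ≤ K1 * P := one_le_mul_of_one_le_of_one_le K11 P1
  have hB : 1 ≤ K1 * P * (q z' * E) ^ 3 := one_le_mul_of_one_le_of_one_le KP (one_le_pow₀ qE)
  have n1 : ‖S.Lq z z' j * S.w.dil (-((-j : ℤ) : ℝ)) 0‖ ≤ K1 * P * (q z' * E) ^ 3 := by
    rw [Lq, mul_assoc]
    refine (norm_mul_le _ _).trans ((mul_le_mul (b1.trans b0) g1 (norm_nonneg _)
      (by positivity)).trans (le_of_eq (by ring)))
  have n2 : ‖S.w.dil ((-j : ℤ) : ℝ) 0 * (S.Lq z z' j)⁻¹‖ ≤ K1 * P * (q z' * E) ^ 3 := by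
    rw [Lq, Matrix.mul_inv_rev, ← mul_assoc, l_inv hR]
    refine (norm_mul_le _ _).trans ((mul_le_mul g2 (b2.trans b0) (norm_nonneg _)
      (by positivity)).trans (le_of_eq (by ring)))
  obtain ⟨c1, c2⟩ := Wt.N_conj_two (Lq_lev hR) (isUnit_Lq hR) hB n1 n2 hh
  have eB : (K1 * P * (q z' * E) ^ 3) ^ S.w.C =
      K1 ^ S.w.C * q z' ^ (3 * S.w.C) * (1 + S.N z u) * Real.exp (j / 4) := by
    have e1 : P ^ S.w.C = 1 + S.N z u := by
      rw [hP, ← Real.rpow_mul (by linarith), mul_assoc, εC]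
      norm_num
    have e2 : (E ^ 3) ^ S.w.C = Real.exp (j / 4) := by
      rw [hE, ← Real.exp_nat_mul, ← Real.exp_mul]
      congr 1
      have : ((3 : ℕ) : ℝ) * (ε * j) * S.w.C = 3 * j * (ε * S.w.C) := by push_cast; ring
      rw [this, εC]
      ring
    have e3 : (q z' ^ 3) ^ S.w.C = q z' ^ (3 * S.w.C) := by
      rw [Real.rpow_mul (by linarith)]
      norm_cast
    rw [mul_pow, Real.mul_rpow (by positivity) (by positivity), Real.mul_rpow (by positivity)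
      (by positivity), Real.mul_rpow (by positivity) (by positivity), e1, e2, e3]
    ring
  rw [eB, Int.cast_neg, Int.cast_natCast] at c1 c2
  obtain ⟨W, hW⟩ : ∃ W, W = S.w.C * K1 ^ S.w.C * q z' ^ (3 * S.w.C) * (1 + S.N z u) := ⟨_, rfl⟩
  have W0 : 0 ≤ W := by rw [hW]; positivity
  have h0 := S.w.N_nonneg h
  have h0' := S.w.N_nonneg (S.Lq z z' j * h * (S.Lq z z' j)⁻¹)
  rw [← hW]
  constructor
  · refine c1.trans ?_
    have : Real.exp (j / 4) * Real.exp (-j) ≤ Real.exp (-(j / 2)) := by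
      rw [← Real.exp_add]
      exact Real.exp_le_exp.2 (by linarith)
    calc _ = W * (Real.exp (j / 4) * Real.exp (-j) * S.w.N h) := by rw [hW]; ring
      _ ≤ _ := by gcongr
  · have c3 := mul_le_mul_of_nonneg_left c2 (Real.exp_pos j).le
    rw [← mul_assoc, ← Real.exp_add, add_neg_cancel, Real.exp_zero, one_mul] at c3
    refine c3.trans ?_
    have : Real.exp j * Real.exp (j / 4) ≤ Real.exp (2 * j) := by
      rw [← Real.exp_add]
      exact Real.exp_le_exp.2 (by linarith)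
    calc _ = W * (Real.exp j * Real.exp (j / 4) * S.w.N (S.Lq z z' j * h * (S.Lq z z' j)⁻¹)) := by
          rw [hW]; ring
      _ ≤ _ := by gcongr

end Pre

end Pool.Agent.P.MP_d483fb_an.Z
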