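import Pool.Agent.P.MP_d483fb_an.Z.LSB.LeafEx
import Pool.Agent.P.MP_d483fb_an.Z.LSB.BoxDefs

/-!
Leafwise measures from an increasing partition of a set of positive measure.
-/

namespace Pool.Agent.P.MP_d483fb_an.Z

open MeasureTheory ProbabilityTheory Set Filter
open scoped ENNReal

variable {X M : Type*} [MeasurableSpace X] {μ : Measure X} [IsFiniteMeasure μ]

theorem ae_frequently_of_ergodic {T : X → X} (hT : Ergodic T μ) {A : Set X}
    (hA : MeasurableSet A) (h0 : μ A ≠ 0) : ∀ᵐ x ∂μ, ∃ᶠ n in atTop, T^[n] x ∈ A := by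
  filter_upwards [ae_visit_of_ergodic hT hA h0,
    hT.toMeasurePreserving.conservative.ae_forall_image_mem_imp_frequently_image_mem
      hA.nullMeasurableSet] with x ⟨n, hn⟩ h
  exact h n hn

omit [IsFiniteMeasure μ] in
theorem exists_piece_ne_zero {Y : Set X} (h0 : μ Y ≠ 0) {P : ℕ → X → Prop}
    (h : ∀ x ∈ Y, ∃ j, P j x) : ∃ j, μ (Y ∩ {x | P j x}) ≠ 0 := by
  by_contra hc
  refine h0 (measure_mono_null (t := ⋃ j, Y ∩ {x | P j x}) (fun x hx => ?_)
    (measure_iUnion_null fun j => not_not.1 fun h1 => hc ⟨j, h1⟩))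
  obtain ⟨j, hj⟩ := h x hx
  exact mem_iUnion.2 ⟨j, hx, hj⟩

/-- The time since the last visit to `K`. -/
noncomputable def lastVis (a : X ≃ᵐ X) (K : Set X) (x : X) : ℕ := sInf {j | a.symm^[j] x ∈ K}

variable {a : X ≃ᵐ X} {K : Set X}

theorem lastVis_of_mem {x : X} (hx : x ∈ K) : lastVis a K x = 0 :=
  Nat.sInf_eq_zero.2 (Or.inl hx)

theorem lastVis_mem {x : X} (hx : ∃ j, a.symm^[j] x ∈ K) : a.symm^[lastVis a K x] x ∈ K :=
  Nat.sInf_mem (s := {j | a.symm^[j] x ∈ K}) hx

theorem lastVis_succ {x : X} (hx : ∃ j, a.symm^[j] x ∈ K) (h : a x ∉ K) :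
    lastVis a K (a x) = lastVis a K x + 1 := by
  have h1 : ∀ j, a.symm^[j + 1] (a x) = a.symm^[j] x := fun j => by
    rw [Function.iterate_succ_apply, a.symm_apply_apply]
  refine le_antisymm (Nat.sInf_le (show _ ∈ K from h1 _ ▸ lastVis_mem hx)) ?_
  have h2 := lastVis_mem (a := a) (x := a x) ⟨_, h1 _ ▸ lastVis_mem hx⟩
  generalize lastVis a K (a x) = m at h2
  cases m with
  | zero => exact absurd h2 h
  | succ m => exact Nat.succ_le_succ (Nat.sInf_le (show _ ∈ K from h1 m ▸ h2))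

theorem firstRet_lastVis {x : X} (h : a x ∈ K) :
    firstRet a K (a.symm^[lastVis a K x] x) = a x := by
  have h1 : ∀ i j, a^[i] (a.symm^[j + i] x) = a.symm^[j] x := fun i j => by
    rw [add_comm, Function.iterate_add_apply, iterate_apply_symm]
  have h2 : a^[lastVis a K x + 1] (a.symm^[lastVis a K x] x) = a x := by
    rw [Function.iterate_succ_apply', iterate_apply_symm]
  have h3 : retTime a K (a.symm^[lastVis a K x] x) = lastVis a K x + 1 := by
    refine retTime_eq_succ.2 ⟨fun i h0 hi hm => ?_, h2 ▸ h⟩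
    obtain ⟨j, hj⟩ := Nat.exists_eq_add_of_le' hi
    rw [hj, h1] at hm
    have : lastVis a K x ≤ j := Nat.sInf_le hm
    omega
  rw [firstRet, h3, h2]

theorem measurable_lastVis (hK : MeasurableSet K) : Measurable (lastVis a K) := by
  have hm : ∀ j, MeasurableSet {x | a.symm^[j] x ∈ K} := fun j => a.symm.measurable.iterate j hK
  refine measurable_to_countable' fun n => ?_
  have : lastVis a K ⁻¹' {n} = ({x | a.symm^[n] x ∈ K} ∩ ⋂ j, ⋂ _ : j < n, {x | a.symm^[j] x ∈ K}ᶜ) ∪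
      ((⋂ j, {x | a.symm^[j] x ∈ K}ᶜ) ∩ {_x | n = 0}) := by
    ext x
    simp only [mem_preimage, mem_singleton_iff, mem_union, mem_inter_iff, mem_iInter,
      mem_compl_iff, mem_ofPred_eq]
    by_cases hx : ∃ j, a.symm^[j] x ∈ K
    · refine ⟨fun h => Or.inl ⟨h ▸ lastVis_mem hx, fun j hj h1 => ?_⟩, ?_⟩
      · have : lastVis a K x ≤ j := Nat.sInf_le h1
        omega
      · rintro (⟨h1, h2⟩ | ⟨h1, -⟩)
        · exact le_antisymm (Nat.sInf_le h1) (not_lt.1 fun h => h2 _ h (lastVis_mem hx))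
        · exact absurd hx.choose_spec (h1 _)
    · have h0 : lastVis a K x = 0 :=
        Nat.sInf_eq_zero.2 (Or.inr (eq_empty_of_forall_notMem fun j hj => hx ⟨j, hj⟩))
      exact ⟨fun h => Or.inr ⟨fun j hj => hx ⟨j, hj⟩, h ▸ h0⟩,
        fun h => h.elim (fun h => absurd ⟨n, h.1⟩ hx) fun h => h.2 ▸ h0⟩
  rw [this]
  exact ((hm n).inter (.iInter fun j => .iInter fun _ => (hm j).compl)).union
    ((MeasurableSet.iInter fun j => (hm j).compl).inter (.const _))

open Classical in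
/-- The label on the whole space attached to an increasing partition of `K`. -/
theorem Box.exists_nest {X0 : Set X} {R : X → X → Prop} {N : X → X → ℝ} {s al : X → X → M}
    {zeta : X → BoxLab X} {d : X → ℕ} {del : X → ℝ} {Y : Set X}
    (hb : Box μ a X0 R N s al K zeta d del Y) (herg : Ergodic a μ)
    (hN : Measurable (Function.uncurry N)) (symm : ∀ x y, R x y → R y x)
    (trans : ∀ x y z, R x y → R y z → R x z) (relA : ∀ x y, R x y → R (a x) (a y))
    (relB : ∀ x y, R x y → R (a.symm x) (a.symm y)) {Bd : X → ℝ} (hBd : Measurable Bd)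
    (bd : ∀ x ∈ K, ∀ y ∈ K, zeta x = zeta y → N x y ≤ Bd x)
    (con : ∀ x r δ, 0 < δ → ∀ᶠ k in atTop, ∀ y, R x y → N x y < r →
      N (a.symm^[k] x) (a.symm^[k] y) < δ)
    (con' : ∀ x r δ, 0 < δ → ∀ᶠ k in atTop, ∀ y, R x y → N (a^[k] x) (a^[k] y) ≤ r → N x y < δ) :
    ∃ Y', Nest μ a R N (fun x => (lastVis a K x, zeta (a.symm^[lastVis a K x] x)))
      (fun x => if a x ∈ K then d (a.symm^[lastVis a K x] x) + 1 else 0) Y' := by
  have hp := herg.toMeasurePreserving
  have hY0 : μ Y ≠ 0 := fun h0 => hb.posK (measure_eq_zero_iff_ae_notMem.2 (by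
    filter_upwards [hb.aeY, measure_eq_zero_iff_ae_notMem.1 h0] with x h1 h2 h3
    exact h2 (h1 h3)))
  obtain ⟨j, hj⟩ := exists_piece_ne_zero hY0 (P := fun j x => 1 / ((j : ℝ) + 1) < del x)
    fun x hx => exists_nat_one_div_lt (hb.inner x hx).1
  obtain ⟨j', hj'⟩ := exists_piece_ne_zero hY0 (P := fun j x => Bd x ≤ (j : ℝ))
    fun x _ => exists_nat_ge _
  obtain ⟨Y', h1, h2, h3, h4⟩ := exists_inv_conull hp (G := {x | (x ∈ K → x ∈ Y) ∧
      (∃ᶠ n in atTop, a.symm^[n] x ∈ Y ∩ {x | 1 / ((j : ℝ) + 1) < del x}) ∧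
      ∃ᶠ n in atTop, a^[n] x ∈ Y ∩ {x | Bd x ≤ (j' : ℝ)}})
    (hb.aeY.and ((ae_frequently_of_ergodic herg.symm
      (hb.measY.inter (measurableSet_lt measurable_const hb.measDel)) hj).and
      (ae_frequently_of_ergodic herg
        (hb.measY.inter (measurableSet_le hBd measurable_const)) hj')))
  have hv : ∀ x ∈ Y', ∃ j, a.symm^[j] x ∈ K := fun x hx =>
    (h2 hx).2.1.exists.imp fun n hn => hb.subK hn.1
  have hl := measurable_lastVis (a := a) hb.measK
  have hm : Measurable fun x => a.symm^[lastVis a K x] x :=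
    (measurable_from_prod_countable_left (f := fun p : X × ℕ => a.symm^[p.2] p.1)
      a.symm.measurable.iterate).comp (measurable_id.prodMk hl)
  have relA' : ∀ k x y, R x y → R (a^[k] x) (a^[k] y) := fun k => by
    induction k with
    | zero => exact fun _ _ h => h
    | succ k ih => exact fun x y h => ih _ _ (relA x y h)
  have relB' : ∀ k x y, R x y → R (a.symm^[k] x) (a.symm^[k] y) := fun k => by
    induction k with
    | zero => exact fun _ _ h => h
    | succ k ih => exact fun x y h => ih _ _ (relB x y h)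
  have hz : ∀ x ∈ K, ∀ y ∈ K, zeta x = zeta y → R x y := fun x hx y hy e =>
    trans _ _ _ (symm _ _ (hb.ref x hx).2.1) (e ▸ (hb.ref y hy).2.1)
  have hs : ∀ j x, a.symm^[j + 1] (a x) = a.symm^[j] x := fun j x => by
    rw [Function.iterate_succ_apply, a.symm_apply_apply]
  have hK0 : ∀ y ∈ Y', lastVis a K y = 0 → y ∈ K := fun y hy h0 => by
    simpa [h0] using lastVis_mem (hv y hy)
  refine ⟨Y', hp, hN, hl.prodMk (hb.measZeta.comp hm), Measurable.ite (a.measurable hb.measK)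
    ((hb.measD.comp hm).add_const 1) measurable_const, h1, h3, h4, fun x _ y _ => relA x y,
    fun x hx y hy e => ?_, fun x hx y hy e => ?_, fun x hx y hy e e' => ?_, fun x hx r => ?_,
    fun x hx r hr => ?_⟩
  · obtain ⟨e1, e2⟩ := Prod.mk.inj e
    have := relA' (lastVis a K x) _ _ (hz _ (lastVis_mem (hv x hx)) _ (lastVis_mem (hv y hy)) e2)
    rwa [iterate_apply_symm, e1, iterate_apply_symm] at this
  · obtain ⟨e1, e2⟩ := Prod.mk.inj e
    by_cases hK : a x ∈ K
    · have hK' : a y ∈ K := hK0 _ ((h4 y).2 hy) (e1 ▸ lastVis_of_mem hK)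
      rw [lastVis_of_mem hK, lastVis_of_mem hK'] at e2
      have b1 := fun j => hb.back _ hK _ hK' e2 (j + 1)
      have b2 := fun j => hb.back _ hK' _ hK e2.symm (j + 1)
      simp only [hs] at b1 b2
      have e3 : lastVis a K x = lastVis a K y :=
        congrArg sInf (Set.ext fun j => ⟨fun h => (b1 j h).1, fun h => (b2 j h).1⟩)
      exact Prod.ext e3 (by simpa only [← e3] using (b1 _ (lastVis_mem (hv x hx))).2)
    · have hK' : a y ∉ K := fun h => hK (hK0 _ ((h4 x).2 hx) (e1.trans (lastVis_of_mem h)))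
      rw [lastVis_succ (hv x hx) hK, lastVis_succ (hv y hy) hK'] at e1 e2
      rw [hs, hs] at e2
      exact Prod.ext (Nat.succ_injective e1) e2
  · obtain ⟨e1, e2⟩ := Prod.mk.inj e
    by_cases hK : a x ∈ K <;> by_cases hK' : a y ∈ K <;> simp only [hK, hK', if_true, if_false] at e'
    · have hx' := (h2 ((inv_iterate_symm h4 _ x).2 hx)).1 (lastVis_mem (hv x hx))
      have hy' := (h2 ((inv_iterate_symm h4 _ y).2 hy)).1 (lastVis_mem (hv y hy))
      have := (hb.inc _ hx' _ hy').2 ⟨e2, Nat.succ_injective e'⟩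
      rw [firstRet_lastVis hK, firstRet_lastVis hK'] at this
      rw [lastVis_of_mem hK, lastVis_of_mem hK']
      exact Prod.ext rfl this
    · omega
    · omega
    · rw [lastVis_succ (hv x hx) hK, lastVis_succ (hv y hy) hK', hs, hs, e2, e1]
  · obtain ⟨k, ⟨b1, b2⟩, b3⟩ := ((h2 hx).2.1.and_eventually
      (con x r (1 / ((j : ℝ) + 1)) Nat.one_div_pos_of_nat)).exists
    refine ⟨k, fun y _ r1 r2 => ?_⟩
    obtain ⟨c1, c2⟩ := (hb.inner _ b1).2 _ (relB' k x y r1) ((b3 y r1 r2).trans b2)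
    rw [lastVis_of_mem c1, lastVis_of_mem (hb.subK b1)]
    exact Prod.ext rfl c2
  · obtain ⟨k, ⟨b1, b2⟩, b3⟩ := ((h2 hx).2.2.and_eventually (con' x j' r hr)).exists
    refine ⟨k, fun y hy e => ?_⟩
    obtain ⟨e1, e2⟩ := Prod.mk.inj e
    have hK := hb.subK b1
    have hK' : a^[k] y ∈ K := hK0 _ ((inv_iterate h4 k y).2 hy) (e1.trans (lastVis_of_mem hK))
    rw [lastVis_of_mem hK, lastVis_of_mem hK'] at e2
    have := relB' k _ _ (hz _ hK _ hK' e2.symm)
    rw [iterate_symm_apply, iterate_symm_apply] at this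
    exact b3 y this ((bd _ hK _ hK' e2.symm).trans b2)

end Pool.Agent.P.MP_d483fb_an.Z
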