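import Pool.Agent.P.MP_d483fb_an.Z.Ent.Sel
import Pool.Agent.P.MP_d483fb_an.Z.LSB.LeafDefs

/-!
Kernels with a mass transport identity: null sets, closed conull sets and conditional measures.
-/

namespace Pool.Agent.P.MP_d483fb_an.Z

open MeasureTheory ProbabilityTheory Set Filter
open scoped ENNReal

variable {X Z : Type*} [MeasurableSpace X] [MeasurableSpace Z]

/-- The mass transport identity with the weight `w`. -/
def Mtp (μ : Measure X) (om : Kernel X X) (w : X → X → ℝ≥0∞) : Prop :=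
  ∀ Ψ : X → X → ℝ≥0∞, Measurable (Function.uncurry Ψ) →
    ∫⁻ x, ∫⁻ y, Ψ x y ∂om x ∂μ = ∫⁻ y, ∫⁻ x, Ψ x y * w x y ∂om y ∂μ

/-- Two families of measures that agree almost everywhere on every set agree almost
everywhere. -/
theorem ae_measure_eq {W : Type*} [MeasurableSpace W] [MeasurableSpace.CountablyGenerated W]
    {ν : Measure X} {k k' : X → Measure W} (hf : ∀ᵐ x ∂ν, IsFiniteMeasure (k x))
    (h : ∀ A, MeasurableSet A → ∀ᵐ x ∂ν, k x A = k' x A) : ∀ᵐ x ∂ν, k x = k' x := by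
  set C := generateSetAlgebra (MeasurableSpace.countableGeneratingSet W) with hC
  have hc : C.Countable :=
    countable_generateSetAlgebra MeasurableSpace.countable_countableGeneratingSet
  have hg : (inferInstance : MeasurableSpace W) = MeasurableSpace.generateFrom C := by
    rw [hC, generateFrom_generateSetAlgebra_eq, MeasurableSpace.generateFrom_countableGeneratingSet]
  have hp : IsPiSystem C := isSetAlgebra_generateSetAlgebra.isSetRing.isSetSemiring.isPiSystem
  have h1 : ∀ᵐ x ∂ν, ∀ A ∈ C, k x A = k' x A :=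
    (ae_ball_iff hc).2 fun A hA => h A (hg.ge A (MeasurableSpace.measurableSet_generateFrom hA))
  filter_upwards [hf, h1, h univ .univ] with x h2 h3 h4
  exact ext_of_generate_finite C hg hp h3 h4

theorem measurable_kernel_rel (om : Kernel X X) [IsSFiniteKernel om] {P : X → X → Prop}
    (hP : MeasurableSet {p : X × X | P p.1 p.2}) : Measurable fun x => om x {y | P x y} :=
  Kernel.measurable_kernel_prodMk_left hP

/-- W4: null sets are null for almost all the measures of the family. -/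
theorem Mtp.ae_null {μ : Measure X} {om : Kernel X X} {w : X → X → ℝ≥0∞} (h : Mtp μ om w)
    {B : Set X} (hB : μ B = 0) : ∀ᵐ x ∂μ, om x B = 0 := by
  obtain ⟨t, ht, htm, ht0⟩ := exists_measurable_superset_of_null hB
  have h1 := h (fun _ y => t.indicator 1 y)
    ((measurable_one.indicator htm).comp measurable_snd)
  have h2 : ∫⁻ y, ∫⁻ x, t.indicator 1 y * w x y ∂om y ∂μ = 0 := by
    refine (lintegral_congr_ae (g := fun _ => 0) ?_).trans lintegral_zero
    filter_upwards [measure_eq_zero_iff_ae_notMem.1 ht0] with y hy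
    simp [indicator_of_notMem hy]
  rw [h2] at h1
  simp only [lintegral_indicator_one htm] at h1
  filter_upwards [(lintegral_eq_zero_iff (om.measurable_coe htm)).1 h1] with x hx
  exact measure_mono_null ht hx

theorem Mtp.ae_ae {μ : Measure X} {om : Kernel X X} {w : X → X → ℝ≥0∞} (h : Mtp μ om w)
    {p : X → Prop} (hp : ∀ᵐ x ∂μ, p x) : ∀ᵐ x ∂μ, ∀ᵐ y ∂om x, p y :=
  h.ae_null (ae_iff.1 hp)

theorem exists_measurable_conull {μ : Measure X} {G : Set X} (hG : ∀ᵐ x ∂μ, x ∈ G) :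
    ∃ S, MeasurableSet S ∧ S ⊆ G ∧ ∀ᵐ x ∂μ, x ∈ S := by
  obtain ⟨t, ht, htm, ht0⟩ := exists_measurable_superset_of_null (mem_ae_iff.1 hG)
  exact ⟨tᶜ, htm.compl, fun x hx => by_contra fun h => hx (ht h),
    measure_eq_zero_iff_ae_notMem.1 ht0⟩

/-- An invariant measurable conull set inside a conull set. -/
theorem exists_inv_conull {μ : Measure X} {a : X ≃ᵐ X} (ha : MeasurePreserving a μ μ)
    {G : Set X} (hG : ∀ᵐ x ∂μ, x ∈ G) :
    ∃ S, MeasurableSet S ∧ S ⊆ G ∧ (∀ᵐ x ∂μ, x ∈ S) ∧ ∀ x, a x ∈ S ↔ x ∈ S := by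
  obtain ⟨S, hS, hSG, hSc⟩ := exists_measurable_conull hG
  refine ⟨⋂ n : ℕ, (a^[n] ⁻¹' S ∩ a.symm^[n] ⁻¹' S), .iInter fun n =>
    (a.measurable.iterate n hS).inter (a.symm.measurable.iterate n hS),
    fun x hx => hSG (mem_iInter.1 hx 0).1, ?_, fun x => ?_⟩
  · simp only [mem_iInter]
    refine ae_all_iff.2 fun n => ?_
    exact ((ha.iterate n).quasiMeasurePreserving.ae hSc).and
      (((ha.symm a).iterate n).quasiMeasurePreserving.ae hSc)
  · simp only [mem_iInter, mem_inter_iff, mem_preimage]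
    refine ⟨fun h n => ⟨?_, ?_⟩, fun h n => ⟨(h (n + 1)).1, ?_⟩⟩
    · cases n with
      | zero => simpa using (h 1).2
      | succ n => exact (h n).1
    · simpa using (h (n + 1)).2
    · cases n with
      | zero => exact (h 1).1
      | succ n => simpa using (h n).2

/-- An invariant measurable conull set inside a conull set that carries the measures of the family
at all of its points. -/
theorem exists_closed_conull {μ : Measure X} {a : X ≃ᵐ X} (ha : MeasurePreserving a μ μ)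
    {k : X → Measure X} (hk : ∀ B, μ B = 0 → ∀ᵐ x ∂μ, k x B = 0)
    {G : Set X} (hG : ∀ᵐ x ∂μ, x ∈ G) :
    ∃ S, MeasurableSet S ∧ S ⊆ G ∧ (∀ᵐ x ∂μ, x ∈ S) ∧ (∀ x, a x ∈ S ↔ x ∈ S) ∧
      ∀ x ∈ S, ∀ᵐ y ∂k x, y ∈ S := by
  have h1 : ∀ S : {S : Set X // ∀ᵐ x ∂μ, x ∈ S}, ∃ S' : {S : Set X // ∀ᵐ x ∂μ, x ∈ S},
      MeasurableSet S'.1 ∧ S'.1 ⊆ S.1 ∧ (∀ x, a x ∈ S'.1 ↔ x ∈ S'.1) ∧
        ∀ x ∈ S'.1, ∀ᵐ y ∂k x, y ∈ S.1 := fun S => by
    obtain ⟨S', h2, h3, h4, h5⟩ := exists_inv_conull ha (G := S.1 ∩ {x | ∀ᵐ y ∂k x, y ∈ S.1})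
      (S.2.and (hk _ (ae_iff.1 S.2)))
    exact ⟨⟨S', h4⟩, h2, fun x hx => (h3 hx).1, h5, fun x hx => (h3 hx).2⟩
  choose F hF using h1
  refine ⟨⋂ n : ℕ, (F (F^[n] ⟨G, hG⟩)).1, .iInter fun n => (hF _).1,
    fun x hx => (hF ⟨G, hG⟩).2.1 (mem_iInter.1 hx 0), ?_, fun x => ?_, fun x hx => ?_⟩
  · simp only [mem_iInter]
    exact ae_all_iff.2 fun n => (F _).2
  · simp only [mem_iInter, (hF _).2.2.1]
  · simp only [mem_iInter] at hx ⊢
    refine ae_all_iff.2 fun n => ?_
    have := (hF _).2.2.2 x (hx (n + 1))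
    rwa [Function.iterate_succ_apply'] at this

section Cond

variable [StandardBorelSpace X] [Nonempty X]

theorem lintegral_condDistrib_id (ν : Measure X) [IsFiniteMeasure ν] {lab : X → Z}
    (hl : Measurable lab) {g : Z → X → ℝ≥0∞} (hg : Measurable (Function.uncurry g)) :
    ∫⁻ x, g (lab x) x ∂ν = ∫⁻ z, ∫⁻ x, g z x ∂condDistrib id lab ν z ∂ν.map lab := by
  have h := Measure.lintegral_compProd (μ := ν.map lab) (κ := condDistrib id lab ν) hg
  rw [compProd_map_condDistrib aemeasurable_id, lintegral_map hg (hl.prodMk measurable_id)] at h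
  exact h

/-- Exchangeability of a point and a conditionally independent copy. -/
theorem mtp_condDistrib (ν : Measure X) [IsFiniteMeasure ν] {lab : X → Z} (hl : Measurable lab) :
    Mtp ν ((condDistrib id lab ν).comap lab hl) fun _ _ => 1 := by
  intro Ψ hΨ
  simp only [mul_one, Kernel.comap_apply]
  have hΨ' : Measurable (Function.uncurry fun y x => Ψ x y) := hΨ.comp measurable_swap
  have hm : ∀ Φ : X → X → ℝ≥0∞, Measurable (Function.uncurry Φ) → Measurable
      (Function.uncurry fun z x => ∫⁻ y, Φ x y ∂condDistrib id lab ν z) := fun Φ hΦ =>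
    Measurable.lintegral_kernel_prod_right' (κ := Kernel.prodMkRight X (condDistrib id lab ν))
      (f := fun p : (Z × X) × X => Φ p.1.2 p.2) (hΦ.comp (measurable_fst.snd.prodMk measurable_snd))
  rw [lintegral_condDistrib_id ν hl (hm Ψ hΨ), lintegral_condDistrib_id ν hl (hm _ hΨ')]
  refine lintegral_congr fun z => ?_
  exact lintegral_lintegral_swap hΨ.aemeasurable

variable [StandardBorelSpace Z]

/-- W3, core form. -/
theorem Mtp.condDistrib_eq {μ : Measure X} {om : Kernel X X} [IsSFiniteKernel om]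
    {w : X → X → ℝ≥0∞} (h : Mtp μ om w) {K : Set X} (hK : MeasurableSet K) {lab : X → Z}
    (hl : Measurable lab) {S : Set X} (hS : ∀ᵐ x ∂μ, x ∈ S)
    (h1 : ∀ x ∈ S, x ∈ K → om x {y | y ∈ K ∧ lab y = lab x} ≠ 0 ∧
      om x {y | y ∈ K ∧ lab y = lab x} ≠ ∞)
    (h2 : ∀ x ∈ S, ∀ y ∈ S, x ∈ K → y ∈ K → lab x = lab y → om x = w x y • om y)
    (ν : Measure X) [IsFiniteMeasure ν] {c : ℝ≥0∞} (hν : ν = c • μ.restrict K) :
    ∀ᵐ x ∂ν, condDistrib id lab ν (lab x) = (om x)[|{y | y ∈ K ∧ lab y = lab x}] := by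
  let _ := upgradeStandardBorel Z
  obtain ⟨S', hSm, hSS, hS'⟩ := exists_measurable_conull hS
  have hcl : MeasurableSet {p : X × X | p.2 ∈ K ∧ lab p.2 = lab p.1} :=
    (measurable_snd hK).inter
      (measurableSet_eq_fun (hl.comp measurable_snd) (hl.comp measurable_fst))
  have hcl' : ∀ x, MeasurableSet {y | y ∈ K ∧ lab y = lab x} := fun x =>
    measurable_prodMk_left hcl
  have hq := measurable_kernel_rel om (P := fun x y => y ∈ K ∧ lab y = lab x) hcl
  have hνS : ∀ᵐ x ∂ν, x ∈ S' ∩ K := by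
    rw [hν]
    exact Measure.ae_smul_measure ((ae_restrict_of_ae hS').and (ae_restrict_mem hK)) c
  refine ae_measure_eq (Eventually.of_forall fun x => inferInstance) fun A hA => ?_
  have hclA : MeasurableSet {p : X × X | (p.2 ∈ K ∧ lab p.2 = lab p.1) ∧ p.2 ∈ A} :=
    hcl.inter (measurable_snd hA)
  have hf : Measurable fun x => (om x)[|{y | y ∈ K ∧ lab y = lab x}] A := by
    simp only [cond_apply (hcl' _)]
    exact hq.inv.mul
      (measurable_kernel_rel om (P := fun x y => (y ∈ K ∧ lab y = lab x) ∧ y ∈ A) hclA)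
  have hw : ∀ x ∈ S', ∀ y ∈ S', x ∈ K → y ∈ K → lab x = lab y → w x y ≠ 0 ∧ w x y ≠ ∞ ∧
      om x {z | z ∈ K ∧ lab z = lab x} = w x y * om y {z | z ∈ K ∧ lab z = lab y} :=
      fun x hx y hy hxK hyK e => by
    have e1 : om x {z | z ∈ K ∧ lab z = lab x} = w x y * om y {z | z ∈ K ∧ lab z = lab y} := by
      rw [h2 x (hSS hx) y (hSS hy) hxK hyK e, e]
      rfl
    have a1 := h1 x (hSS hx) hxK
    have a2 := h1 y (hSS hy) hyK
    refine ⟨fun h0 => a1.1 (by rw [e1, h0, zero_mul]), fun h0 => a1.2 ?_, e1⟩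
    rw [e1, h0, ENNReal.top_mul a2.1]
  obtain ⟨φ, hφ, hφ'⟩ := exists_factor hl hf (hSm.inter hK) fun x hx y hy e => by
    obtain ⟨b1, b2, b3⟩ := hw x hx.1 y hy.1 hx.2 hy.2 e
    rw [cond_apply (hcl' _), cond_apply (hcl' _), b3, h2 x (hSS hx.1) y (hSS hy.1) hx.2 hy.2 e, e,
      Measure.smul_apply, smul_eq_mul, ENNReal.mul_inv (Or.inl b1) (Or.inl b2), mul_mul_mul_comm,
      ENNReal.inv_mul_cancel b1 b2, one_mul]
  have key : (fun z => condDistrib id lab ν z A) =ᵐ[ν.map lab] φ := by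
    refine ae_eq_of_forall_setLIntegral_eq_of_sigmaFinite (Kernel.measurable_coe _ hA) hφ
      fun C hC _ => ?_
    rw [setLIntegral_map hC (Kernel.measurable_coe _ hA) hl, setLIntegral_map hC hφ hl,
      setLIntegral_preimage_condDistrib hl aemeasurable_id hA hC]
    have e1 : ∫⁻ x in lab ⁻¹' C, φ (lab x) ∂ν =
        ∫⁻ x in lab ⁻¹' C, (om x)[|{y | y ∈ K ∧ lab y = lab x}] A ∂ν :=
      lintegral_congr_ae ((ae_restrict_of_ae hνS).mono fun x hx => (hφ' x hx).symm)
    have hP : MeasurableSet {p : X × X | (p.1 ∈ lab ⁻¹' C ∩ K) ∧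
        (p.2 ∈ K ∧ lab p.2 = lab p.1) ∧ p.2 ∈ A} := (measurable_fst ((hl hC).inter hK)).inter hclA
    have e2 := h (fun x y => {p : X × X | (p.1 ∈ lab ⁻¹' C ∩ K) ∧
        (p.2 ∈ K ∧ lab p.2 = lab p.1) ∧ p.2 ∈ A}.indicator
          (fun p => (om p.1 {y | y ∈ K ∧ lab y = lab p.1})⁻¹) (x, y))
      ((hq.inv.comp measurable_fst).indicator hP)
    have e3 : ∀ x, ∫⁻ y, {p : X × X | (p.1 ∈ lab ⁻¹' C ∩ K) ∧
        (p.2 ∈ K ∧ lab p.2 = lab p.1) ∧ p.2 ∈ A}.indicator
          (fun p => (om p.1 {y | y ∈ K ∧ lab y = lab p.1})⁻¹) (x, y) ∂om x =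
        (lab ⁻¹' C ∩ K).indicator (fun x => (om x)[|{y | y ∈ K ∧ lab y = lab x}] A) x := fun x => by
      by_cases hx : x ∈ lab ⁻¹' C ∩ K
      · rw [indicator_of_mem hx, cond_apply (hcl' _), ← setLIntegral_const,
          ← lintegral_indicator ((hcl' x).inter hA)]
        refine lintegral_congr fun y => ?_
        by_cases hy : y ∈ {y | y ∈ K ∧ lab y = lab x} ∩ A
        · rw [indicator_of_mem hy, indicator_of_mem (by exact ⟨hx, hy⟩)]
        · rw [indicator_of_notMem hy, indicator_of_notMem (fun h => hy h.2)]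
      · rw [indicator_of_notMem hx]
        refine (lintegral_congr fun y => ?_).trans lintegral_zero
        exact indicator_of_notMem (fun h => hx h.1) _
    have e4 : ∀ᵐ y ∂μ, ∫⁻ x, {p : X × X | (p.1 ∈ lab ⁻¹' C ∩ K) ∧
        (p.2 ∈ K ∧ lab p.2 = lab p.1) ∧ p.2 ∈ A}.indicator
          (fun p => (om p.1 {y | y ∈ K ∧ lab y = lab p.1})⁻¹) (x, y) * w x y ∂om y =
        ((lab ⁻¹' C ∩ A) ∩ K).indicator 1 y := by
      filter_upwards [hS', h.ae_ae hS'] with y hy hy'
      by_cases hyC : y ∈ (lab ⁻¹' C ∩ A) ∩ K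
      · have a2 := h1 y (hSS hy) hyC.2
        rw [indicator_of_mem hyC, Pi.one_apply, ← ENNReal.inv_mul_cancel a2.1 a2.2,
          ← setLIntegral_const, ← lintegral_indicator (hcl' y)]
        refine lintegral_congr_ae (hy'.mono fun x hx => ?_)
        by_cases hx' : x ∈ {z | z ∈ K ∧ lab z = lab y}
        · obtain ⟨b1, b2, b3⟩ := hw x hx y hy hx'.1 hyC.2 hx'.2
          have hm : (x, y) ∈ {p : X × X | (p.1 ∈ lab ⁻¹' C ∩ K) ∧
              (p.2 ∈ K ∧ lab p.2 = lab p.1) ∧ p.2 ∈ A} :=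
            ⟨⟨show lab x ∈ C from hx'.2 ▸ hyC.1.1, hx'.1⟩, ⟨hyC.2, hx'.2.symm⟩, hyC.1.2⟩
          simp only [indicator_of_mem hm, indicator_of_mem hx']
          rw [b3, ENNReal.mul_inv (Or.inl b1) (Or.inl b2), mul_right_comm,
            ENNReal.inv_mul_cancel b1 b2, one_mul]
        · simp only [indicator_of_notMem hx']
          rw [indicator_of_notMem (fun h => hx' ⟨h.1.2, h.2.1.2.symm⟩), zero_mul]
      · rw [indicator_of_notMem hyC]
        refine (lintegral_congr fun x => ?_).trans lintegral_zero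
        rw [indicator_of_notMem, zero_mul]
        exact fun h => hyC ⟨⟨show lab y ∈ C from h.2.1.2 ▸ h.1.1, h.2.2⟩, h.2.1.1⟩
    rw [lintegral_congr e3, lintegral_congr_ae e4,
      lintegral_indicator_one (((hl hC).inter hA).inter hK),
      lintegral_indicator ((hl hC).inter hK)] at e2
    rw [e1, hν, Measure.restrict_smul, lintegral_smul_measure, Measure.restrict_restrict (hl hC),
      e2, Measure.smul_apply, preimage_id, Measure.restrict_apply ((hl hC).inter hA)]
  filter_upwards [ae_of_ae_map hl.aemeasurable key, hνS] with x hx hx'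
  rw [hx, hφ' x hx']

omit [StandardBorelSpace Z] in
/-- The conditional probability of the value of a countable digit is positive. -/
theorem ae_condDistrib_digit_pos (ν : Measure X) [IsFiniteMeasure ν] {lab : X → Z}
    (hl : Measurable lab) {e : X → ℕ} (he : Measurable e) :
    ∀ᵐ x ∂ν, condDistrib id lab ν (lab x) {y | e y = e x} ≠ 0 := by
  have h1 : ∀ i, ∀ᵐ x ∂ν, e x = i → condDistrib id lab ν (lab x) (e ⁻¹' {i}) ≠ 0 := fun i => by
    have hA : MeasurableSet (e ⁻¹' {i}) := he (measurableSet_singleton i)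
    have hC : MeasurableSet {z | condDistrib id lab ν z (e ⁻¹' {i}) = 0} :=
      Kernel.measurable_coe _ hA (measurableSet_singleton 0)
    have h2 := setLIntegral_preimage_condDistrib (μ := ν) hl aemeasurable_id hA hC
    rw [setLIntegral_congr_fun (hl hC) (g := fun _ => 0) (fun x hx => hx), lintegral_zero] at h2
    filter_upwards [measure_eq_zero_iff_ae_notMem.1 h2.symm] with x hx h3 h4
    exact hx ⟨h4, h3⟩
  filter_upwards [ae_all_iff.2 h1] with x hx
  exact hx _ rfl

end Cond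

end Pool.Agent.P.MP_d483fb_an.Z
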