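import Pool.Agent.P.MP_d483fb_an.Z.LSB.LeafGlue

/-!
Existence of leafwise measures from an increasing label.
-/

namespace Pool.Agent.P.MP_d483fb_an.Z

open MeasureTheory ProbabilityTheory Set Filter
open scoped ENNReal

variable {X Z : Type*} [MeasurableSpace X] [MeasurableSpace Z]

theorem iterate_symm_apply (a : X ≃ᵐ X) (s : ℕ) (x : X) : a.symm^[s] (a^[s] x) = x :=
  (Function.LeftInverse.iterate a.symm_apply_apply s) x

theorem iterate_apply_symm (a : X ≃ᵐ X) (s : ℕ) (x : X) : a^[s] (a.symm^[s] x) = x :=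
  (Function.LeftInverse.iterate a.apply_symm_apply s) x

theorem inv_iterate {a : X ≃ᵐ X} {S : Set X} (h : ∀ x, a x ∈ S ↔ x ∈ S) (n : ℕ) (x : X) :
    a^[n] x ∈ S ↔ x ∈ S := by
  induction n with
  | zero => rfl
  | succ n ih => rw [Function.iterate_succ_apply', h, ih]

theorem inv_iterate_symm {a : X ≃ᵐ X} {S : Set X} (h : ∀ x, a x ∈ S ↔ x ∈ S) (n : ℕ) (x : X) :
    a.symm^[n] x ∈ S ↔ x ∈ S := by
  rw [← inv_iterate h n, iterate_apply_symm]

/-- The kernel `k` transported by the `s`-th power of `a`. -/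
noncomputable def pushK (a : X ≃ᵐ X) (k : Kernel X X) (s : ℕ) : Kernel X X :=
  (k.comap a.symm^[s] (a.symm.measurable.iterate s)).map a^[s]

theorem pushK_apply (a : X ≃ᵐ X) (k : Kernel X X) (s : ℕ) (x : X) :
    pushK a k s x = (k (a.symm^[s] x)).map a^[s] := by
  rw [pushK, Kernel.map_apply _ (a.measurable.iterate s), Kernel.comap_apply]

instance (a : X ≃ᵐ X) (k : Kernel X X) [IsMarkovKernel k] (s : ℕ) :
    IsMarkovKernel (pushK a k s) :=
  Kernel.IsMarkovKernel.map _ (a.measurable.iterate s)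

theorem pushK_succ (a : X ≃ᵐ X) (k : Kernel X X) (s : ℕ) (x : X) :
    pushK a k (s + 1) x = (pushK a k 1 (a.symm^[s] x)).map a^[s] := by
  rw [pushK_apply, pushK_apply, Measure.map_map (a.measurable.iterate s) (a.measurable.iterate 1),
    Function.iterate_succ_apply']
  rfl

theorem pushK_succ' (a : X ≃ᵐ X) (k : Kernel X X) (s : ℕ) (x : X) :
    pushK a k (s + 1) (a x) = (pushK a k s x).map a := by
  rw [pushK_apply, pushK_apply, Measure.map_map a.measurable (a.measurable.iterate s),
    Function.iterate_succ_apply, a.symm_apply_apply, Function.iterate_succ']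

theorem Mtp.pushK {μ : Measure X} {a : X ≃ᵐ X} (ha : MeasurePreserving a μ μ) {k : Kernel X X}
    [IsMarkovKernel k] (h : Mtp μ k fun _ _ => 1) (s : ℕ) : Mtp μ (pushK a k s) fun _ _ => 1 := by
  have hs := a.measurable.iterate s
  have key : ∀ Φ : X → X → ℝ≥0∞, Measurable (Function.uncurry Φ) →
      ∫⁻ x, ∫⁻ y, Φ x y ∂Z.pushK a k s x ∂μ = ∫⁻ x, ∫⁻ y, Φ (a^[s] x) (a^[s] y) ∂k x ∂μ := by
    intro Φ hΦ
    rw [← (ha.iterate s).lintegral_comp hΦ.lintegral_kernel_prod_right]
    refine lintegral_congr fun x => ?_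
    rw [pushK_apply, iterate_symm_apply, lintegral_map hΦ.of_uncurry_left hs]
  intro Ψ hΨ
  have h1 := h (fun x y => Ψ (a^[s] x) (a^[s] y)) (hΨ.comp (hs.prodMap hs))
  simp only [mul_one] at h1 ⊢
  rw [key Ψ hΨ, key (fun y x => Ψ x y) (hΨ.comp measurable_swap), h1]

theorem measurableEmbedding_iterate (a : X ≃ᵐ X) (s : ℕ) : MeasurableEmbedding a^[s] := by
  induction s with
  | zero => exact MeasurableEmbedding.id
  | succ s ih => exact ih.comp a.measurableEmbedding

variable [StandardBorelSpace X] [Nonempty X] [StandardBorelSpace Z] {μ : Measure X}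
  [IsFiniteMeasure μ] {a : X ≃ᵐ X} {R : X → X → Prop} {N : X → X → ℝ} {eta : X → Z} {e : X → ℕ}
  {Y : Set X}

/-- The conditional measures of the label and of its translate are compatible. -/
theorem Nest.ae_step (h : Nest μ a R N eta e Y) : ∀ᵐ x ∂μ,
    pushK a ((condDistrib id eta μ).comap eta h.measEta) 1 x {y | eta y = eta x} ≠ 0 ∧
      condDistrib id eta μ (eta x) =
        (pushK a ((condDistrib id eta μ).comap eta h.measEta) 1 x)[|{y | eta y = eta x}] := by
  let _ := upgradeStandardBorel Z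
  set k := (condDistrib id eta μ).comap eta h.measEta with hk
  have h1 : ∀ᵐ x ∂μ, pushK a k 1 x {y | eta y = eta x} ≠ 0 := by
    have h2 := (ae_condDistrib_digit_pos μ h.measEta h.measE).and
      ((ae_condDistrib_atom μ h.measEta h.meas h.conull).and h.conull)
    filter_upwards [(h.pres.symm a).quasiMeasurePreserving.ae h2] with x ⟨b1, b2, b3⟩ h0
    rw [pushK_apply, Measure.map_apply (a.measurable.iterate 1)
      (measurableSet_eq_fun h.measEta measurable_const)] at h0
    refine b1 (le_antisymm ((measure_mono_ae ?_).trans h0.le) zero_le)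
    filter_upwards [b2] with y hy h3
    have := h.cnt y hy.2 _ b3 hy.1 h3
    rwa [a.apply_symm_apply] at this
  have h2 := ((mtp_condDistrib μ h.measEta).pushK h.pres 1).condDistrib_eq MeasurableSet.univ
    h.measEta (S := Y ∩ {x | pushK a k 1 x {y | eta y = eta x} ≠ 0}) (h.conull.and h1)
    (fun x hx _ => ⟨by simpa using hx.2, measure_ne_top _ _⟩)
    (fun x hx y hy _ _ e => by
      have hx' := (inv_iterate_symm h.inv 1 x).2 hx.1
      have hy' := (inv_iterate_symm h.inv 1 y).2 hy.1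
      rw [one_smul, pushK_apply, pushK_apply, Kernel.comap_apply, Kernel.comap_apply,
        h.nest _ hx' _ hy' (by simpa using e)])
    μ (c := 1) (by simp)
  filter_upwards [h1, h2] with x b1 b2
  exact ⟨b1, by simpa using b2⟩

/-- Existence of leafwise measures. -/
theorem Nest.exists_leafwise (h : Nest μ a R N eta e Y) :
    ∃ (om : Kernel X X) (X1 : Set X), X1 ⊆ Y ∧ IsLeafwise μ a R N om X1 := by
  let _ := upgradeStandardBorel Z
  set k := (condDistrib id eta μ).comap eta h.measEta with hk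
  have hmtp := mtp_condDistrib μ h.measEta
  obtain ⟨X1, hm, hsub, hae, hinv, hcl⟩ := exists_closed_conull h.pres (k := k)
    (fun B => hmtp.ae_null) (G := {x | x ∈ Y ∧ (∀ᵐ y ∂k x, eta y = eta x) ∧
      pushK a k 1 x {y | eta y = eta x} ≠ 0 ∧ k x = (pushK a k 1 x)[|{y | eta y = eta x}]})
    (h.conull.and (((ae_condDistrib_atom μ h.measEta h.meas h.conull).mono
      fun x hx => hx.mono fun y hy => hy.1).and h.ae_step))
  have hY : ∀ x ∈ X1, x ∈ Y := fun x hx => (hsub hx).1
  have hb : ∀ s, ∀ x ∈ X1, a.symm^[s] x ∈ X1 := fun s x hx => (inv_iterate_symm hinv s x).2 hx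
  let cl : X → ℕ → Set X := fun x s => {y | eta (a.symm^[s] y) = eta (a.symm^[s] x)}
  have hes : ∀ s, Measurable fun y => eta (a.symm^[s] y) := fun s =>
    h.measEta.comp (a.symm.measurable.iterate s)
  have hclm : ∀ s, MeasurableSet {p : X × X | p.2 ∈ cl p.1 s} := fun s =>
    measurableSet_eq_fun ((hes s).comp measurable_snd) ((hes s).comp measurable_fst)
  have hclm' : ∀ x s, MeasurableSet (cl x s) := fun x s => measurable_prodMk_left (hclm s)
  have hpre : ∀ x s, a^[s] ⁻¹' cl x s = {y | eta y = eta (a.symm^[s] x)} := fun x s => by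
    ext y
    simp only [cl, mem_preimage, mem_ofPred_eq, iterate_symm_apply]
  have hDm : ∀ s, MeasurableSet {p : X × X | p.2 ∈ disjointed (cl p.1) s} := fun s => by
    have : {p : X × X | p.2 ∈ disjointed (cl p.1) s} =
        disjointed (fun s => {p : X × X | p.2 ∈ cl p.1 s}) s := by
      ext p
      simp only [disjointed_eq_inter_compl, mem_ofPred_eq, mem_inter_iff, mem_iInter, mem_compl_iff]
    rw [this]
    exact MeasurableSet.disjointed hclm s
  have hDs : ∀ x y s, y ∈ disjointed (cl x) s ↔ x ∈ disjointed (cl y) s := fun x y s => by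
    simp only [disjointed_eq_inter_compl, cl, mem_ofPred_eq, mem_inter_iff, mem_iInter,
      mem_compl_iff, eq_comm]
  have hcar : ∀ x ∈ X1, ∀ s, ∀ᵐ y ∂pushK a k s x, y ∈ X1 ∧ y ∈ cl x s := fun x hx s => by
    rw [pushK_apply, (measurableEmbedding_iterate a s).ae_map_iff]
    filter_upwards [hcl _ (hb s x hx), (hsub (hb s x hx)).2.1] with y h1 h2
    refine ⟨(inv_iterate hinv s y).2 h1, ?_⟩
    rw [← mem_preimage, hpre]
    exact h2
  have hnest : ∀ x ∈ X1, ∀ t, ∀ y ∈ X1, y ∈ cl x t → y ∈ cl x (t + 1) := fun x hx t y hy h1 => by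
    refine h.nest _ (hY _ (hb _ y hy)) _ (hY _ (hb _ x hx)) ?_
    rw [Function.iterate_succ_apply', Function.iterate_succ_apply', a.apply_symm_apply,
      a.apply_symm_apply]
    exact h1
  have hnest' : ∀ x ∈ X1, ∀ y ∈ X1, ∀ s, y ∈ cl x s → ∀ t, y ∈ cl x (t + s) :=
      fun x hx y hy s h1 t => by
    induction t with
    | zero => rwa [zero_add]
    | succ t ih => exact Nat.add_right_comm t 1 s ▸ hnest x hx _ y hy ih
  have hgl := fun x (hx : x ∈ X1) => isGlue_sum (M := fun s => pushK a k s x) (hclm' x)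
    (fun s => measure_univ) (hcar x hx) (hnest x hx)
    (fun t => by
      rw [pushK_succ, Measure.map_apply (a.measurable.iterate t) (hclm' x t), hpre]
      exact (hsub (hb t x hx)).2.2.1)
    (fun t => by
      rw [pushK_succ, pushK_apply, (hsub (hb t x hx)).2.2.2, ProbabilityTheory.cond,
        ProbabilityTheory.cond, Measure.map_apply (a.measurable.iterate t) (hclm' x t),
        Measure.restrict_map (a.measurable.iterate t) (hclm' x t), hpre, Measure.map_smul])
  -- the sequences at two related points have the same tails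
  have htail : ∀ x ∈ X1, ∀ y ∈ X1, ∀ s, y ∈ cl x s → ∀ t,
      pushK a k (t + s) y = pushK a k (t + s) x ∧ cl y (t + s) = cl x (t + s) :=
      fun x hx y hy s h1 t => by
    have h2 : eta (a.symm^[t + s] y) = eta (a.symm^[t + s] x) := hnest' x hx y hy s h1 t
    exact ⟨by rw [pushK_apply, pushK_apply, hk, Kernel.comap_apply, Kernel.comap_apply, h2],
      by simp only [cl, h2]⟩
  have hq : ∀ x ∈ X1, ∀ s t, pushK a k (t + s) x (cl x (0 + s)) ≠ 0 := fun x hx s t h0 =>
    (hgl x hx).1 (t + s) (le_antisymm ((measure_mono_ae ((hcar x hx _).mono fun y hy h1 =>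
      (add_comm s 0 ▸ hnest' x hx y hy.1 0 h1 s :))).trans h0.le) zero_le)
  have hrel : ∀ x ∈ X1, ∀ y ∈ X1, ∀ s, y ∈ cl x s → R x y := fun x hx y hy s h1 => by
    have h2 : ∀ t, ∀ x ∈ X1, ∀ y ∈ X1, R x y → R (a^[t] x) (a^[t] y) := fun t x hx y hy r => by
      induction t with
      | zero => exact r
      | succ t ih =>
        rw [Function.iterate_succ_apply', Function.iterate_succ_apply']
        exact h.relInv _ (hY _ ((inv_iterate hinv t x).2 hx)) _
          (hY _ ((inv_iterate hinv t y).2 hy)) ih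
    have := h2 s _ (hb s x hx) _ (hb s y hy)
      (h.rel _ (hY _ (hb s x hx)) _ (hY _ (hb s y hy)) (Eq.symm h1))
    rwa [iterate_apply_symm, iterate_apply_symm] at this
  -- properties of every glued family
  have gen : ∀ om : X → Measure X, (∀ x ∈ X1, IsGlue (om x) (fun s => pushK a k s x) (cl x)) →
      (∀ x ∈ X1, ∀ᵐ y ∂om x, y ∈ X1 ∧ R x y) ∧ (∀ x ∈ X1, ∀ r : ℝ, om x {y | N x y < r} ≠ ∞) ∧
      (∀ x ∈ X1, ∀ r : ℝ, 0 < r → om x {y | N x y < r} ≠ 0) ∧
      (∀ x ∈ X1, ∀ y ∈ X1, ∀ s, y ∈ cl x s → ∃ c : ℝ≥0∞, c ≠ 0 ∧ c ≠ ∞ ∧ om x = c • om y) ∧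
      ∀ x ∈ X1, ∃ c : ℝ≥0∞, c ≠ 0 ∧ c ≠ ∞ ∧ om (a x) = c • (om x).map a := by
    intro om ho
    have c1 : ∀ x ∈ X1, ∀ᵐ y ∂om x, y ∈ X1 ∧ R x y := fun x hx =>
      (ho x hx).ae fun s => (hcar x hx s).mono fun y hy => ⟨hy.1, hrel x hx y hy.1 s hy.2⟩
    have c5 : ∀ x ∈ X1, ∃ c : ℝ≥0∞, c ≠ 0 ∧ c ≠ ∞ ∧ om (a x) = c • (om x).map a := fun x hx => by
      have g1 := (ho _ ((hinv x).2 hx)).shift 1
      have g2 := (ho x hx).map a
      have e1 : (fun t => a.symm ⁻¹' cl x t) = fun t => cl (a x) (t + 1) := by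
        funext t
        ext y
        simp only [cl, mem_preimage, mem_ofPred_eq, Function.iterate_succ_apply, a.symm_apply_apply]
      simp only [← pushK_succ'] at g2
      rw [e1] at g2
      exact g1.unique g2 (fun t => hclm' _ _) (hq _ ((hinv x).2 hx) 1) fun t => measure_ne_top _ _
    refine ⟨c1, fun x hx r => ?_, fun x hx r hr => ?_, fun x hx y hy s h1 => ?_, c5⟩
    · obtain ⟨s, hs⟩ := h.exh x (hY x hx) r
      refine ne_top_of_le_ne_top ((ho x hx).restrict_eq (t := s) measure_univ).2.1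
        (measure_mono_ae ?_)
      filter_upwards [c1 x hx] with y hy h1
      exact hs y (hY y hy.1) hy.2 h1
    · obtain ⟨s, hs⟩ := h.shr x (hY x hx) r hr
      have c6 : ∀ n, ∃ c : ℝ≥0∞, om (a^[n] x) = c • (om x).map a^[n] := fun n => by
        induction n with
        | zero => exact ⟨1, by simp⟩
        | succ n ih =>
          obtain ⟨c, h3⟩ := ih
          obtain ⟨c', -, -, h6⟩ := c5 _ ((inv_iterate hinv n x).2 hx)
          refine ⟨c' * c, ?_⟩
          rw [Function.iterate_succ', Function.comp_apply, h6, h3, Measure.map_smul, smul_smul,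
            Measure.map_map a.measurable (a.measurable.iterate n)]
      obtain ⟨c, hc⟩ := c6 s
      have h2 := ((ho _ ((inv_iterate hinv s x).2 hx)).restrict_eq (t := 0) measure_univ).1
      rw [hc, Measure.smul_apply, Measure.map_apply (a.measurable.iterate s) (hclm' _ _),
        smul_eq_mul] at h2
      refine fun h0 => right_ne_zero_of_mul h2
        (le_antisymm ((measure_mono_ae ?_).trans h0.le) zero_le)
      filter_upwards [c1 x hx] with y hy h1
      exact hs y (hY y hy.1) h1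
    · have g1 := (ho x hx).shift s
      have g2 := (ho y hy).shift s
      simp only [(htail x hx y hy s h1 _).1, (htail x hx y hy s h1 _).2] at g2
      exact g1.unique g2 (fun t => hclm' _ _) (hq x hx s) fun t => measure_ne_top _ _
  -- the kernel
  choose k' hk' hk'' using fun s => exists_kernel_inv_smul (pushK a k s)
    (measurable_kernel_rel (pushK a k s) (P := fun x y => y ∈ cl x 0) (hclm 0))
    (D := fun x => disjointed (cl x) s) (hDm s)
  have ho' : ∀ x ∈ X1, IsGlue (Kernel.sum k' x) (fun s => pushK a k s x) (cl x) := fun x hx => by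
    rw [Kernel.sum_apply, funext fun s => hk'' s x ((hgl x hx).1 s)]
    exact (hgl x hx).2
  obtain ⟨-, d2, d3, -⟩ := gen _ ho'
  have hB : MeasurableSet {p : X × X | N p.1 p.2 < 1} := measurableSet_lt h.measN measurable_const
  obtain ⟨om, hs, hom⟩ := exists_kernel_inv_smul (Kernel.sum k')
    (measurable_kernel_rel (Kernel.sum k') (P := fun x y => N x y < 1) hB)
    (D := fun _ => univ) (by simp)
  simp only [Measure.restrict_univ] at hom
  have ho : ∀ x ∈ X1, IsGlue (om x) (fun s => pushK a k s x) (cl x) := fun x hx => by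
    rw [hom x (d3 x hx 1 one_pos)]
    exact (ho' x hx).smul (ENNReal.inv_ne_zero.2 (d2 x hx 1))
      (ENNReal.inv_ne_top.2 (d3 x hx 1 one_pos))
  obtain ⟨c1, c2, c3, c4, c5⟩ := gen _ ho
  have hn : ∀ x ∈ X1, om x {y | N x y < 1} = 1 := fun x hx => by
    rw [hom x (d3 x hx 1 one_pos), Measure.smul_apply, smul_eq_mul,
      ENNReal.inv_mul_cancel (d3 x hx 1 one_pos) (d2 x hx 1)]
  have hp : ∀ x ∈ X1, ∀ y ∈ X1, ∀ s, y ∈ cl x s → om x {w | N y w < 1} ≠ 0 ∧
      om x {w | N y w < 1} ≠ ∞ ∧ om x = om x {w | N y w < 1} • om y := fun x hx y hy s h1 => by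
    obtain ⟨c, b1, b2, b3⟩ := c4 x hx y hy s h1
    have : om x {w | N y w < 1} = c := by
      rw [b3, Measure.smul_apply, hn y hy, smul_eq_mul, mul_one]
    rw [this]
    exact ⟨b1, b2, b3⟩
  refine ⟨om, X1, hY, hs, hm, hae, hinv, c1, c2, c3, hn, fun x hx y hy r => ?_, c5, fun Ψ hΨ => ?_⟩
  · obtain ⟨s, hs⟩ := h.exh x (hY x hx) (N x y + 1)
    exact hp x hx y hy s (hs y (hY y hy) r (lt_add_one _))
  have hc : ∀ s, Measurable fun x => om x (cl x s) := fun s =>
    measurable_kernel_rel om (P := fun x y => y ∈ cl x s) (hclm s)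
  have hw : Measurable fun p : X × X => om p.1 {w | N p.2 w < 1} :=
    Kernel.measurable_kernel_prodMk_left (κ := Kernel.prodMkRight X om)
      (t := {q : (X × X) × X | N q.1.2 q.2 < 1})
      (measurableSet_lt (h.measN.comp (measurable_fst.snd.prodMk measurable_snd)) measurable_const)
  let Φ : ℕ → X → X → ℝ≥0∞ := fun s x y => (disjointed (cl x) s).indicator (Ψ x) y * om x (cl x s)
  have hΦ : ∀ s, Measurable (Function.uncurry (Φ s)) := fun s =>
    (hΨ.indicator (hDm s)).mul ((hc s).comp measurable_fst)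
  have e1 : ∀ᵐ x ∂μ, ∫⁻ y, Ψ x y ∂om x = ∑' s, ∫⁻ y, Φ s x y ∂pushK a k s x :=
    hae.mono fun x hx => (ho x hx).lintegral_eq (hclm' x) (fun s => measure_univ)
      hΨ.of_uncurry_left
  have e2 : ∀ᵐ y ∂μ, ∫⁻ x, Ψ x y * om x {w | N y w < 1} ∂om y =
      ∑' s, ∫⁻ x, Φ s x y * 1 ∂pushK a k s y := hae.mono fun y hy => by
    rw [(ho y hy).lintegral_eq (hclm' y) (fun s => measure_univ)
      (Φ := fun x => Ψ x y * om x {w | N y w < 1})
      ((hΨ.mul hw).comp (measurable_prodMk_right (y := y)))]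
    refine tsum_congr fun s => lintegral_congr_ae ((hcar y hy s).mono fun x hx => ?_)
    have h1 : y ∈ cl x s := Eq.symm hx.2
    have h2 : om x (cl x s) = om x {w | N y w < 1} * om y (cl y s) := by
      have h3 := (htail x hx.1 y hy s h1 0).2
      rw [zero_add] at h3
      conv_lhs => rw [(hp x hx.1 y hy s h1).2.2, ← h3]
      rfl
    by_cases h3 : y ∈ disjointed (cl x) s
    · simp only [Φ, indicator_of_mem h3, indicator_of_mem ((hDs x y s).1 h3), h2, mul_one,
        mul_assoc]
    · simp only [Φ, indicator_of_notMem h3, indicator_of_notMem (mt (hDs x y s).2 h3), zero_mul]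
  rw [lintegral_congr_ae e1, lintegral_congr_ae e2,
    lintegral_tsum fun s => (hΦ s).lintegral_kernel_prod_right.aemeasurable,
    lintegral_tsum fun s => (((hΦ s).mul_const 1).lintegral_kernel_prod_left
      (f := fun x y => Φ s x y * 1)).aemeasurable]
  exact tsum_congr fun s => hmtp.pushK h.pres s _ (hΦ s)

end Pool.Agent.P.MP_d483fb_an.Z
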