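import Pool.Agent.P.MP_d483fb_an.Z.LSB.LeafCore

/-!
Gluing a compatible sequence of probability measures into one measure.
-/

namespace Pool.Agent.P.MP_d483fb_an.Z

open MeasureTheory ProbabilityTheory Set Filter
open scoped ENNReal

variable {X : Type*} [MeasurableSpace X]

/-- `ν` is carried by the sets `C t` and is on `C t` a multiple of `M t`. -/
def IsGlue (ν : Measure X) (M : ℕ → Measure X) (C : ℕ → Set X) : Prop :=
  (∀ᵐ y ∂ν, ∀ᶠ t in atTop, y ∈ C t) ∧ ∀ t, ∃ c : ℝ≥0∞, c ≠ 0 ∧ c ≠ ∞ ∧ ν.restrict (C t) = c • M t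

variable {ν ν' : Measure X} {M : ℕ → Measure X} {C : ℕ → Set X}

theorem IsGlue.shift (h : IsGlue ν M C) (s : ℕ) :
    IsGlue ν (fun t => M (t + s)) fun t => C (t + s) :=
  ⟨h.1.mono fun _ hy => (tendsto_add_atTop_nat s).eventually hy, fun t => h.2 (t + s)⟩

theorem IsGlue.smul (h : IsGlue ν M C) {c : ℝ≥0∞} (h0 : c ≠ 0) (h1 : c ≠ ∞) :
    IsGlue (c • ν) M C := by
  refine ⟨Measure.ae_smul_measure h.1 c, fun t => ?_⟩
  obtain ⟨d, h2, h3, h4⟩ := h.2 t
  exact ⟨c * d, mul_ne_zero h0 h2, ENNReal.mul_ne_top h1 h3, by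
    rw [Measure.restrict_smul, h4, smul_smul]⟩

theorem IsGlue.map (h : IsGlue ν M C) (a : X ≃ᵐ X) :
    IsGlue (ν.map a) (fun t => (M t).map a) fun t => a.symm ⁻¹' C t := by
  refine ⟨a.measurableEmbedding.ae_map_iff.2 (h.1.mono fun y hy => by simpa using hy), fun t => ?_⟩
  obtain ⟨d, h2, h3, h4⟩ := h.2 t
  refine ⟨d, h2, h3, ?_⟩
  rw [a.restrict_map, ← Measure.map_smul, ← h4, ← preimage_comp, a.symm_comp_self, preimage_id]

theorem IsGlue.restrict_iUnion (h : IsGlue ν M C) : ν.restrict (⋃ t, C t) = ν :=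
  Measure.restrict_eq_self_of_ae_mem (h.1.mono fun _ hy => mem_iUnion.2 hy.exists)

theorem IsGlue.ae (h : IsGlue ν M C) {p : X → Prop} (hp : ∀ t, ∀ᵐ y ∂M t, p y) :
    ∀ᵐ y ∂ν, p y := by
  rw [← h.restrict_iUnion, ae_restrict_iUnion_iff]
  intro t
  obtain ⟨d, -, -, h4⟩ := h.2 t
  rw [h4]
  exact Measure.ae_smul_measure (hp t) d

theorem IsGlue.restrict_eq (h : IsGlue ν M C) {t : ℕ} (hM : M t univ = 1) :
    ν (C t) ≠ 0 ∧ ν (C t) ≠ ∞ ∧ ν.restrict (C t) = ν (C t) • M t := by
  obtain ⟨d, h2, h3, h4⟩ := h.2 t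
  have : ν (C t) = d := by
    rw [← Measure.restrict_apply_univ, h4, Measure.smul_apply, hM, smul_eq_mul, mul_one]
  rw [this]
  exact ⟨h2, h3, h4⟩

/-- The glued measure is unique up to a factor. -/
theorem IsGlue.unique (h : IsGlue ν M C) (h' : IsGlue ν' M C) (hC : ∀ t, MeasurableSet (C t))
    (h0 : ∀ t, M t (C 0) ≠ 0) (h1 : ∀ t, M t (C 0) ≠ ∞) :
    ∃ c : ℝ≥0∞, c ≠ 0 ∧ c ≠ ∞ ∧ ν = c • ν' := by
  have h2 : ∀ t, ∃ d : ℝ≥0∞, d ≠ 0 ∧ d ≠ ∞ ∧ ν.restrict (C t) = d • ν'.restrict (C t) ∧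
      ν' (C 0 ∩ C t) ≠ 0 ∧ ν' (C 0 ∩ C t) ≠ ∞ := fun t => by
    obtain ⟨c, a1, a2, a3⟩ := h.2 t
    obtain ⟨c', b1, b2, b3⟩ := h'.2 t
    refine ⟨c * c'⁻¹, mul_ne_zero a1 (ENNReal.inv_ne_zero.2 b2),
      ENNReal.mul_ne_top a2 (ENNReal.inv_ne_top.2 b1), ?_, ?_⟩
    · rw [a3, b3, smul_smul, mul_assoc, ENNReal.inv_mul_cancel b1 b2, mul_one]
    · rw [← Measure.restrict_apply (hC 0), b3, Measure.smul_apply, smul_eq_mul]
      exact ⟨mul_ne_zero b1 (h0 t), ENNReal.mul_ne_top b2 (h1 t)⟩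
  choose d d1 d2 d3 d4 d5 using h2
  have h3 : ∀ t, d t = d 0 := fun t => by
    have e1 : ν (C 0 ∩ C t) = d t * ν' (C 0 ∩ C t) := by
      rw [← Measure.restrict_apply (hC 0), d3, Measure.smul_apply, Measure.restrict_apply (hC 0),
        smul_eq_mul]
    have e2 : ν (C 0 ∩ C t) = d 0 * ν' (C 0 ∩ C t) := by
      rw [inter_comm, ← Measure.restrict_apply (hC t), d3, Measure.smul_apply,
        Measure.restrict_apply (hC t), smul_eq_mul]
    exact (ENNReal.mul_left_inj (d4 t) (d5 t)).1 (e1.symm.trans e2)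
  refine ⟨d 0, d1 0, d2 0, ?_⟩
  rw [← h.restrict_iUnion, ← (h'.smul (d1 0) (d2 0)).restrict_iUnion,
    Measure.restrict_iUnion_congr]
  intro t
  rw [d3, h3, Measure.restrict_smul]

theorem IsGlue.lintegral_eq (h : IsGlue ν M C) (hC : ∀ t, MeasurableSet (C t))
    (hM : ∀ t, M t univ = 1) {Φ : X → ℝ≥0∞} (hΦ : Measurable Φ) :
    ∫⁻ y, Φ y ∂ν = ∑' t, ∫⁻ y, (disjointed C t).indicator Φ y * ν (C t) ∂M t := by
  have hD := MeasurableSet.disjointed hC
  conv_lhs => rw [← h.restrict_iUnion, ← iUnion_disjointed,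
    lintegral_iUnion hD (disjoint_disjointed C)]
  refine tsum_congr fun t => ?_
  rw [lintegral_mul_const _ (hΦ.indicator (hD t)), mul_comm, ← smul_eq_mul,
    ← lintegral_smul_measure, ← (h.restrict_eq (hM t)).2.2, lintegral_indicator (hD t),
    Measure.restrict_restrict (hD t), inter_eq_left.2 (disjointed_subset C t)]

/-- Existence of the glued measure. -/
theorem isGlue_sum (hC : ∀ t, MeasurableSet (C t)) {S : Set X} (hM : ∀ t, M t univ = 1)
    (hS : ∀ t, ∀ᵐ y ∂M t, y ∈ S ∧ y ∈ C t) (hn : ∀ t, ∀ y ∈ S, y ∈ C t → y ∈ C (t + 1))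
    (h0 : ∀ t, M (t + 1) (C t) ≠ 0) (hc : ∀ t, M t = (M (t + 1))[|C t]) :
    (∀ t, M t (C 0) ≠ 0) ∧
      IsGlue (Measure.sum fun t => (M t (C 0))⁻¹ • (M t).restrict (disjointed C t)) M C := by
  have hD := MeasurableSet.disjointed hC
  have hf : ∀ t A, M t A ≠ ∞ := fun t A =>
    ne_top_of_le_ne_top (by rw [hM t]; exact ENNReal.one_ne_top) (measure_mono (subset_univ A))
  have hn' : ∀ s t, s ≤ t → ∀ y ∈ S, y ∈ C s → y ∈ C t := fun s t hst y hy h1 => by
    induction hst with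
    | refl => exact h1
    | step _ ih => exact hn _ y hy ih
  have hr : ∀ t, (M (t + 1)).restrict (C t) = M (t + 1) (C t) • M t := fun t => by
    conv_rhs => rw [hc t, ProbabilityTheory.cond, smul_smul,
      ENNReal.mul_inv_cancel (h0 t) (hf _ _), one_smul]
  have hi : ∀ s t, s ≤ t → (M (t + 1)).restrict (C s) = M (t + 1) (C t) • (M t).restrict (C s) :=
      fun s t hst => by
    rw [← Measure.restrict_smul, ← hr, Measure.restrict_restrict (hC s)]
    refine Measure.restrict_congr_set ?_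
    filter_upwards [hS (t + 1)] with y hy
    exact propext ⟨fun h1 => ⟨h1, hn' s t hst y hy.1 h1⟩, fun h1 => h1.1⟩
  have hq : ∀ t, M (t + 1) (C 0) = M (t + 1) (C t) * M t (C 0) := fun t => by
    rw [← Measure.restrict_apply_univ, hi 0 t t.zero_le, Measure.smul_apply,
      Measure.restrict_apply_univ, smul_eq_mul]
  have hself : ∀ t, (M t).restrict (C t) = M t := fun t =>
    Measure.restrict_eq_self_of_ae_mem ((hS t).mono fun y hy => hy.2)
  have hq0 : ∀ t, M t (C 0) ≠ 0 := fun t => by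
    induction t with
    | zero => rw [← Measure.restrict_apply_univ, hself, hM]; exact one_ne_zero
    | succ t ih => rw [hq]; exact mul_ne_zero (h0 t) ih
  have hk : ∀ s t, s ≤ t → (M t (C 0))⁻¹ • (M t).restrict (C s) = (M s (C 0))⁻¹ • M s :=
      fun s t hst => by
    induction hst with
    | refl => rw [hself]
    | @step t hst ih =>
      rw [hi s t hst, hq, smul_smul, ENNReal.mul_inv (Or.inl (h0 t)) (Or.inl (hf _ _)),
        mul_right_comm, ENNReal.inv_mul_cancel (h0 t) (hf _ _), one_mul, ih]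
  refine ⟨hq0, ?_, fun t => ⟨(M t (C 0))⁻¹, ENNReal.inv_ne_zero.2 (hf _ _),
    ENNReal.inv_ne_top.2 (hq0 t), ?_⟩⟩
  · refine Measure.ae_sum_iff.2 fun t => Measure.ae_smul_measure (ae_restrict_of_ae ?_) _
    filter_upwards [hS t] with y hy
    exact eventually_atTop.2 ⟨t, fun t' h1 => hn' t t' h1 y hy.1 hy.2⟩
  · have e : ∀ s, ((M s (C 0))⁻¹ • (M s).restrict (disjointed C s)).restrict (C t) =
        ((M t (C 0))⁻¹ • M t).restrict (disjointed C s) := fun s => by
      rcases le_or_gt s t with hst | hst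
      · rw [← Measure.restrict_smul, ← hk s t hst, Measure.restrict_smul, Measure.restrict_smul,
          Measure.restrict_smul, Measure.restrict_restrict (hD s),
          inter_eq_left.2 (disjointed_subset C s), Measure.restrict_comm (hC t), hself]
      · have hd : C t ∩ disjointed C s = ∅ := eq_empty_of_forall_notMem fun y hy => by
          have h2 := hy.2
          rw [disjointed_eq_inter_compl] at h2
          exact mem_iInter₂.1 h2.2 t hst hy.1
        rw [Measure.restrict_smul, Measure.restrict_smul, Measure.restrict_restrict (hC t), hd,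
          Measure.restrict_empty, smul_zero]
        conv_rhs => rw [← hself t]
        rw [Measure.restrict_restrict (hD s), inter_comm, hd, Measure.restrict_empty, smul_zero]
    rw [Measure.restrict_sum _ (hC t), funext e,
      ← Measure.restrict_iUnion (disjoint_disjointed C) hD, iUnion_disjointed]
    exact Measure.restrict_eq_self_of_ae_mem (Measure.ae_smul_measure
      ((hS t).mono fun y hy => mem_iUnion.2 ⟨t, hy.2⟩) _)

theorem exists_kernel_inv_smul (k : Kernel X X) [IsSFiniteKernel k] {f : X → ℝ≥0∞}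
    (hf : Measurable f) {D : X → Set X} (hD : MeasurableSet {p : X × X | p.2 ∈ D p.1}) :
    ∃ k' : Kernel X X, IsSFiniteKernel k' ∧ ∀ x, f x ≠ 0 → k' x = (f x)⁻¹ • (k x).restrict (D x) := by
  classical
  have hm : Measurable (Function.uncurry fun x y => {p : X × X | p.2 ∈ D p.1}.indicator
      (fun p => if f p.1 = 0 then 0 else (f p.1)⁻¹) (x, y)) :=
    ((Measurable.ite (hf (measurableSet_singleton 0)) measurable_const hf.inv).comp
      measurable_fst).indicator hD
  refine ⟨k.withDensity _, Kernel.IsSFiniteKernel.withDensity k (f := fun x y =>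
    {p : X × X | p.2 ∈ D p.1}.indicator (fun p => if f p.1 = 0 then 0 else (f p.1)⁻¹) (x, y))
    fun x y => ?_, fun x hx => ?_⟩
  · by_cases h : (x, y) ∈ {p : X × X | p.2 ∈ D p.1}
    · rw [indicator_of_mem h]
      split_ifs with h1
      · exact ENNReal.zero_ne_top
      · exact ENNReal.inv_ne_top.2 h1
    · rw [indicator_of_notMem h]
      exact ENNReal.zero_ne_top
  · rw [Kernel.withDensity_apply _ hm, ← withDensity_const,
      ← withDensity_indicator (s := D x) (measurable_prodMk_left hD)]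
    congr 1
    funext y
    by_cases h : y ∈ D x
    · rw [indicator_of_mem (by exact h), indicator_of_mem (by exact h), if_neg hx]
    · rw [indicator_of_notMem (by exact h), indicator_of_notMem (by exact h)]

end Pool.Agent.P.MP_d483fb_an.Z
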