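import Pool.Agent.P.MP_d483fb_an.Z.LSB.Bridge
import Pool.Agent.P.MP_d483fb_an.Z.LSB.BoxEx
import Pool.Agent.P.MP_d483fb_an.Z.LSB.LeafLS

/-!
Every leaf structure has increasing rectangle partitions and leafwise measures.
-/

open MeasureTheory Set

namespace Pool.Agent.P.MP_d483fb_an.Z

variable {X : Type} [MeasurableSpace X] [StandardBorelSpace X] {μ : Measure X}
  [IsProbabilityMeasure μ] {ι : Type} [Fintype ι] [DecidableEq ι]

/-- The increasing rectangle partition of a leaf structure. -/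
theorem LS.exists_box (S : LS X μ ι) {J : Set ℝ} {χ : ℝ} (hJ : J.OrdConnected)
    (hχ : Wt.Extreme J χ) : ∃ K zeta d del Y, Box μ S.toPre.aE S.X0 (S.toPre.RJ J) S.toPre.N
      (fun w y => S.w.pr χ (S.toPre.n w y)) (fun w y => S.w.al χ (S.toPre.n w y))
      K zeta d del Y := by
  obtain ⟨Z0, ρ, c, r0, η, σ, h⟩ := S.exists_boxPre hJ hχ
  exact h.exists_box

/-- Leafwise measures exist. -/
theorem LS.hasLW (S : LS X μ ι) : S.toPre.HasLW := S.hasLW_of_box fun _ _ => S.exists_box

end Pool.Agent.P.MP_d483fb_an.Z
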